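import Pool.Agent.X180.Tow.Chain
import Pool.Agent.X180.Abn.Sys1

/-!
Subadditivity: pluricanonical forms of the base and forms along the fibres.
-/

set_option autoImplicit false
set_option linter.overlappingInstances false

open FF Pool.Agent.W602.GT Pool.Agent.W603.LV Pool.Agent.W619.PQ Pool.Agent.W619.Y
open Pool.Agent.TH585.SV Pool.Agent.Y172 Pool.Agent.Y191 Pool.Agent.X180.Iso
open Pool.Agent.X180.Tow

namespace Pool.Agent.X140.EF

variable {K : Type} [Field K] [Algebra ℂ K]

theorem bot_ai {ι : Type} {u : ι → K} : AlgebraicIndependent (⊥ : IntermediateField ℂ K) u ↔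
    AlgebraicIndependent ℂ u := by
  refine algebraicIndependent_ringHom_iff_of_comp_eq
    ((IntermediateField.botEquiv ℂ K).symm.toRingEquiv) (RingHom.id K) Function.injective_id ?_
  ext c
  rfl

/-- derivations over the constants -/
noncomputable def toBot (D : Derivation ℂ K K) : Derivation (⊥ : IntermediateField ℂ K) K K :=
  Derivation.mk'
    { toFun := D
      map_add' := D.map_add
      map_smul' := by
        rintro ⟨z, hz⟩ x
        obtain ⟨c, rfl⟩ := IntermediateField.mem_bot.1 hz
        change D (algebraMap ℂ K c * x) = algebraMap ℂ K c * D x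
        rw [D.leibniz, D.map_algebraMap, smul_zero, add_zero, smul_eq_mul] }
    (fun a b => D.leibniz a b)

theorem toBot_apply (D : Derivation ℂ K K) (x : K) : toBot D x = D x := rfl

theorem toBot_sum {n : ℕ} (A : Fin n → K) (D : Fin n → Derivation ℂ K K) :
    toBot (∑ j, A j • D j) = ∑ j, A j • toBot (D j) := by
  ext z
  have l1 : (∑ j, A j • toBot (D j)) z = ∑ j, A j * toBot (D j) z := sum_smul_apply _ _ _ _
  rw [l1, toBot_apply]
  have l2 : (∑ j, A j • D j) z = ∑ j, A j * D j z := by
    rw [← Derivation.coeFnAddMonoidHom_apply, map_sum, Finset.sum_apply]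
    rfl
  rw [l2]
  rfl

theorem rs_toBot (D : Derivation ℂ K K) : rs (toBot D) = D := by
  ext z
  rfl

theorem trdeg_bot : Algebra.trdeg ℂ (⊥ : IntermediateField ℂ K) = 0 := by
  rw [(IntermediateField.botEquiv ℂ K).trdeg_eq]
  exact trdeg_eq_zero_iff.2 inferInstance

/-- pluricanonical forms as forms along the fibres of the map to a point -/
theorem forms_of_kod {w κ : ℕ} (h : Pool.Agent.W602.GT.KodGe ℂ K w (fun _ => False) κ) :
    HasForms w {P | Divisorial w P} (fun _ => 0) (⊥ : IntermediateField ℂ K) w κ := by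
  obtain ⟨m, hm, ω, h1, D, h2, h3⟩ := h
  refine ⟨m, hm, fun b G => ω b fun i => rs (G i), fun b => ⟨fun A G => ?_,
    fun P _ hP G hG => ?_⟩, fun i => toBot (D i), ?_, ?_⟩
  · have e1 : (fun i => rs (∑ j, A i j • G j)) = fun i => ∑ j, A i j • rs (G j) := by
      funext i
      exact rs_sum _ _
    change ω b (fun i => rs (∑ j, A i j • G j)) = _
    rw [e1]
    exact (h1 b).1 A _
  · have h4 := (h1 b).2.2 P hP id (fun i => rs (G i)) (fun i f hf => hG i f hf)
    rcases h4 with h4 | h4
    · exact Or.inl h4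
    · right
      have h5 : (0 : ℝ) ≤ (P.ord (ω b fun i => rs (G i)) : ℝ) := by exact_mod_cast h4
      simpa using h5
  · simp only [rs_toBot]
    exact h2
  · rw [bot_ai]
    simp only [rs_toBot]
    exact h3

theorem kod_of_forms {w κ : ℕ}
    (h : HasForms w {P | True} (fun _ => 0) (⊥ : IntermediateField ℂ K) w κ) :
    KodTr ℂ K w κ := by
  obtain ⟨m, hm, θ, h1, G, h2, h3⟩ := h
  have hG : ∀ i, toBot (rs (G i)) = G i := fun i => by
    ext z
    rfl
  refine Pool.Agent.X180.Abn.kodTr_of_kodGe (kod_of_pairs ⟨m, hm, fun b D => θ b fun i =>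
    toBot (D i), fun b => ⟨fun A D => ?_, fun P _ hP D hD => ?_⟩, fun i => rs (G i), ?_, ?_⟩)
  · have e1 : (fun i => toBot (∑ j, A i j • D j)) = fun i => ∑ j, A i j • toBot (D j) := by
      funext i
      exact toBot_sum _ _
    change θ b (fun i => toBot (∑ j, A i j • D j)) = _
    rw [e1]
    exact (h1 b).1 A _
  · have h4 := (h1 b).2 P trivial hP (fun i => toBot (D i)) (fun i f hf => hD i f hf)
    exact h4
  · simp only [hG]
    exact h2
  · simp only [hG]
    exact bot_ai.1 h3

theorem dn_bot (E : IntermediateField ℂ K) : dn E ⊥ = ⊥ := by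
  rw [eq_bot_iff]
  intro z hz
  have h1 : ((z : E) : K) ∈ (⊥ : IntermediateField ℂ K) := hz
  obtain ⟨c, hc⟩ := IntermediateField.mem_bot.1 h1
  exact IntermediateField.mem_bot.2 ⟨c, Subtype.ext hc⟩

/-- **Subadditivity.** -/
theorem kod_comp {E : IntermediateField ℂ K} [Algebra.EssFiniteType ℂ E] {d e k lam : ℕ}
    (hK : Algebra.trdeg ℂ K = (d + e : ℕ)) (hE : Algebra.trdeg ℂ E = d) (hk : KodTr ℂ E d k)
    (hθ : HasForms (d + e) {P | True} (fun _ => 0) E e lam) : KodTr ℂ K (d + e) (k + lam) := by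
  have he : Algebra.trdeg E K = e := trdeg_rel hK hE
  refine kod_of_forms (HasForms.comp (E := E) (L := ⊥) (d0 := 0) bot_le hK
    (by rw [hE, zero_add]) (by rw [trdeg_bot]; simp) he ?_ hθ)
  rw [dn_bot, zero_add]
  exact forms_of_kod (Pool.Agent.X180.Abn.kodGe_of_kodTr hk)

end Pool.Agent.X140.EF
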