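import Pool.Agent.X140.EF.Geo3
import Pool.Agent.X140.EF.Bot

/-!
Dominant maps whose fibres dominate the product of a variety over the constants and a multiple double
cover of a product of lines, and towers of such maps.
-/

set_option autoImplicit false
set_option linter.overlappingInstances false

open FF Pool.Agent.W619.TW Pool.Agent.W619.Y Pool.Agent.X180.Tow

namespace Pool.Agent.X140.EF

section

variable {Λ F : Type} [Field Λ] [Field F] [Algebra ℂ F] [Algebra Λ F]

/-- The variety over `Λ` with function field `F` has a generically finite rational map to the product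
of the variety over `ℂ` with function field `M` and of the multiple double cover
`w k ^ 2 = c k * ∏ i ∈ S k, f i (x i)`, `k < p`, of the product of `r` lines: the `c k` are nonzero
elements of `Λ`, the `f i` monic separable polynomials over `Λ` of degree at least three, every
`j < r` lies in some `S k`, `x j` and `w k` are the coordinates of the map, and `F` is algebraic over
the field generated by `Λ`, `M` and the `x j`. -/
def Dominates {r p : ℕ} (M : IntermediateField ℂ F) (f : Fin r → Polynomial Λ)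
    (S : Fin p → Finset (Fin r)) (c : Fin p → Λ) (x : Fin r → F) (w : Fin p → F) : Prop :=
  (∀ j, (f j).Monic ∧ (f j).Separable ∧ 3 ≤ (f j).natDegree) ∧ (∀ j, ∃ k, j ∈ S k) ∧
  (∀ k, c k ≠ 0 ∧ w k ^ 2 = algebraMap Λ F (c k) * ∏ i ∈ S k, Polynomial.aeval (x i) (f i)) ∧
  ∀ z : F, IsAlgebraic (IntermediateField.adjoin Λ ((M : Set F) ∪ Set.range x)) z

/-- The number of the polynomials of degree at least five. -/
noncomputable def HighDegree {r : ℕ} (f : Fin r → Polynomial Λ) : ℕ :=
  (Finset.univ.filter fun j => 5 ≤ (f j).natDegree).card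

end

/-- Let `K` be the function field of `X`, and `U ⊆ K` that of `W`, so that there is a dominant map
`X → W`. `Λ` is an algebraic closure of `U`, and `F`, generated by `Λ` and `K`, is the function field
of a component of the geometric generic fibre of `X → W`. -/
def IsGeometricFibre {K : Type} [Field K] [Algebra ℂ K] (U : IntermediateField ℂ K) (Λ F : Type)
    [Field Λ] [Field F] [Algebra Λ F] [Algebra K F] : Prop :=
  IsAlgClosed Λ ∧ (∀ z ∈ U, ∃ y : Λ, algebraMap Λ F y = algebraMap K F z) ∧
  (∀ y : Λ, IsAlgebraic U (algebraMap Λ F y)) ∧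
  IntermediateField.adjoin Λ (Set.range (algebraMap K F)) = ⊤

/-- Let `K` be the function field of `X`, and `U ⊆ K` that of `W`, `e` the dimension of the fibres of
`X → W`. A component `F` of the geometric generic fibre has a generically finite rational map to a
product `F₀ × Z`, where `F₀` is a variety over `ℂ` with `κ(F₀) ≥ h` and `Z` is a multiple double cover
`w k ^ 2 = c k * ∏ i ∈ S k, f i (x i)` of a product of `r` lines as in `Dominates`, with `u` of the
polynomials `f i` of degree at least five, `h + u = k`, and `e = dim F₀ + r`. -/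
def CoverFibres {K : Type} [Field K] [Algebra ℂ K] (U : IntermediateField ℂ K) (e k : ℕ) : Prop :=
  ∃ (Λ F : Type) (_ : Field Λ) (_ : Field F) (_ : Algebra ℂ F) (_ : Algebra Λ F) (_ : Algebra K F)
    (_ : IsScalarTower ℂ K F), IsGeometricFibre U Λ F ∧
  ∃ (r t p h : ℕ) (M : IntermediateField ℂ F) (f : Fin r → Polynomial Λ)
    (S : Fin p → Finset (Fin r)) (c : Fin p → Λ) (x : Fin r → F) (w : Fin p → F),
    e = r + t ∧ k = h + HighDegree f ∧ Algebra.EssFiniteType ℂ M ∧ Algebra.trdeg ℂ M = t ∧
    KodTr ℂ M t h ∧ Dominates M f S c x w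

/-- the forms along the fibres -/
theorem CoverFibres.forms {K : Type} [Field K] [Algebra ℂ K] {U : IntermediateField ℂ K}
    {N e k : ℕ} (hN : Algebra.trdeg ℂ K = N) (hU : Algebra.trdeg U K = e) (h : CoverFibres U e k)
    (X : Set (Place ℂ K)) : HasForms N X (fun _ => 0) U e k := by
  obtain ⟨Λ, F, i1, i2, i3, i4, i5, i6, ⟨-, -, hΛ, hgen⟩, r, t, p, h, M, f, S, c, x, w, he, hk, i7,
    hM, hh, hdom⟩ := h
  subst he hk
  obtain ⟨Q, hQ⟩ : ∃ Q : Finset (Fin r), Q = Finset.univ.filter fun j => 5 ≤ (f j).natDegree :=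
    ⟨_, rfl⟩
  have hQu : Q.card = HighDegree f := by
    rw [hQ]
    rfl
  have hQ5 : ∀ j ∈ Q, 5 ≤ (f j).natDegree := by
    intro j hj
    rw [hQ, Finset.mem_filter] at hj
    exact hj.2
  exact geo_cov hN hU (L := U) (fun x hx => isAlgebraic_algebraMap (⟨x, hx⟩ : U)) hgen hΛ M hM
    hdom.1 hdom.2.1 hdom.2.2.1 (Q.orderEmbOfFin hQu).injective
    (fun i => hQ5 _ (Q.orderEmbOfFin_mem hQu i)) hdom.2.2.2
    (Pool.Agent.X180.Abn.kodGe_of_kodTr hh) X

/-- Dominant maps `W_l → ... → W_1 → W_0` of varieties of dimensions `D i` with function fields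
`E i ⊆ K`, such that the fibres of `W_{i+1} → W_i`, of dimension `e i`, are as in `CoverFibres`. -/
def IsTower {K : Type} [Field K] [Algebra ℂ K] {l : ℕ} (E : Fin (l + 1) → IntermediateField ℂ K)
    (D : Fin (l + 1) → ℕ) (e k : Fin l → ℕ) : Prop :=
  (∀ i, Algebra.trdeg ℂ (E i) = D i) ∧
  ∀ i : Fin l, E i.castSucc ≤ E i.succ ∧ Algebra.EssFiniteType ℂ (E i.succ) ∧
    D i.succ = D i.castSucc + e i ∧ CoverFibres (dn (E i.succ) (E i.castSucc)) (e i) (k i)

/-- the forms of a tower -/
theorem IsTower.forms {K : Type} [Field K] [Algebra ℂ K] {l : ℕ}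
    {E : Fin (l + 1) → IntermediateField ℂ K} {D : Fin (l + 1) → ℕ} {e k : Fin l → ℕ}
    (hT : IsTower E D e k) {N e' k' : ℕ} (hN : N = D (Fin.last l) + e')
    (hK : Algebra.trdeg ℂ K = N) (hF : CoverFibres (E (Fin.last l)) e' k')
    (X : Set (Place ℂ K)) : HasForms N X (fun _ => 0) (E 0) (∑ i, e i + e') (∑ i, k i + k') := by
  refine chain hK l E (fun i => (hT.2 i).1) (fun i => (hT.2 i).2.1) D hT.1 e k
    (fun i => (hT.2 i).2.2.1) hN (fun i => ?_) (hF.forms hK ?_ X)
  · have h1 : Algebra.trdeg ℂ (E i.succ) = (D i.castSucc + e i : ℕ) := by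
      rw [hT.1, (hT.2 i).2.2.1]
    exact (hT.2 i).2.2.2.forms h1
      (Pool.Agent.X180.Iso.trdeg_rel h1 (trdeg_dn (hT.2 i).1 (hT.1 _))) _
  · rw [hN] at hK
    exact Pool.Agent.X180.Iso.trdeg_rel hK (hT.1 _)

theorem tower_sum : ∀ (l : ℕ) (D : Fin (l + 1) → ℕ) (e : Fin l → ℕ),
    (∀ i : Fin l, D i.succ = D i.castSucc + e i) → D (Fin.last l) = D 0 + ∑ i, e i := by
  intro l
  induction l with
  | zero =>
    intro D e _
    simp
  | succ l ih =>
    intro D e h
    rw [Fin.sum_univ_castSucc, ← add_assoc, ← Fin.succ_last, h]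
    congr 1
    exact ih (fun i => D i.castSucc) (fun i => e i.castSucc) fun i => h i.castSucc

end Pool.Agent.X140.EF
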