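import Pool.Agent.X140.EF.Mod5
import Pool.Agent.X140.EF.TDefs

/-!
Subadditivity with the moduli.
-/

set_option autoImplicit false
set_option linter.overlappingInstances false

open FF Pool.Agent.W602.GT Pool.Agent.W603.LV Pool.Agent.W619.PQ Pool.Agent.W619.Y
open Pool.Agent.TH585.SV Pool.Agent.Y172 Pool.Agent.Y191 Pool.Agent.X180.Iso
open Pool.Agent.X180.Tow

namespace Pool.Agent.X140.EF

variable {K : Type} [Field K] [Algebra ℂ K]

/-- forms along the fibres with ratios which are independent over the constants -/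
def HasFormsC (N : ℕ) (X : Set (Place ℂ K)) (L : IntermediateField ℂ K) (e lam : ℕ) : Prop :=
  ∃ m : ℕ, 0 < m ∧ ∃ θ : Fin (lam + 1) → (Fin e → Derivation L K K) → K,
    (∀ b, FibSec N m X (fun _ => 0) L (θ b)) ∧ ∃ G, θ 0 G ≠ 0 ∧
      AlgebraicIndependent ℂ (fun i : Fin lam => θ i.succ G / θ 0 G)

theorem upF_bot (E : IntermediateField ℂ K) : upF K (⊥ : IntermediateField ℂ E) = ⊥ := by
  rw [eq_bot_iff]
  intro z hz
  obtain ⟨a, ha, rfl⟩ := mem_upF.1 hz
  obtain ⟨c, rfl⟩ := IntermediateField.mem_bot.1 ha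
  exact IntermediateField.mem_bot.2 ⟨c, rfl⟩

/-- **Subadditivity with the variation.** -/
theorem kod_compC {E : IntermediateField ℂ K} [Algebra.EssFiniteType ℂ E] {d e lam : ℕ}
    (hK : Algebra.trdeg ℂ K = (d + e : ℕ)) (hE : Algebra.trdeg ℂ E = d) (hk : KodTr ℂ E d 0)
    (hθ : HasFormsC (d + e) {P | True} E e lam) : KodTr ℂ K (d + e) lam := by
  have he : Algebra.trdeg E K = e := trdeg_rel hK hE
  obtain ⟨M, hM, η, h1, G, h2, -⟩ := forms_of_kod (Pool.Agent.X180.Abn.kodGe_of_kodTr hk)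
  obtain ⟨m, hm, θ, h3, h4⟩ := hθ
  have hb : Algebra.trdeg ℂ (⊥ : IntermediateField ℂ E) = (0 : ℕ) := by
    rw [trdeg_bot]
    simp
  have hd : Algebra.trdeg (⊥ : IntermediateField ℂ E) E = d := by
    have h5 := _root_.trdeg_add_eq ℂ (⊥ : IntermediateField ℂ E) (A := E)
    rw [hE, hb] at h5
    simpa using h5
  obtain ⟨ω, h5, h6⟩ := towerC (LE := (⊥ : IntermediateField ℂ E)) (d0 := 0) (d := d) hK
    (by rw [hE, zero_add]) hb hd he hM hm (η := η 0) (by rw [zero_add]; exact h1 0) ⟨G, h2⟩ h3 h4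
  have h7 : HasFormsC (d + e) {P | True} (upF K (⊥ : IntermediateField ℂ E)) (d + e) lam :=
    ⟨M * m, Nat.mul_pos hM hm, ω, h5, h6⟩
  rw [upF_bot] at h7
  obtain ⟨m', hm', θ', h8, G', h9, h10⟩ := h7
  exact kod_of_forms ⟨m', hm', θ', h8, G', h9, bot_ai.2 h10⟩

theorem kodTr_le {n h : ℕ} (hk : KodTr ℂ K n h) : KodTr ℂ K n 0 := by
  obtain ⟨m, hm, ω, h1, D, h2, h3⟩ := hk
  refine ⟨m, hm, fun _ => ω 0, fun _ => h1 0, D, fun _ => h2 0, ?_⟩
  rw [algebraicIndependent_empty_type_iff]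
  exact (algebraMap ℂ K).injective

theorem rp_aeval {Λ F : Type} [Field Λ] [Field F] [Algebra Λ F] (R : Finset Λ) (x : F) :
    Polynomial.aeval x (rp R) = ∏ a ∈ R, (x - algebraMap Λ F a) := by
  unfold rp
  rw [map_prod]
  simp

end Pool.Agent.X140.EF
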