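import Pool.Agent.X140.EF.Bot

/-!
Descent and composition of forms along the fibres with ratios which are independent over the
constants.
-/

set_option autoImplicit false
set_option linter.overlappingInstances false
set_option linter.unusedSectionVars false

open FF Pool.Agent.W602.GT Pool.Agent.W603.LV Pool.Agent.W619.PQ Pool.Agent.W619.Y
open Pool.Agent.TH585.SV Pool.Agent.Y172 Pool.Agent.Y191 Pool.Agent.X180.Iso Pool.Agent.X180.Tow

namespace Pool.Agent.X140.EF

section

variable {K K' : Type} [Field K] [Field K'] [Algebra ℂ K] [Algebra ℂ K'] [Algebra K K']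
  [IsScalarTower ℂ K K'] {L : IntermediateField ℂ K}

theorem botK_ai {ι : Type} {u : ι → K'} : AlgebraicIndependent (⊥ : IntermediateField ℂ K) u ↔
    AlgebraicIndependent ℂ u := by
  refine algebraicIndependent_ringHom_iff_of_comp_eq
    ((IntermediateField.botEquiv ℂ K).symm.toRingEquiv) (RingHom.id K') Function.injective_id ?_
  ext c
  exact (IsScalarTower.algebraMap_apply ℂ K K' c).symm

variable [FiniteDimensional K K']

/-- **The descent of the forms along the fibres.** -/
theorem pushC {N e lam M : ℕ} (hM : 0 < M)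
    (hL : Algebra.trdeg L K = e) {α : K'}
    (hα : IsAlgebraic (upF K' L) α) (htop : ∀ z : K', ∃ p : Polynomial K, z = Polynomial.aeval α p)
    {X : Set (Place ℂ K)} {θ' : Fin (lam + 1) → (Fin e → Derivation (upF K' L) K' K') → K'}
    (hθ' : ∀ b, FibSec N M {Q | ∃ P ∈ X, ∃ ε, Over Q P ε} (fun _ => 0) (upF K' L) (θ' b))
    (hne : ∃ G', θ' 0 G' ≠ 0 ∧
      AlgebraicIndependent ℂ (fun i : Fin lam => θ' i.succ G' / θ' 0 G')) :
    ∃ M' : ℕ, 0 < M' ∧ ∃ θ : Fin (lam + 1) → (Fin e → Derivation L K K) → K,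
      (∀ b, FibSec N M' X (fun _ => 0) L (θ b)) ∧ ∃ G, θ 0 G ≠ 0 ∧
        AlgebraicIndependent ℂ (fun i : Fin lam => θ i.succ G / θ 0 G) := by
  classical
  have hcL : CharZero L := charZero_of_injective_algebraMap (algebraMap ℂ L).injective
  have hcU : CharZero (upF K' L) :=
    charZero_of_injective_algebraMap (algebraMap ℂ (upF K' L)).injective
  obtain ⟨G0, hG0, hind⟩ := hne
  obtain ⟨y, E, hy, hE⟩ := exists_crd hL
  have hcK : CharZero K := charZero_of_injective_algebraMap (algebraMap ℂ K).injective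
  choose E' hE' using fun i => exists_liftF (K' := K') hL (E i)
  have hyL : IsTranscendenceBasis (upF K' L) (fun j => algebraMap K K' (y j)) :=
    tb_up (hy.algebraMap_comp (A := K'))
  have hEL : ∀ i j, E' i (algebraMap K K' (y j)) = if i = j then 1 else 0 := by
    intro i j
    rw [hE', hE, apply_ite (algebraMap K K'), map_one, map_zero]
  -- the values on the lifted frame
  have hval : ∀ j (G : Fin e → Derivation (upF K' L) K' K'), θ' j G =
      (Matrix.of fun i j => G i (algebraMap K K' (y j))).det ^ M * θ' j E' :=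
    fun j G => pluri_coord hyL hEL (hθ' j).1 G
  have hd0 : (Matrix.of fun i j => G0 i (algebraMap K K' (y j))).det ^ M ≠ 0 := by
    intro h0
    apply hG0
    rw [hval, h0, zero_mul]
  have hW0 : θ' 0 E' ≠ 0 := by
    intro h0
    apply hG0
    rw [hval, h0, mul_zero]
  have hind' : AlgebraicIndependent ℂ (fun i : Fin lam => θ' i.succ E' / θ' 0 E') := by
    have e1 : (fun i : Fin lam => θ' i.succ G0 / θ' 0 G0) =
        fun i : Fin lam => θ' i.succ E' / θ' 0 E' := by
      funext i
      rw [hval i.succ G0, hval 0 G0, mul_div_mul_left _ _ hd0]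
    rw [e1] at hind
    exact hind
  have hne : ∀ j, θ' j E' ≠ 0 := by
    intro j
    refine Fin.cases hW0 (fun i => ?_) j
    intro h0
    have := hind'.ne_zero i
    rw [h0, zero_div] at this
    exact this rfl
  obtain ⟨R, s, hR, hs0, hsi, hs⟩ := desc_over (K := K) (⊥ : IntermediateField ℂ K)
    (f := fun j => θ' j E') hne (botK_ai.2 hind')
  have hEv : (Matrix.of fun i j => E i (y j) : Matrix (Fin e) (Fin e) K).det = 1 := by
    have : (Matrix.of fun i j => E i (y j) : Matrix (Fin e) (Fin e) K) = 1 := by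
      ext i j
      rw [Matrix.of_apply, hE, Matrix.one_apply]
    rw [this, Matrix.det_one]
  refine ⟨M * R, Nat.mul_pos hM (by omega), fun j G => (Matrix.of fun i j => G i (y j) :
    Matrix (Fin e) (Fin e) K).det ^ (M * R) * s j, fun j => ⟨?_, ?_⟩, E, ?_, ?_⟩
  · intro A D
    have e1 : (Matrix.of fun a b => (∑ j, A a j • D j) (y b)) =
        A * Matrix.of fun a b => D a (y b) := by
      ext a b
      rw [Matrix.of_apply, Matrix.mul_apply, sum_smul_apply]
      rfl
    change (Matrix.of fun a b => (∑ j, A a j • D j) (y b)).det ^ (M * R) * s j = _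
    rw [e1, Matrix.det_mul, mul_pow, mul_assoc]
  · -- the estimate
    intro P hP hPd G hG
    obtain ⟨d, hd⟩ : ∃ d, d = (Matrix.of fun i j => G i (y j) : Matrix (Fin e) (Fin e) K).det :=
      ⟨_, rfl⟩
    change (Matrix.of fun i j => G i (y j) : Matrix (Fin e) (Fin e) K).det ^ (M * R) * s j = 0 ∨
      -(((M * R : ℕ) : ℝ) * 0) ≤ ((P.ord ((Matrix.of fun i j => G i (y j) :
        Matrix (Fin e) (Fin e) K).det ^ (M * R) * s j) : ℤ) : ℝ)
    rw [← hd, mul_zero, neg_zero]
    by_cases hd00 : d = 0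
    · left
      rw [hd00, zero_pow (Nat.mul_pos hM (by omega)).ne', zero_mul]
    choose G' hG' using fun i => exists_liftF (K' := K') hL (G i)
    have hkey : ∀ (Q : Place ℂ K') (ε : ℕ), Over Q P ε → ∀ l,
        Ge Q (ε * (-(M * P.ord d))) (θ' l E') := by
      intro Q ε hQ l
      have hreg : ∀ i, ∀ f, Q.Reg f → Q.Reg (G' i f) := by
        intro i
        have h1 := lift_reg (L := L) hα htop hQ (G := (G i).restrictScalars ℂ) (fun f hf => hG i f hf)
          (fun a ha => (G i).map_algebraMap (⟨a, ha⟩ : L)) (G' := (G' i).restrictScalars ℂ)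
          (fun f => hG' i f)
        exact h1
      have hQd : Divisorial N Q := divisorial_up hQ hPd
      have h2 := (hθ' l).2 Q ⟨P, hP, ε, hQ⟩ hQd G' hreg
      have h3 : (Matrix.of fun i j => G' i (algebraMap K K' (y j))).det = algebraMap K K' d := by
        rw [hd, RingHom.map_det]
        congr 1
        ext i j
        rw [Matrix.of_apply, RingHom.mapMatrix_apply, Matrix.map_apply, Matrix.of_apply, hG']
      rw [hval l G', h3] at h2
      have hd0' : algebraMap K K' d ≠ 0 := by
        rw [Ne, map_eq_zero]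
        exact hd00
      rcases h2 with h2 | h2
      · exact absurd h2 (mul_ne_zero (pow_ne_zero _ hd0') (hne l))
      · right
        rw [mul_zero, neg_zero] at h2
        have h4 : 0 ≤ Q.ord (algebraMap K K' d ^ M * θ' l E') := by exact_mod_cast h2
        rw [Q.ord_mul (pow_ne_zero _ hd0') (hne l), Q.ord_pow, hQ.2] at h4
        linarith
    have h5 := hs P _ hkey j
    have h6 := ((ge_ord P d).pow (M * R)).mul h5
    have h7 : ((M * R : ℕ) : ℤ) * P.ord d + R * (-(M * P.ord d)) = 0 := by
      push_cast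
      ring
    rw [h7] at h6
    rcases h6 with h6 | h6
    · exact Or.inl h6
    · right
      exact_mod_cast h6
  · change (Matrix.of fun i j => E i (y j) : Matrix (Fin e) (Fin e) K).det ^ (M * R) * s 0 ≠ 0
    rw [hEv, one_pow, one_mul]
    exact hs0 0
  · change AlgebraicIndependent ℂ (fun i : Fin lam => (Matrix.of fun i j => E i (y j) :
      Matrix (Fin e) (Fin e) K).det ^ (M * R) * s i.succ / ((Matrix.of fun i j => E i (y j) :
      Matrix (Fin e) (Fin e) K).det ^ (M * R) * s 0))
    simp only [hEv, one_pow, one_mul]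
    exact bot_ai.1 hsi

end

section

variable {K : Type} [Field K] [Algebra ℂ K]
variable {E : IntermediateField ℂ K} {LE : IntermediateField ℂ E} {d0 d e lam : ℕ}

/-- **Composition of forms along the fibres.** -/
theorem towerC [Algebra.EssFiniteType ℂ E] {N M m : ℕ} (hN : Algebra.trdeg ℂ K = N)
    (hE : Algebra.trdeg ℂ E = (d0 + d : ℕ)) (hLE : Algebra.trdeg ℂ LE = d0)
    (hd : Algebra.trdeg LE E = d) (he : Algebra.trdeg E K = e) (hM : 0 < M) (hm : 0 < m)
    {X : Set (Place ℂ K)} {δ : Place ℂ K → ℝ}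
    {η : (Fin d → Derivation LE E E) → E}
    (hη : FibSec (d0 + d) M {p | Divisorial (d0 + d) p} (fun _ => 0) LE η)
    (hηne : ∃ G, η G ≠ 0)
    {θ : Fin (lam + 1) → (Fin e → Derivation E K K) → K} (hθ : ∀ b, FibSec N m X δ E (θ b))
    (hne : ∃ G, θ 0 G ≠ 0 ∧ AlgebraicIndependent ℂ (fun i : Fin lam => θ i.succ G / θ 0 G)) :
    ∃ ω : Fin (lam + 1) → (Fin (d + e) → Derivation (upF K LE) K K) → K,
      (∀ j, FibSec N (M * m) X δ (upF K LE) (ω j)) ∧
      ∃ D, ω 0 D ≠ 0 ∧
        AlgebraicIndependent ℂ (fun i : Fin lam => ω i.succ D / ω 0 D) := by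
  classical
  have hcLE : CharZero LE := charZero_of_injective_algebraMap (algebraMap ℂ LE).injective
  have hcE : CharZero E := charZero_of_injective_algebraMap (algebraMap ℂ E).injective
  obtain ⟨t, Dt, ht, hDt⟩ := exists_crd (k := LE) (K := E) hd
  obtain ⟨u, Dv, hu, hDv⟩ := exists_crd (k := E) (K := K) he
  obtain ⟨t', ht'⟩ : ∃ t' : Fin d → K, t' = fun j => ((t j : E) : K) := ⟨_, rfl⟩
  -- the forms on the frames
  have hη' : ∀ (G : Fin d → Derivation LE E E),
      η G = (Matrix.of fun i l => G i (t l)).det ^ M * η Dt := fun G =>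
    pluri_coord ht hDt hη.1 G
  have hθ' : ∀ (G : Fin e → Derivation E K K) b,
      θ b G = (Matrix.of fun i l => G i (u l)).det ^ m * θ b Dv := fun G b =>
    pluri_coord hu hDv (hθ b).1 G
  obtain ⟨G1, hG1⟩ := hηne
  obtain ⟨G2, hG2, hind2⟩ := hne
  have hdet2 : (Matrix.of fun i l => G2 i (u l) : Matrix (Fin e) (Fin e) K).det ^ m ≠ 0 := by
    intro h0
    apply hG2
    rw [hθ', h0, zero_mul]
  have hη0 : η Dt ≠ 0 := by
    intro h0
    apply hG1
    rw [hη', h0, mul_zero]
  have hθ0 : θ 0 Dv ≠ 0 := by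
    intro h0
    apply hG2
    rw [hθ', h0, mul_zero]
  have hi2 : AlgebraicIndependent ℂ (fun i : Fin lam => θ i.succ Dv / θ 0 Dv) := by
    have e1 : (fun i : Fin lam => θ i.succ G2 / θ 0 G2) =
        fun i : Fin lam => θ i.succ Dv / θ 0 Dv := by
      funext i
      rw [hθ' G2 i.succ, hθ' G2 0, mul_div_mul_left _ _ hdet2]
    rwa [e1] at hind2
  obtain ⟨v, hv⟩ : ∃ v : K, v = ((η Dt : E) : K) := ⟨_, rfl⟩
  have hv0 : v ≠ 0 := by
    rw [hv]
    intro h0
    exact hη0 (Subtype.ext h0)
  -- the sections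
  obtain ⟨g, hg⟩ : ∃ g : Fin (lam + 1) → K, ∀ b, g b =
      v ^ (m - 1) * v * (θ 0 Dv ^ (M - 1) * θ b Dv) := ⟨_, fun _ => rfl⟩
  have hsec : ∀ b, FibSec N (M * m) X δ (upF K LE) (fun D : Fin (d + e) →
      Derivation (upF K LE) K K => pf t' u M m (g b) (fun i => rs (D i))) := by
    intro b
    refine ⟨fun A D => ?_, fun P hPX hPd D hD => ?_⟩
    · change pf t' u M m (g b) (fun i => rs (∑ j, A i j • D j)) = _
      rw [← pf_pluri t' u M m (g b) A fun i => rs (D i)]
      congr 1
      funext i
      exact rs_sum _ _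
    by_cases h0 : (big t' u (fun i => rs (D i))).det = 0
    · left
      change g b * (big t' u (fun i => rs (D i))).det ^ (M * m) = 0
      rw [h0, zero_pow (Nat.mul_pos hM hm).ne', mul_zero]
    obtain ⟨E₁, G, hE₁, hG, hE₁L, hGL, hGt, hdet⟩ := split_gen (P := P)
      (D := fun i => rs (D i)) (fun i f hf => hD i f hf) h0 (upF K LE : Set K)
      (fun i f hf => rs_kills (D i) hf)
    have hGE : ∀ i, ∀ f ∈ E, G i f = 0 := fun i => vert_kills ht (hGL i) fun j => by
      have := hGt i j
      rw [ht'] at this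
      exact this
    obtain ⟨Gv, hGv⟩ : ∃ Gv : Fin e → Derivation E K K, ∀ l f, Gv l f = G l f :=
      ⟨fun l => lft E (G l) (hGE l), fun _ _ => rfl⟩
    have h1 : ∀ b, GeR P (-(m * δ P)) ((mtx u G).det ^ m * θ b Dv) := by
      intro b
      have h2 := (hθ b).2 P hPX hPd Gv (fun i f hf => by rw [hGv]; exact hG i f hf)
      have h3 : θ b Gv = (mtx u G).det ^ m * θ b Dv := by
        have h4 : (Matrix.of fun i l => Gv i (u l)) = mtx u G :=
          Matrix.ext fun i l => hGv i (u l)
        rw [hθ', h4]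
      rw [h3] at h2
      exact h2
    have h2 : GeR P 0 ((mtx t' E₁).det ^ M * v) := by
      rw [hv, ht']
      rcases pull_est hN hE hLE ht hDt hη hPd hE₁ (fun i f hf => hE₁L i _
        (mem_upF.2 ⟨f, hf, rfl⟩)) with h3 | h3
      · exact Or.inl h3
      · right
        exact_mod_cast h3
    have h3 := ((h2.pow (m - 1)).mul h2).mul (((h1 0).pow (M - 1)).mul (h1 b))
    have e1 : ((mtx t' E₁).det ^ M * v) ^ (m - 1) * ((mtx t' E₁).det ^ M * v) *
        (((mtx u G).det ^ m * θ 0 Dv) ^ (M - 1) * ((mtx u G).det ^ m * θ b Dv)) =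
        g b * ((mtx t' E₁).det * (mtx u G).det) ^ (M * m) := by
      rw [hg]
      obtain ⟨m', rfl⟩ := Nat.exists_eq_succ_of_ne_zero hm.ne'
      obtain ⟨M', rfl⟩ := Nat.exists_eq_succ_of_ne_zero hM.ne'
      simp only [Nat.succ_eq_add_one, Nat.add_sub_cancel]
      have e2 : (mtx t' E₁).det ^ ((M' + 1) * (m' + 1)) =
          ((mtx t' E₁).det ^ (M' + 1)) ^ m' * (mtx t' E₁).det ^ (M' + 1) := by
        rw [← pow_mul, ← pow_add]
        congr 1
      have e3 : (mtx u G).det ^ ((M' + 1) * (m' + 1)) =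
          ((mtx u G).det ^ (m' + 1)) ^ M' * (mtx u G).det ^ (m' + 1) := by
        rw [← pow_mul, ← pow_add]
        congr 1
        ring
      rw [mul_pow ((mtx t' E₁).det), e2, e3, mul_pow, mul_pow]
      ring
    rw [e1] at h3
    have h4 : GeR P (-((M * m : ℕ) * δ P)) (g b * ((mtx t' E₁).det * (mtx u G).det) ^ (M * m)) := by
      refine h3.mono ?_
      have hM1 : ((M - 1 : ℕ) : ℝ) = M - 1 := by
        rw [Nat.cast_sub hM]
        simp
      rw [hM1]
      push_cast
      nlinarith
    change GeR P (-((M * m : ℕ) * δ P)) (pf t' u M m (g b) fun i => rs (D i))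
    unfold pf
    rcases hdet with h5 | h5
    · rw [h5]
      exact h4
    · rw [h5]
      rcases Nat.even_or_odd (M * m) with h6 | h6
      · rw [h6.neg_pow]
        exact h4
      · rw [h6.neg_pow, mul_neg]
        exact h4.neg
  have hg00 : g 0 ≠ 0 := by
    rw [hg]
    exact mul_ne_zero (mul_ne_zero (pow_ne_zero _ hv0) hv0)
      (mul_ne_zero (pow_ne_zero _ hθ0) hθ0)
  -- a frame of the fields over `LE`
  obtain ⟨D0, hD0⟩ : ∃ D0 : Fin (d + e) → Derivation (upF K LE) K K,
      (big t' u (fun i => rs (D0 i))).det = 1 := by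
    have hz : IsTranscendenceBasis LE (Sum.elim t' u) := by
      have h1 := ht.sumElim_comp hu
      have h2 := h1.comp_equiv (Equiv.sumComm (Fin d) (Fin e))
      have h3 : Sum.elim t' u = Sum.elim u (algebraMap E K ∘ t) ∘
          Equiv.sumComm (Fin d) (Fin e) := by
        funext a
        rcases a with a | a
        · rw [ht']
          rfl
        · rfl
      rw [h3]
      exact h2
    have hz' : IsTranscendenceBasis (upF K LE) (Sum.elim t' u) := tb_up hz
    have h4 : ∀ i : Fin (d + e), ∃ D : Derivation (upF K LE) K K, ∀ b : Fin d ⊕ Fin e,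
        D (Sum.elim t' u b) = if finSumFinEquiv.symm i = b then 1 else 0 := fun i =>
      exists_der (Sum.elim t' u) hz' _
    choose D0 hD0 using h4
    refine ⟨D0, ?_⟩
    have h5 : big t' u (fun i => rs (D0 i)) = 1 := by
      ext a b
      change D0 (finSumFinEquiv a) (Sum.elim t' u b) = _
      rw [hD0, Equiv.symm_apply_apply, Matrix.one_apply]
    rw [h5, Matrix.det_one]
  have hval : ∀ z : K, pf t' u M m z (fun i => rs (D0 i)) = z := by
    intro z
    unfold pf
    rw [hD0, one_pow, mul_one]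
  refine ⟨fun b D => pf t' u M m (g b) fun i => rs (D i), hsec, D0, ?_, ?_⟩
  · change pf t' u M m (g 0) (fun i => rs (D0 i)) ≠ 0
    rw [hval]
    exact hg00
  · convert hi2 using 1
    funext i
    change pf t' u M m (g i.succ) (fun i => rs (D0 i)) / pf t' u M m (g 0) (fun i => rs (D0 i)) = _
    rw [hval, hval, hg, hg]
    have := pow_ne_zero (m - 1) hv0
    have := pow_ne_zero (M - 1) hθ0
    field_simp

end

end Pool.Agent.X140.EF
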