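import Pool.Agent.X180.Iso.Free

/-!
Transcendence bases over a subfield from a free subfield and some more elements.
-/

set_option autoImplicit false
set_option linter.overlappingInstances false

open Pool.Agent.X180.Iso

namespace Pool.Agent.X140.EF

section basis

open IntermediateField

variable {k K : Type} [Field k] [Field K] [Algebra k K]

/-- a transcendence basis over `U` from a basis of `M` and some more elements -/
theorem basis_mix (U M : IntermediateField k K) {r s : ℕ} (he : Algebra.trdeg U K = (r + s : ℕ))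
    {y : Fin s → M} (hy : IsTranscendenceBasis k y) (x : Fin r → K)
    (hdom : ∀ z : K, IsAlgebraic (adjoin k ((U : Set K) ∪ ((M : Set K) ∪ Set.range x))) z) :
    IsTranscendenceBasis U (Fin.append x (fun j => (y j : K))) := by
  classical
  obtain ⟨T, hT⟩ : ∃ T : IntermediateField k K, T = adjoin k ((U : Set K) ∪
      Set.range (Fin.append x (fun j => (y j : K)))) := ⟨_, rfl⟩
  have hUT : U ≤ T := by
    rw [hT]
    exact fun z hz => subset_adjoin _ _ (Or.inl hz)
  have hMT : ∀ z ∈ M, IsAlgebraic T z := by
    intro z hz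
    have h2 : IsAlgebraic (adjoin k (Set.range y)) (⟨z, hz⟩ : M) :=
      (IntermediateField.isAlgebraic_adjoin_iff_top.2 ⟨fun w => hy.isAlgebraic.isAlgebraic w⟩).isAlgebraic _
    have h3 : ∀ w ∈ adjoin k (Set.range y), (w : K) ∈ T := by
      intro w hw
      have h4 : (w : K) ∈ (adjoin k (Set.range y)).map M.val := ⟨w, hw, rfl⟩
      rw [adjoin_map] at h4
      have h5 : adjoin k (M.val '' Set.range y) ≤ T := by
        rw [hT, adjoin_le_iff]
        rintro _ ⟨_, ⟨j, rfl⟩, rfl⟩
        refine subset_adjoin _ _ (Or.inr ⟨Fin.natAdd r j, ?_⟩)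
        rw [Fin.append_right]
        rfl
      exact h5 h4
    let i : adjoin k (Set.range y) →+* T :=
      ((M.val : M →ₐ[k] K).toRingHom.comp (adjoin k (Set.range y)).val.toRingHom).codRestrict
        T.toSubfield fun w => h3 w w.2
    exact h2.ringHom_of_comp_eq i M.val.toRingHom i.injective rfl
  have hall : ∀ z : K, IsAlgebraic T z := by
    refine top_of_gen (G := adjoin k ((U : Set K) ∪ ((M : Set K) ∪ Set.range x)))
      (fun z hz => ?_) hdom
    have hx1 : ∀ j, x j ∈ T := by
      intro j
      rw [hT]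
      refine subset_adjoin _ _ (Or.inr ⟨Fin.castAdd s j, ?_⟩)
      rw [Fin.append_left]
    have hM1 : ∀ w ∈ M, w ∈ Acl T := fun w hw => mem_acl.2 (hMT w hw)
    have hU1 : ∀ w ∈ U, w ∈ Acl T := fun w hw => le_acl T (hUT hw)
    have hX1 : ∀ j, x j ∈ Acl T := fun j => le_acl T (hx1 j)
    have h1 : adjoin k ((U : Set K) ∪ ((M : Set K) ∪ Set.range x)) ≤ Acl T := by
      rw [adjoin_le_iff]
      refine Set.union_subset hU1 (Set.union_subset hM1 ?_)
      intro w hw
      obtain ⟨j, hj⟩ := hw
      rw [← hj]
      exact hX1 j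
    exact mem_acl.1 (h1 hz)
  obtain ⟨W, hW⟩ : ∃ W : IntermediateField U K,
    W = adjoin U (Set.range (Fin.append x (fun j => (y j : K)))) := ⟨_, rfl⟩
  have hTW : ∀ z ∈ T, z ∈ W := by
    have h1 : T ≤ W.restrictScalars k := by
      rw [hT, adjoin_le_iff]
      rintro z (hz | hz)
      · exact W.algebraMap_mem ⟨z, hz⟩
      · rw [hW]
        exact subset_adjoin U _ hz
    exact h1
  have halg : Algebra.IsAlgebraic
      (Algebra.adjoin U (Set.range (Fin.append x (fun j => (y j : K))))) K := by
    rw [← IntermediateField.isAlgebraic_adjoin_iff_top, ← hW]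
    refine ⟨fun z => ?_⟩
    let i : T →+* W := (T.val.toRingHom).codRestrict W.toSubfield fun w => hTW w w.2
    exact (hall z).ringHom_of_comp_eq i (RingHom.id K) i.injective rfl
  refine Algebra.IsAlgebraic.isTranscendenceBasis_of_le_trdeg_of_finite U
    (Fin.append x (fun j => (y j : K))) ?_
  rw [he]
  simp

/-- Independent elements of `M` are independent over `U`. -/
theorem ind_mix (U M : IntermediateField k K) {r s lam : ℕ}
    (he : Algebra.trdeg U K = (r + s : ℕ)) (hM : Algebra.trdeg k M = s) {f : Fin lam → M}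
    (hf : AlgebraicIndependent k f) (x : Fin r → K)
    (hdom : ∀ z : K, IsAlgebraic (adjoin k ((U : Set K) ∪ ((M : Set K) ∪ Set.range x))) z) :
    AlgebraicIndependent U (fun j => (f j : K)) := by
  classical
  obtain ⟨t, ht, htb⟩ := exists_isTranscendenceBasis_superset (R := k) (s := Set.range f)
    hf.coe_range
  have hcard := htb.cardinalMk_eq_trdeg
  rw [hM] at hcard
  obtain ⟨ε⟩ : Nonempty (Fin s ≃ t) := by
    rw [← Cardinal.eq, Cardinal.mk_fin]
    exact hcard.symm
  have hy : IsTranscendenceBasis k (fun j : Fin s => ((ε j : t) : M)) := htb.comp_equiv ε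
  have h1 := (basis_mix U M he hy x hdom).1
  have h2 := h1.comp (fun j : Fin lam => Fin.natAdd r (ε.symm ⟨f j, ht ⟨j, rfl⟩⟩)) (by
    intro a b hab
    have h3 := ε.symm.injective (Fin.natAdd_injective s r hab)
    exact hf.injective (congrArg Subtype.val h3))
  convert h2 using 1
  funext j
  rw [Function.comp_apply, Fin.append_right]
  simp

end basis

end Pool.Agent.X140.EF
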