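import Pool.Agent.X140.EF.Hess2
import Pool.Agent.X140.EF.Base

/-!
The two forms of the same degree of a hyperelliptic curve along the fibres, and their ratio.
-/

set_option autoImplicit false

open FF Module Pool.Agent.W603.LV Pool.Agent.W602.GT Pool.Agent.W602.Cov Pool.Agent.W602.Cov.G
open Pool.Agent.W168.CG.PGR Pool.Agent.TH152.AC Pool.Agent.TH152.HY Pool.Agent.TH766.MC
open Polynomial Pool.Agent.TH585.SV Pool.Agent.X180.Iso

namespace Pool.Agent.X140.EF

variable {K : Type} [Field K]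

/-- the discriminant -/
noncomputable def disc (f : K[X]) : K :=
  resultant f (derivative f) f.natDegree (f.natDegree - 1)

noncomputable def colE (f : K[X]) (N : ℕ) (x : K) : K := disc f / f.eval x ^ (2 * (N + 3))

noncomputable def colT (f : K[X]) (N : ℕ) (x : K) : K :=
  (hessp (N + 4) f).eval x / f.eval x ^ 2

/-- the form of the discriminant -/
noncomputable def colA (f : K[X]) (N c : ℕ) (x : K) : K := colE f N x ^ (4 * (N + 2) * c)

/-- the form with the Hessian -/
noncomputable def colB (f : K[X]) (N c : ℕ) (x : K) : K :=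
  colE f N x ^ (2 * (N + 4) * c) * colT f N x ^ ((N + 4) * (N + 3) * N * c)

theorem disc_ne {f : K[X]} (hf : f.Separable) [CharZero K] : disc f ≠ 0 := by
  have h1 := resultant_ne_zero f (derivative f) hf
  rw [natDegree_derivative] at h1
  exact h1

theorem colE_ne {f : K[X]} (hf : f.Separable) [CharZero K] (N : ℕ) {x : K}
    (hu : f.eval x ≠ 0) : colE f N x ≠ 0 :=
  div_ne_zero (disc_ne hf) (pow_ne_zero _ hu)

/-- **The two forms are regular.** -/
theorem col_ge [Algebra ℂ K] {P : Place ℂ K} {G : Derivation ℂ K K} (hG : DerReg P G) {f : K[X]}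
    (hf : ∀ i, G (f.coeff i) = 0) (hm : f.Monic) (hn : 3 ≤ f.natDegree) (hsep : f.Separable)
    {c x y : K} (hc : G c = 0) (hc0 : c ≠ 0) (hxy : y ^ 2 = c * f.eval x) (hu : f.eval x ≠ 0)
    {N : ℕ} (hN : N + 4 = f.natDegree + f.natDegree % 2) {e : ℕ} (he : 0 < e) :
    Ge P 0 (colA f N e x * G x ^ (4 * (N + 4) * (N + 3) * (N + 2) * e)) ∧
    Ge P 0 (colB f N e x * G x ^ (4 * (N + 4) * (N + 3) * (N + 2) * e)) := by
  have : CharZero K := charZero_of_injective_algebraMap (algebraMap ℂ K).injective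
  by_cases hGx : G x = 0
  · have h0 : G x ^ (4 * (N + 4) * (N + 3) * (N + 2) * e) = 0 := by
      rw [hGx]
      exact zero_pow (by positivity)
    rw [h0, mul_zero, mul_zero]
    exact ⟨Or.inl rfl, Or.inl rfl⟩
  have h1 := hess_ge hG hf hm hn (disc_ne hsep) hc hc0 hxy hu hGx hN
  have e1 : N + 4 - 1 = N + 3 := rfl
  rw [e1] at h1
  have e2 : resultant f (derivative f) f.natDegree (f.natDegree - 1) * G x ^ ((N + 4) * (N + 3)) /
      f.eval x ^ (2 * (N + 3)) = colE f N x * G x ^ ((N + 4) * (N + 3)) := by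
    unfold colE disc
    ring
  have e3 : (hessp (N + 4) f).eval x * G x ^ 2 / f.eval x ^ 2 = colT f N x * G x ^ 2 := by
    unfold colT
    ring
  rw [e2, e3] at h1
  have e4 : colA f N e x * G x ^ (4 * (N + 4) * (N + 3) * (N + 2) * e) =
      (colE f N x * G x ^ ((N + 4) * (N + 3))) ^ (4 * (N + 2) * e) := by
    unfold colA
    ring
  have e5 : colB f N e x * G x ^ (4 * (N + 4) * (N + 3) * (N + 2) * e) =
      (colE f N x * G x ^ ((N + 4) * (N + 3))) ^ (2 * (N + 4) * e) *
        (colT f N x * G x ^ 2) ^ ((N + 4) * (N + 3) * N * e) := by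
    unfold colB
    ring
  rw [e4, e5]
  have hN0 : (0 : ℤ) ≤ N := by positivity
  have he0 : (0 : ℤ) ≤ e := by positivity
  rcases h1 with ⟨h1, h2⟩ | ⟨h1, h2⟩
  · refine ⟨(h1.pow _).mono (by simp), ((h1.pow _).mul (h2.pow _)).mono (by simp)⟩
  · refine ⟨(h1.pow _).mono ?_, ((h1.pow _).mul (h2.pow _)).mono ?_⟩
    · push_cast
      have : (0 : ℤ) ≤ (4 * (N + 2) * e) * ((N + 4 - 1) * (N + 4 - 4)) := by
        have h3 : (0 : ℤ) ≤ N + 4 - 1 := by linarith
        have h4 : (0 : ℤ) ≤ N + 4 - 4 := by linarith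
        positivity
      exact this
    · push_cast
      have : (0 : ℤ) = (2 * (N + 4) * e) * ((N + 4 - 1) * (N + 4 - 4)) +
        ((N + 4) * (N + 3) * N * e) * -2 := by ring
      exact this.le

theorem hess_coprime {f : K[X]} (hf : f.Separable) [CharZero K] (N : ℕ) :
    IsCoprime f (hessp (N + 4) f) := by
  have h1 : hessp (N + 4) f = C (-(((N + 4 : ℕ) : K) - 1)) * derivative f ^ 2 +
      f * (C ((N + 4 : ℕ) : K) * derivative (derivative f)) := by
    unfold hessp
    rw [C_neg]
    ring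
  rw [h1]
  have h2 : IsUnit (C (-(((N + 4 : ℕ) : K) - 1))) := by
    rw [isUnit_C, isUnit_iff_ne_zero, neg_ne_zero]
    push_cast
    have h3 : ((N + 3 : ℕ) : K) ≠ 0 := by
      rw [Nat.cast_ne_zero]
      omega
    intro h4
    apply h3
    push_cast
    linear_combination h4
  exact ((isCoprime_mul_unit_left_right h2 f (derivative f ^ 2)).2 (hf.pow_right)).add_mul_left_right _

theorem hessp_map {A : Type} [Field A] (φ : A →+* K) (m : ℕ) (f : A[X]) :
    hessp m (f.map φ) = (hessp m f).map φ := by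
  unfold hessp
  rw [Polynomial.map_sub, Polynomial.map_mul, Polynomial.map_mul, Polynomial.map_mul,
    Polynomial.map_pow, Polynomial.map_C, Polynomial.map_C, derivative_map, derivative_map,
    map_sub φ, map_natCast φ, map_one φ]

variable {k : Type} [Field k] [Algebra k K]

/-- the roots of the polynomials with algebraic coefficients -/
theorem root_alg {A : IntermediateField k K} {q : A[X]} (hq : q ≠ 0) {x : K}
    (hx : (q.map (algebraMap A K)).eval x = 0) : IsAlgebraic A x := by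
  refine ⟨q, hq, ?_⟩
  rw [eval_map, ← aeval_def] at hx
  exact hx

theorem lift_of_coeff {A : IntermediateField k K} {f : K[X]} (hf : ∀ i, f.coeff i ∈ A) :
    ∃ f₀ : A[X], f₀.map (algebraMap A K) = f :=
  (mem_lifts _).1 ((lifts_iff_coeff_lifts _).2 fun i => ⟨⟨f.coeff i, hf i⟩, rfl⟩)

theorem disc_map {A : IntermediateField k K} (f : A[X]) :
    disc (f.map (algebraMap A K)) = algebraMap A K (disc f) := by
  unfold disc
  rw [derivative_map, natDegree_map, resultant_map_map]

/-- **The argument of the curve is algebraic over the ratio of the two forms.** -/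
theorem col_alg [CharZero K] {A : IntermediateField k K} {f : K[X]} (hf : ∀ i, f.coeff i ∈ A)
    (hsep : f.Separable) (hn : 0 < f.natDegree) {N e : ℕ} (hN : 0 < N) (he : 0 < e) {x : K}
    (hu : f.eval x ≠ 0) (hρ : colB f N e x / colA f N e x ∈ A) : IsAlgebraic A x := by
  obtain ⟨f₀, hf₀⟩ := lift_of_coeff hf
  obtain ⟨ρ, hρ'⟩ : ∃ ρ : A, (ρ : K) = colB f N e x / colA f N e x := ⟨⟨_, hρ⟩, rfl⟩
  have hE := colE_ne hsep N hu
  have e1 : colT f N x ^ ((N + 4) * (N + 3) * N * e) = ρ * colE f N x ^ (2 * N * e) := by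
    have h1 : colA f N e x ≠ 0 := pow_ne_zero _ hE
    have h2 : colB f N e x = ρ * colA f N e x := by
      rw [hρ', div_mul_cancel₀ _ h1]
    unfold colA colB at h2
    have h3 : colE f N x ^ (2 * (N + 4) * e) * colT f N x ^ ((N + 4) * (N + 3) * N * e) =
        colE f N x ^ (2 * (N + 4) * e) * (ρ * colE f N x ^ (2 * N * e)) := by
      rw [h2]
      ring
    exact mul_left_cancel₀ (pow_ne_zero _ hE) h3
  have e2 : (hessp (N + 4) f).eval x ^ ((N + 4) * (N + 3) * N * e) =
      ρ * disc f ^ (2 * N * e) * f.eval x ^ (2 * (N + 3) * (N + 2) * N * e) := by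
    have h1 : colT f N x * f.eval x ^ 2 = (hessp (N + 4) f).eval x := by
      unfold colT
      rw [div_mul_cancel₀ _ (pow_ne_zero _ hu)]
    have h2 : colE f N x * f.eval x ^ (2 * (N + 3)) = disc f := by
      unfold colE
      rw [div_mul_cancel₀ _ (pow_ne_zero _ hu)]
    rw [← h1, ← h2, mul_pow, e1]
    ring
  obtain ⟨q, hq⟩ : ∃ q : A[X], q = hessp (N + 4) f₀ ^ ((N + 4) * (N + 3) * N * e) -
    C (ρ * disc f₀ ^ (2 * N * e)) * f₀ ^ (2 * (N + 3) * (N + 2) * N * e) := ⟨_, rfl⟩
  have hqm : q.map (algebraMap A K) = hessp (N + 4) f ^ ((N + 4) * (N + 3) * N * e) -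
      C (ρ * disc f ^ (2 * N * e)) * f ^ (2 * (N + 3) * (N + 2) * N * e) := by
    rw [hq, Polynomial.map_sub, Polynomial.map_mul, Polynomial.map_pow, Polynomial.map_pow,
      ← hessp_map, hf₀, map_C, map_mul, map_pow, ← disc_map, hf₀]
    rfl
  refine root_alg (q := q) ?_ ?_
  · intro h0
    rw [h0, Polynomial.map_zero] at hqm
    have h1 : hessp (N + 4) f ^ ((N + 4) * (N + 3) * N * e) =
      C (ρ * disc f ^ (2 * N * e)) * f ^ (2 * (N + 3) * (N + 2) * N * e) :=
      sub_eq_zero.1 hqm.symm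
    have h2 : f ∣ hessp (N + 4) f ^ ((N + 4) * (N + 3) * N * e) := by
      rw [h1]
      exact (dvd_pow_self f (by positivity)).mul_left _
    have h3 := ((hess_coprime hsep N).pow_right
      (n := (N + 4) * (N + 3) * N * e)).isUnit_of_dvd' dvd_rfl h2
    have h4 := natDegree_eq_zero_of_isUnit h3
    omega
  · rw [hqm]
    simp only [eval_sub, eval_mul, eval_pow, eval_C]
    rw [e2, sub_self]

/-- the Hessian does not vanish -/
theorem hess_ne [CharZero K] {U : IntermediateField k K} {f : K[X]}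
    (hf : ∀ i, IsAlgebraic U (f.coeff i)) (hsep : f.Separable) (hn : 0 < f.natDegree) (N : ℕ) {x : K}
    (hx : Transcendental U x) : (hessp (N + 4) f).eval x ≠ 0 := by
  obtain ⟨f₀, hf₀⟩ := lift_of_coeff (A := Acl U) (fun i => mem_acl.2 (hf i))
  intro h0
  refine hx (mem_acl.1 (acl_acl (root_alg (q := hessp (N + 4) f₀) ?_ ?_)))
  · intro h1
    have h2 := hessp_map (algebraMap (Acl U) K) (N + 4) f₀
    rw [h1, hf₀, Polynomial.map_zero] at h2
    have h3 := hess_coprime hsep N
    rw [h2, isCoprime_zero_right] at h3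
    have h4 := natDegree_eq_zero_of_isUnit h3
    omega
  · rw [← hessp_map, hf₀, h0]

/-- the values do not vanish -/
theorem val_ne {U : IntermediateField k K} {f : K[X]} (hf : ∀ i, IsAlgebraic U (f.coeff i))
    (hf0 : f ≠ 0) {x : K} (hx : Transcendental U x) : f.eval x ≠ 0 := by
  obtain ⟨f₀, hf₀⟩ := lift_of_coeff (A := Acl U) (fun i => mem_acl.2 (hf i))
  intro h0
  refine hx (mem_acl.1 (acl_acl (root_alg (q := f₀) ?_ ?_)))
  · rintro rfl
    rw [Polynomial.map_zero] at hf₀
    exact hf0 hf₀.symm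
  · rw [hf₀, h0]

theorem colB_ne [CharZero K] {U : IntermediateField k K} {f : K[X]}
    (hf : ∀ i, IsAlgebraic U (f.coeff i)) (hsep : f.Separable) (hn : 0 < f.natDegree) (N e : ℕ)
    {x : K} (hx : Transcendental U x) : colB f N e x ≠ 0 := by
  have hf0 : f ≠ 0 := by
    rintro rfl
    simp at hn
  have hu := val_ne hf hf0 hx
  refine mul_ne_zero (pow_ne_zero _ (colE_ne hsep N hu)) (pow_ne_zero _ ?_)
  exact div_ne_zero (hess_ne hf hsep hn N hx) (pow_ne_zero _ hu)

end Pool.Agent.X140.EF
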