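import Pool.Agent.X140.EF.Prod

/-!
Multiple double covers of products of lines: the orders of the forms along the fibres.
-/

set_option autoImplicit false
set_option linter.overlappingInstances false

open FF Pool.Agent.W602.GT Pool.Agent.W603.LV Pool.Agent.TH585.SV Pool.Agent.X180.Iso
open Pool.Agent.W602.Cov Pool.Agent.W602.Cov.G
open Pool.Agent.W168.CG.PGR Pool.Agent.TH152.AC Pool.Agent.TH152.HY Pool.Agent.TH766.MC
open Polynomial

namespace Pool.Agent.X140.EF

variable {K : Type} [Field K] [Algebra ℂ K]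

/-- **Determinants with logarithmic columns.** -/
theorem det_log_mix {ι : Type} [Fintype ι] [DecidableEq ι] {P : Place ℂ K}
    {G : ι → Derivation ℂ K K} (hG : ∀ i, DerReg P (G i)) (M : Matrix ι ι K) (b : ι → ℤ)
    (h : ∀ c, (∀ i, Ge P (b c) (M i c)) ∨ ∃ q z : K, z ≠ 0 ∧ Ge P (b c) q ∧
      ∀ i, M i c = q * (G i z / z)) : Ge P (∑ c, b c - 1) M.det := by
  by_cases hall : ∀ c i, Ge P (b c) (M i c)
  · exact (ge_det' P M (∑ c, b c) (fun _ c => b c) (fun i c => hall c i) (fun _ => le_rfl)).mono
      (by linarith)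
  · push Not at hall
    obtain ⟨c0, i0, hc0⟩ := hall
    obtain ⟨π, hπ0, hπ⟩ := P.surj
    rcases h c0 with h1 | ⟨q0, z0, hz0, hb0, hM0⟩
    · exact absurd (h1 i0) hc0
    have hq0 : q0 ≠ 0 := by
      rintro rfl
      apply hc0
      rw [hM0, zero_mul]
      exact Or.inl rfl
    have u0 : P.ord z0 ≠ 0 := by
      intro h0
      apply hc0
      rw [hM0]
      have h1 := hb0.mul (ge_logder_reg (hG i0) hz0 h0)
      rwa [add_zero] at h1
    have hN : ∀ c, ∃ γ : K, (c = c0 → γ = 0) ∧
        ∀ i, Ge P (b c - if c = c0 then 1 else 0) (M i c - γ * M i c0) := by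
      intro c
      by_cases hc : c = c0
      · refine ⟨0, fun _ => rfl, fun i => ?_⟩
        rw [if_pos hc, hc, zero_mul, sub_zero, hM0]
        have h1 : Ge P (-1) (G i z0 / z0) := by
          rcases reg_ord (hG i) hz0 with h2 | h2
          · rw [h2, zero_div]
            exact Or.inl rfl
          · by_cases h3 : G i z0 = 0
            · rw [h3, zero_div]
              exact Or.inl rfl
            · right
              rw [P.ord_div h3 hz0]
              linarith
        exact (hb0.mul h1).mono (by linarith)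
      · rcases h c with h1 | ⟨q, z, hz, hb, hM⟩
        · refine ⟨0, fun _ => rfl, fun i => ?_⟩
          rw [if_neg hc, zero_mul, sub_zero, sub_zero]
          exact h1 i
        · refine ⟨q * algebraMap ℂ K ((P.ord z : ℂ) / (P.ord z0 : ℂ)) / q0, fun h2 => absurd h2 hc,
            fun i => ?_⟩
          rw [if_neg hc, sub_zero]
          obtain ⟨v, hv, hv0, -, e1⟩ := logder_eq P (G i) hπ hz
          obtain ⟨v', hv', hv0', -, e2⟩ := logder_eq P (G i) hπ hz0
          have e3 : M i c - q * algebraMap ℂ K ((P.ord z : ℂ) / (P.ord z0 : ℂ)) / q0 * M i c0 =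
              q * (G i v / v + -(algebraMap ℂ K ((P.ord z : ℂ) / (P.ord z0 : ℂ))) *
                (G i v' / v')) := by
            rw [hM, hM0, e1, e2]
            have h3 : (P.ord z : K) = algebraMap ℂ K ((P.ord z : ℂ) / (P.ord z0 : ℂ)) *
                (P.ord z0 : K) := by
              have h4 : (P.ord z0 : K) = algebraMap ℂ K (P.ord z0 : ℂ) := by rw [map_intCast]
              have h5 : (P.ord z : K) = algebraMap ℂ K (P.ord z : ℂ) := by rw [map_intCast]
              rw [h4, h5, ← map_mul, div_mul_cancel₀ _ (by exact_mod_cast u0)]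
            rw [h3]
            field_simp
            ring
          rw [e3]
          have h5 : Ge P 0 (-(algebraMap ℂ K ((P.ord z : ℂ) / (P.ord z0 : ℂ)))) := by
            rw [← map_neg]
            exact Ge.const (P := P) _
          have h6 := hb.mul (Ge.add (ge_logder_reg (hG i) hv hv0)
            ((h5.mul (ge_logder_reg (hG i) hv' hv0')).mono (by simp)))
          rwa [add_zero] at h6
    choose γ hγ0 hγ using hN
    have hdet : M.det = (Matrix.of fun i c => M i c - γ c * M i c0).det := by
      rw [← Matrix.det_transpose M, ← Matrix.det_transpose (Matrix.of _)]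
      refine Matrix.det_eq_of_forall_row_eq_smul_add_const γ c0 (hγ0 c0 rfl) fun i j => ?_
      simp only [Matrix.transpose_apply, Matrix.of_apply]
      rw [hγ0 c0 rfl]
      ring
    rw [hdet]
    have h1 := ge_det' P (Matrix.of fun i c => M i c - γ c * M i c0)
      (∑ c, (b c - if c = c0 then 1 else 0)) (fun _ c => b c - if c = c0 then 1 else 0)
      (fun i c => hγ c i) (fun _ => le_rfl)
    refine h1.mono ?_
    rw [Finset.sum_sub_distrib, Finset.sum_ite_eq' Finset.univ c0 (fun _ => (1 : ℤ)),
      if_pos (Finset.mem_univ _)]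

/-- the discriminant form at the places with logarithmic derivations -/
theorem disc_log {P : Place ℂ K} {G : Derivation ℂ K K}
    (hlog : ∀ f : K, f ≠ 0 → Ge P (P.ord f) (G f)) {f : K[X]} (hf : ∀ i, G (f.coeff i) = 0)
    (hm : f.Monic) (hn : 0 < f.natDegree) {x : K} (hu : f.eval x ≠ 0) (hGx : G x ≠ 0)
    {N : ℕ} (hN : N + 4 = f.natDegree + f.natDegree % 2) :
    Ge P 0 (colE f N x * G x ^ ((N + 4) * (N + 3))) := by
  obtain ⟨h1, h2⟩ := hyp_log hlog hf hm hn hu hGx
  rcases Nat.mod_two_eq_zero_or_one f.natDegree with h3 | h3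
  · have h4 : f.natDegree = N + 4 := by omega
    rw [h4] at h1
    have e1 : colE f N x * G x ^ ((N + 4) * (N + 3)) =
        resultant f (derivative f) (N + 4) (N + 4 - 1) * G x ^ ((N + 4) * (N + 4 - 1)) /
          f.eval x ^ (2 * (N + 4 - 1)) := by
      have e0 : N + 4 - 1 = N + 3 := rfl
      unfold colE disc
      rw [h4, e0]
      ring
    rw [e1]
    exact h1
  · have h4 : f.natDegree = N + 3 := by omega
    rw [h4] at h1 h2
    have e1 : colE f N x * G x ^ ((N + 4) * (N + 3)) =
        resultant f (derivative f) (N + 3) (N + 3 - 1) * G x ^ ((N + 3) * (N + 3 - 1)) /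
          f.eval x ^ (2 * (N + 3 - 1)) * (G x ^ (N + 3) / f.eval x) ^ 2 := by
      have e0 : N + 3 - 1 = N + 2 := rfl
      unfold colE disc
      rw [h4, e0]
      field_simp
      ring
    rw [e1]
    exact (h1.mul (h2.pow 2)).mono (by simp)

/-- the two forms at the places with logarithmic derivations -/
theorem col_log {P : Place ℂ K} {G : Derivation ℂ K K}
    (hlog : ∀ f : K, f ≠ 0 → Ge P (P.ord f) (G f)) {f : K[X]} (hf : ∀ i, G (f.coeff i) = 0)
    (hm : f.Monic) (hn : 0 < f.natDegree) {x : K} (hu : f.eval x ≠ 0)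
    {N : ℕ} (hN : N + 4 = f.natDegree + f.natDegree % 2) {e : ℕ} (he : 0 < e) :
    Ge P 0 (colA f N e x * G x ^ (4 * (N + 4) * (N + 3) * (N + 2) * e)) ∧
    Ge P 0 (colB f N e x * G x ^ (4 * (N + 4) * (N + 3) * (N + 2) * e)) := by
  by_cases hGx : G x = 0
  · have h0 : G x ^ (4 * (N + 4) * (N + 3) * (N + 2) * e) = 0 := by
      rw [hGx]
      exact zero_pow (by positivity)
    rw [h0, mul_zero, mul_zero]
    exact ⟨Or.inl rfl, Or.inl rfl⟩
  have h1 := disc_log hlog hf hm hn hu hGx hN
  have h2 := hess_log hlog hf hu (N + 4)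
  have e3 : (hessp (N + 4) f).eval x * G x ^ 2 / f.eval x ^ 2 = colT f N x * G x ^ 2 := by
    unfold colT
    ring
  rw [e3] at h2
  have e4 : colA f N e x * G x ^ (4 * (N + 4) * (N + 3) * (N + 2) * e) =
      (colE f N x * G x ^ ((N + 4) * (N + 3))) ^ (4 * (N + 2) * e) := by
    unfold colA
    ring
  have e5 : colB f N e x * G x ^ (4 * (N + 4) * (N + 3) * (N + 2) * e) =
      (colE f N x * G x ^ ((N + 4) * (N + 3))) ^ (2 * (N + 4) * e) *
        (colT f N x * G x ^ 2) ^ ((N + 4) * (N + 3) * N * e) := by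
    unfold colB
    ring
  rw [e4, e5]
  exact ⟨(h1.pow _).mono (by simp), ((h1.pow _).mul (h2.pow _)).mono (by simp)⟩

end Pool.Agent.X140.EF
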