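import Pool.Agent.X140.EF.Cov1

/-!
Multiple double covers of products of lines: the orders of the forms at the horizontal places.
-/

set_option autoImplicit false
set_option linter.overlappingInstances false

open FF Pool.Agent.W602.GT Pool.Agent.W603.LV Pool.Agent.TH585.SV Pool.Agent.X180.Iso
open Pool.Agent.W602.Cov Pool.Agent.W602.Cov.G
open Pool.Agent.W168.CG.PGR Pool.Agent.TH152.AC Pool.Agent.TH152.HY Pool.Agent.TH766.MC
open Polynomial

namespace Pool.Agent.X140.EF

variable {K : Type} [Field K] [Algebra ℂ K]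

theorem ord_colE {P : Place ℂ K} {f : K[X]} {N : ℕ} {x : K} (hR : disc f ≠ 0)
    (hu : f.eval x ≠ 0) :
    P.ord (colE f N x) = P.ord (disc f) - 2 * (N + 3) * P.ord (f.eval x) := by
  unfold colE
  rw [P.ord_div hR (pow_ne_zero _ hu), P.ord_pow]
  push_cast
  ring

theorem ord_colT {P : Place ℂ K} {f : K[X]} {N : ℕ} {x : K} (hh : (hessp (N + 4) f).eval x ≠ 0)
    (hu : f.eval x ≠ 0) :
    P.ord (colT f N x) = P.ord ((hessp (N + 4) f).eval x) - 2 * P.ord (f.eval x) := by
  unfold colT
  rw [P.ord_div hh (pow_ne_zero _ hu), P.ord_pow]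
  push_cast
  ring

/-- The order of the two forms at a place at which the form is a regular column. -/
def ColA (P : Place ℂ K) (U : IntermediateField ℂ K) (f : K[X]) (N e : ℕ) (x : K) : Prop :=
  Even (P.ord (f.eval x)) ∧ ∃ b : ℤ,
    (∀ G : Derivation U K K, (∀ f, P.Reg f → P.Reg (G f)) → Ge P b (G x)) ∧
    0 ≤ P.ord (colA f N e x) + (4 * (N + 4) * (N + 3) * (N + 2) * e : ℕ) * b ∧
    0 ≤ P.ord (colB f N e x) + (4 * (N + 4) * (N + 3) * (N + 2) * e : ℕ) * b

/-- The order of the two forms at a place at which the form is a logarithmic column. -/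
def ColB (P : Place ℂ K) (U : IntermediateField ℂ K) (f : K[X]) (N e : ℕ) (x : K) : Prop :=
  ∃ q z : K, q ≠ 0 ∧ z ≠ 0 ∧ (∀ G : Derivation U K K, G x = q * (G z / z)) ∧
    ∃ k : ℤ, 1 ≤ k ∧ (Even (P.ord (f.eval x)) → Even k) ∧
    (4 * (N + 4) * (N + 3) * (N + 2) * e : ℕ) * k ≤
      2 * (P.ord (colA f N e x) + (4 * (N + 4) * (N + 3) * (N + 2) * e : ℕ) * P.ord q) ∧
    (4 * (N + 4) * (N + 3) * (N + 2) * e : ℕ) * k ≤
      2 * (P.ord (colB f N e x) + (4 * (N + 4) * (N + 3) * (N + 2) * e : ℕ) * P.ord q)

/-- **The orders at the horizontal places.** -/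
theorem hor_col {P : Place ℂ K} {U : IntermediateField ℂ K}
    (hU : ∀ a : K, IsAlgebraic U a → P.ord a = 0) {f : K[X]} (hf : ∀ i, IsAlgebraic U (f.coeff i))
    (hm : f.Monic) (hn : 3 ≤ f.natDegree) (hsep : f.Separable) {x : K} (hx : Transcendental U x)
    {N : ℕ} (hN : N + 4 = f.natDegree + f.natDegree % 2) (e : ℕ) :
    ColA P U f N e x ∨ ColB P U f N e x := by
  have : CharZero K := charZero_of_injective_algebraMap (algebraMap ℂ K).injective
  have hf0 : f ≠ 0 := hm.ne_zero
  have hu : f.eval x ≠ 0 := val_ne hf hf0 hx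
  have hh : (hessp (N + 4) f).eval x ≠ 0 := hess_ne hf hsep (by omega) N hx
  have hR : disc f ≠ 0 := disc_ne hsep
  have hE := colE_ne hsep N hu
  have hT : colT f N x ≠ 0 := div_ne_zero hh (pow_ne_zero _ hu)
  have hx0 : x ≠ 0 := by
    rintro rfl
    exact hx isAlgebraic_zero
  have oR : P.ord (disc f) = 0 := by
    obtain ⟨f₀, hf₀⟩ := lift_of_coeff (A := Acl U) (fun i => mem_acl.2 (hf i))
    refine hU _ ?_
    rw [← hf₀, disc_map]
    exact mem_acl.1 (Subtype.coe_prop (disc f₀))
  obtain ⟨O, hO⟩ : ∃ O, O = P.ord (f.eval x) := ⟨_, rfl⟩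
  obtain ⟨H, hH⟩ : ∃ H, H = P.ord ((hessp (N + 4) f).eval x) := ⟨_, rfl⟩
  have oE : P.ord (colE f N x) = - 2 * (N + 3) * O := by
    rw [ord_colE hR hu, oR, hO]
    ring
  have oT : P.ord (colT f N x) = H - 2 * O := by
    rw [ord_colT hh hu, hO, hH]
  have oA : P.ord (colA f N e x) = -(8 * (N + 2) * (N + 3) * e) * O := by
    unfold colA
    rw [P.ord_pow, oE]
    push_cast
    ring
  have oB : P.ord (colB f N e x) = ((N + 4) * (N + 3) * e) * (N * H - 2 * (N + 2) * O) := by
    unfold colB
    rw [P.ord_mul (pow_ne_zero _ hE) (pow_ne_zero _ hT), P.ord_pow, P.ord_pow, oE, oT]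
    push_cast
    ring
  unfold ColA ColB
  rw [oA, oB, ← hO]
  have hN0 : (0 : ℤ) ≤ N := by positivity
  have he0 : (0 : ℤ) ≤ e := by positivity
  have hcv : ∀ a : K, IsAlgebraic U a → Ge P 0 a := fun a ha => Or.inr (hU a ha).ge
  have hfi : ∀ i, Ge P 0 (f.coeff i) := fun i => hcv _ (hf i)
  have hn' : (N : ℤ) + 4 = f.natDegree + f.natDegree % 2 := by exact_mod_cast hN
  rcases lt_or_ge (P.ord x) 0 with hx1 | hx1
  · -- a pole
    obtain ⟨a, ha⟩ : ∃ a : ℤ, P.ord x = -a := ⟨-P.ord x, by ring⟩
    have ha1 : 1 ≤ a := by omega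
    have hfn : O = f.natDegree * P.ord x := by
      have h1 : f.eval x = (∑ i ∈ Finset.range f.natDegree, f.coeff i * x ^ i) +
          x ^ f.natDegree := by
        rw [eval_eq_sum_range, Finset.sum_range_succ]
        congr 1
        rw [coeff_natDegree, hm.leadingCoeff, one_mul]
      have h2 : Ge P ((f.natDegree - 1 : ℤ) * P.ord x)
          (∑ i ∈ Finset.range f.natDegree, f.coeff i * x ^ i) := by
        refine Ge.sum _ _ fun i hi => ?_
        have h3 := (hfi i).mul ((Pool.Agent.W602.GT.ge_ord P x).pow i)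
        refine h3.mono ?_
        have h4 : (i : ℤ) ≤ f.natDegree - 1 := by
          have := Finset.mem_range.1 hi
          omega
        nlinarith
      rw [hO, h1]
      rcases h2 with h2 | h2
      · rw [h2, zero_add, P.ord_pow]
      · by_cases h3 : ∑ i ∈ Finset.range f.natDegree, f.coeff i * x ^ i = 0
        · rw [h3, zero_add, P.ord_pow]
        · rw [add_comm, (P.ord_add_eq (pow_ne_zero _ hx0) h3 (by
            rw [P.ord_pow]
            nlinarith)).2, P.ord_pow]
    rcases Nat.mod_two_eq_zero_or_one f.natDegree with h2 | h2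
    · left
      have h3 : f.natDegree = N + 4 := by omega
      rw [h3, ha] at hfn
      push_cast at hfn
      have h4 : Ge P ((2 * N + 4 : ℤ) * P.ord x) ((hessp (N + 4) f).eval x) :=
        hess_pole_even hx1.le hfi hm h3
      have h5 : (2 * N + 4 : ℤ) * -a ≤ H := by
        rcases h4 with h4 | h4
        · exact absurd h4 hh
        · rw [ha] at h4
          rw [hH]
          exact h4
      refine ⟨?_, -2 * a, fun G hG => ?_, ?_, ?_⟩
      · rw [hfn]
        have h6 : Even ((N : ℤ) + 4) := by
          rw [Int.even_iff]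
          omega
        exact h6.mul_right _
      · have e1 : G x = -(x ^ 2) * G x⁻¹ := by
          rw [Derivation.leibniz_inv, smul_eq_mul]
          field_simp
        rw [e1]
        have h6 : Ge P 0 (G x⁻¹) := hG _ (Or.inr (by rw [P.ord_inv]; omega))
        have h7 : Ge P (-2 * a) (-(x ^ 2)) := by
          have h8 := ((Pool.Agent.W602.GT.ge_ord P x).pow 2).neg
          refine h8.mono ?_
          rw [ha]
          push_cast
          linarith
        exact (h7.mul h6).mono (by linarith)
      · rw [hfn]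
        push_cast
        have h8 : -(8 * ((N : ℤ) + 2) * (N + 3) * e) * ((N + 4) * -a) +
            4 * (N + 4) * (N + 3) * (N + 2) * e * (-2 * a) = 0 := by ring
        linarith
      · rw [hfn]
        push_cast
        have h9 := mul_nonneg (mul_nonneg (mul_nonneg (mul_nonneg (by linarith : (0 : ℤ) ≤ N + 4)
          (by linarith : (0 : ℤ) ≤ N + 3)) he0) hN0) (by linarith : 0 ≤ H - (2 * N + 4 : ℤ) * -a)
        have h10 : ((N : ℤ) + 4) * (N + 3) * e * N * (H - (2 * N + 4 : ℤ) * -a) =
          ((N + 4) * (N + 3) * e) * (N * H - 2 * (N + 2) * ((N + 4) * -a)) +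
            4 * (N + 4) * (N + 3) * (N + 2) * e * (-2 * a) := by ring
        linarith
    · right
      have h3 : f.natDegree = N + 3 := by omega
      rw [h3, ha] at hfn
      push_cast at hfn
      have h4 : Ge P ((2 * (N + 1 : ℕ) + 2 : ℤ) * P.ord x) ((hessp (N + 4) f).eval x) :=
        hess_pole_odd hx1.le hfi (m := N + 4) (n := N + 1) (by omega)
      have h5 : (2 * N + 4 : ℤ) * -a ≤ H := by
        rcases h4 with h4 | h4
        · exact absurd h4 hh
        · rw [ha] at h4
          rw [hH]
          push_cast at h4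
          linarith
      refine ⟨x, x, hx0, hx0, fun G => by field_simp, a, ha1, fun h6 => ?_, ?_, ?_⟩
      · rw [hfn, Int.even_mul] at h6
        rcases h6 with h6 | h6
        · rw [Int.even_iff] at h6
          omega
        · rwa [even_neg] at h6
      · rw [hfn, ha]
        push_cast
        have h9 := mul_nonneg (mul_nonneg (mul_nonneg (mul_nonneg (mul_nonneg
          (by linarith : (0 : ℤ) ≤ N + 2) (by linarith : (0 : ℤ) ≤ N + 3)) he0) hN0)
          (by linarith : (0 : ℤ) ≤ a)) (by norm_num : (0 : ℤ) ≤ 4)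
        have h10 : ((N : ℤ) + 2) * (N + 3) * e * N * a * 4 =
          2 * (-(8 * (N + 2) * (N + 3) * e) * ((N + 3) * -a) +
            4 * (N + 4) * (N + 3) * (N + 2) * e * -a) - 4 * (N + 4) * (N + 3) * (N + 2) * e * a := by
          ring
        linarith
      · rw [hfn, ha]
        push_cast
        have h9 := mul_nonneg (mul_nonneg (mul_nonneg (mul_nonneg (by linarith : (0 : ℤ) ≤ N + 4)
          (by linarith : (0 : ℤ) ≤ N + 3)) he0) hN0) (by linarith : 0 ≤ H - (2 * N + 4 : ℤ) * -a)
        have h10 : 2 * (((N : ℤ) + 4) * (N + 3) * e * N * (H - (2 * N + 4 : ℤ) * -a)) =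
          2 * ((N + 4) * (N + 3) * e * (N * H - 2 * (N + 2) * ((N + 3) * -a)) +
            4 * (N + 4) * (N + 3) * (N + 2) * e * -a) - 4 * (N + 4) * (N + 3) * (N + 2) * e * a := by
          ring
        linarith
  · -- the regular places
    have gfx : ∀ r : K[X], (∀ i, Ge P 0 (r.coeff i)) → Ge P 0 (r.eval x) := by
      intro r hr
      rw [eval_eq_sum_range]
      refine Ge.sum _ _ fun i _ => ?_
      have h1 := (hr i).mul ((Pool.Agent.W602.GT.ge_ord P x).pow i)
      refine h1.mono ?_
      have : (0 : ℤ) ≤ i * P.ord x := mul_nonneg (by positivity) hx1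
      linarith
    obtain ⟨f₀, hf₀⟩ := lift_of_coeff (A := Acl U) (fun i => mem_acl.2 (hf i))
    have hAcl : ∀ z : Acl U, P.ord ((z : Acl U) : K) = 0 := fun z => hU _ (mem_acl.1 z.2)
    have hlift : ∀ r : (Acl U)[X], ∀ i, Ge P 0 ((r.map (algebraMap (Acl U) K)).coeff i) := by
      intro r i
      rw [coeff_map]
      exact Or.inr (hAcl (r.coeff i)).ge
    have hO0 : 0 ≤ O := by
      rcases gfx f hfi with h1 | h1
      · exact absurd h1 hu
      · rw [hO]
        exact h1
    have hH0 : 0 ≤ H := by
      have h1 := gfx (hessp (N + 4) f) (fun i => by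
        rw [← hf₀, hessp_map]
        exact hlift _ i)
      rcases h1 with h1 | h1
      · exact absurd h1 hh
      · rw [hH]
        exact h1
    rcases le_or_gt O 0 with hO1 | hO1
    · left
      have hO2 : O = 0 := le_antisymm hO1 hO0
      rw [hO2]
      refine ⟨by simp, 0, fun G hG => hG x (Or.inr hx1), ?_, ?_⟩
      · simp
      · have h1 : (0 : ℤ) ≤ (N + 4) * (N + 3) * e * (N * H) := by positivity
        simpa using h1
    · right
      -- the derivative is a unit
      have hf' : P.ord ((derivative f).eval x) = 0 ∧ (derivative f).eval x ≠ 0 := by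
        have hsep₀ : f₀.Separable := by
          rw [← hf₀] at hsep
          exact (separable_map _).1 hsep
        obtain ⟨p, q, hpq⟩ := hsep₀
        have h1 := congrArg (fun r => (r.map (algebraMap (Acl U) K)).eval x) hpq
        simp only [Polynomial.map_add, Polynomial.map_mul, ← derivative_map, hf₀, Polynomial.map_one,
          eval_add, eval_mul, eval_one] at h1
        have h2 : Ge P 1 ((p.map (algebraMap (Acl U) K)).eval x * f.eval x) := by
          have h3 := (gfx _ (hlift p)).mul (Pool.Agent.W602.GT.ge_ord P (f.eval x))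
          rw [← hO] at h3
          exact h3.mono (by linarith)
        have h4 : Ge P 0 ((derivative f).eval x) := by
          refine gfx _ fun i => ?_
          rw [← hf₀, derivative_map]
          exact hlift _ i
        have h5 : (derivative f).eval x ≠ 0 := by
          intro h0
          rw [h0, mul_zero, add_zero] at h1
          rw [h1] at h2
          rcases h2 with h2 | h2
          · exact one_ne_zero h2
          · rw [P.ord_one] at h2
            omega
        refine ⟨?_, h5⟩
        rcases h4 with h4 | h4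
        · exact absurd h4 h5
        by_contra hne
        have h6 : Ge P 1 ((q.map (algebraMap (Acl U) K)).eval x * (derivative f).eval x) := by
          have h3 := (gfx _ (hlift q)).mul (Pool.Agent.W602.GT.ge_ord P ((derivative f).eval x))
          exact h3.mono (by omega)
        have h7 := Ge.add h2 h6
        rw [h1] at h7
        rcases h7 with h7 | h7
        · exact one_ne_zero h7
        · rw [P.ord_one] at h7
          omega
      refine ⟨f.eval x / (derivative f).eval x, f.eval x, div_ne_zero hu hf'.2, hu, fun G => ?_,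
        O, by omega, id, ?_, ?_⟩
      · have h1 : (G.restrictScalars ℂ) (f.eval x) = (derivative f).eval x *
            (G.restrictScalars ℂ) x := der_eval (fun i => der_alg G (hf i)) x
        have h2 : G (f.eval x) = (derivative f).eval x * G x := h1
        rw [h2]
        have := hf'.2
        field_simp
      · rw [P.ord_div hu hf'.2, hf'.1, ← hO, sub_zero]
        push_cast
        have h9 := mul_nonneg (mul_nonneg (mul_nonneg (mul_nonneg (mul_nonneg
          (by linarith : (0 : ℤ) ≤ N + 2) (by linarith : (0 : ℤ) ≤ N + 3)) he0) hN0)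
          hO0) (by norm_num : (0 : ℤ) ≤ 4)
        have h10 : ((N : ℤ) + 2) * (N + 3) * e * N * O * 4 =
          2 * (-(8 * (N + 2) * (N + 3) * e) * O +
            4 * (N + 4) * (N + 3) * (N + 2) * e * O) - 4 * (N + 4) * (N + 3) * (N + 2) * e * O := by
          ring
        linarith
      · rw [P.ord_div hu hf'.2, hf'.1, ← hO, sub_zero]
        push_cast
        have h9 := mul_nonneg (mul_nonneg (mul_nonneg (mul_nonneg (by linarith : (0 : ℤ) ≤ N + 4)
          (by linarith : (0 : ℤ) ≤ N + 3)) he0) hN0) hH0
        have h10 : 2 * (((N : ℤ) + 4) * (N + 3) * e * N * H) =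
          2 * ((N + 4) * (N + 3) * e * (N * H - 2 * (N + 2) * O) +
            4 * (N + 4) * (N + 3) * (N + 2) * e * O) - 4 * (N + 4) * (N + 3) * (N + 2) * e * O := by
          ring
        linarith

end Pool.Agent.X140.EF
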