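import Pool.Agent.X140.EF.Cov2

/-!
Forms along the fibres of a variety whose fibres, after a base change, dominate the product of a
variety over the constants and a multiple double cover of a product of lines.
-/

set_option autoImplicit false
set_option linter.overlappingInstances false

open FF Pool.Agent.W602.GT Pool.Agent.W603.LV Pool.Agent.W619.PQ Pool.Agent.W619.Y
open Pool.Agent.TH585.SV Pool.Agent.Y172 Pool.Agent.Y191 Pool.Agent.X180.Iso
open Polynomial (derivative C X eval resultant)

namespace Pool.Agent.X140.EF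

section loc

variable {K : Type} [Field K] [Algebra ℂ K] {r s : ℕ}

/-- **The product of forms of one variable and a form of a subfield.** -/
theorem fib_of_cov {N m : ℕ} (hN : Algebra.trdeg ℂ K = N)
    (U M : IntermediateField ℂ K) [Algebra.EssFiniteType ℂ M] (hM : Algebra.trdeg ℂ M = s)
    {η : (Fin s → Derivation ℂ M M) → M} (hη : IsPluriForm ℂ M s m η)
    (hreg : ∀ u : Place ℂ M, IsDivisorial u s → RegularAt u s η)
    {y : Fin s → M} {E : Fin s → Derivation ℂ M M} (hy : IsTranscendenceBasis ℂ y)
    (hE : ∀ i j, E i (y j) = if i = j then 1 else 0)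
    {T x : Fin r → K}
    (hT : ∀ P : Place ℂ K, ∃ b : Fin r → ℤ,
      (∀ j, (∀ G : Derivation U K K, (∀ f, P.Reg f → P.Reg (G f)) → Ge P (b j) (G (x j))) ∨
        ∃ q z : K, z ≠ 0 ∧ Ge P (b j) q ∧ ∀ G : Derivation U K K, G (x j) = q * (G z / z)) ∧
      (((∀ j, ∀ G : Derivation U K K, (∀ f, P.Reg f → P.Reg (G f)) → Ge P (b j) (G (x j))) ∧
        0 ≤ ∑ j, (P.ord (T j) + m * b j)) ∨ (m : ℤ) ≤ ∑ j, (P.ord (T j) + m * b j)))
    (X : Set (Place ℂ K)) :
    FibSec N m X (fun _ => 0) U (fun G => (∏ j, T j) *
      (mixm x (fun _ => 1) (fun l => ((y l : M) : K)) G).det ^ m * ((η E : M) : K)) := by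
  classical
  refine ⟨fun A' D => ?_, fun P _ hP G hG => ?_⟩
  · change _ * (mixm x _ (fun l => ((y l : M) : K)) (fun i => ∑ l, A' i l • D l)).det ^ m *
      _ = _
    rw [mixm_mul, Matrix.det_mul, mul_pow]
    ring
  · obtain ⟨Z, z, hz, hZ, hge⟩ := pYLOC ℂ K M s N m hM hN (fun y hy => fin_over y hy) η hη
      hreg y E hy hE P hP
    -- the change of the columns
    obtain ⟨W, hW⟩ : ∃ W : Matrix (Fin (r + s)) (Fin (r + s)) K,
        W = Matrix.reindex finSumFinEquiv finSumFinEquiv (Matrix.fromBlocks 1 0 0 Z.transpose) :=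
      ⟨_, rfl⟩
    have hWdet : W.det = Z.det := by
      rw [hW, Matrix.det_reindex_self, Matrix.det_fromBlocks_zero₂₁, Matrix.det_one, one_mul,
        Matrix.det_transpose]
    have e1 : mixm x (fun _ => 1) (fun l => ((y l : M) : K)) G = mixm x (fun _ => 1) z G * W := by
      ext i c
      rw [Matrix.mul_apply, Fin.sum_univ_add]
      refine Fin.addCases (fun j => ?_) (fun l => ?_) c
      · have h1 : ∀ a : Fin r, W (Fin.castAdd s a) (Fin.castAdd s j) = if a = j then 1 else 0 := by
          intro a
          rw [hW, Matrix.reindex_apply, Matrix.submatrix_apply, finSumFinEquiv_symm_apply_castAdd,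
            finSumFinEquiv_symm_apply_castAdd, Matrix.fromBlocks_apply₁₁, Matrix.one_apply]
        have h2 : ∀ b : Fin s, W (Fin.natAdd r b) (Fin.castAdd s j) = 0 := by
          intro b
          rw [hW, Matrix.reindex_apply, Matrix.submatrix_apply, finSumFinEquiv_symm_apply_castAdd,
            finSumFinEquiv_symm_apply_natAdd, Matrix.fromBlocks_apply₂₁, Matrix.zero_apply]
        simp only [h1, h2, mul_zero, Finset.sum_const_zero, add_zero, mul_ite, mul_one,
          Finset.sum_ite_eq', Finset.mem_univ, if_true]
        unfold mixm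
        simp only [Matrix.of_apply, Fin.append_left]
      · have h1 : ∀ a : Fin r, W (Fin.castAdd s a) (Fin.natAdd r l) = 0 := by
          intro a
          rw [hW, Matrix.reindex_apply, Matrix.submatrix_apply, finSumFinEquiv_symm_apply_castAdd,
            finSumFinEquiv_symm_apply_natAdd, Matrix.fromBlocks_apply₁₂, Matrix.zero_apply]
        have h2 : ∀ b : Fin s, W (Fin.natAdd r b) (Fin.natAdd r l) = Z l b := by
          intro b
          rw [hW, Matrix.reindex_apply, Matrix.submatrix_apply, finSumFinEquiv_symm_apply_natAdd,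
            finSumFinEquiv_symm_apply_natAdd, Matrix.fromBlocks_apply₂₂, Matrix.transpose_apply]
        simp only [h1, h2, mul_zero, Finset.sum_const_zero, zero_add]
        unfold mixm
        simp only [Matrix.of_apply, Fin.append_right]
        have h3 := hZ ((G i).restrictScalars ℂ) l
        refine h3.trans (Finset.sum_congr rfl fun c _ => ?_)
        rw [mul_comm]
        rfl
    -- the orders of the columns
    obtain ⟨b, hb, hsum⟩ := hT P
    have hdet : ∃ ε : ℤ, Ge P (∑ j, b j - ε) (mixm x (fun _ => 1) z G).det ∧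
        m * ε ≤ ∑ j, (P.ord (T j) + m * b j) := by
      rcases hsum with ⟨h1, h2⟩ | h2
      · refine ⟨0, ?_, by simpa using h2⟩
        rw [sub_zero]
        refine ge_det' P (mixm x (fun _ => 1) z G) (∑ j, b j)
          (fun _ c => Fin.append b (fun _ : Fin s => (0 : ℤ)) c) (fun i c => by
          unfold mixm
          refine Fin.addCases (fun j => ?_) (fun l => ?_) c
          · simp only [Matrix.of_apply, Fin.append_left]
            rw [div_one]
            exact h1 j (G i) (hG i)
          · simp only [Matrix.of_apply, Fin.append_right]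
            exact hG i _ (hz l))
          (fun σ => by
          rw [Fin.sum_univ_add]
          simp only [Fin.append_left, Fin.append_right, Finset.sum_const_zero, add_zero]
          exact le_rfl)
      · refine ⟨1, ?_, by simpa using h2⟩
        have h3 := det_log_mix (P := P) (G := fun i => (G i).restrictScalars ℂ)
          (fun i f hf => hG i f hf) (mixm x (fun _ => 1) z G)
          (Fin.append b (fun _ : Fin s => (0 : ℤ))) (fun c => by
            unfold mixm
            refine Fin.addCases (fun j => ?_) (fun l => ?_) c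
            · simp only [Matrix.of_apply, Fin.append_left]
              rcases hb j with h4 | ⟨q, w, hw, hq, h4⟩
              · left
                intro i
                rw [div_one]
                exact h4 (G i) (hG i)
              · right
                refine ⟨q, w, hw, hq, fun i => ?_⟩
                rw [div_one]
                exact h4 (G i)
            · simp only [Matrix.of_apply, Fin.append_right]
              left
              intro i
              exact hG i _ (hz l))
        rw [Fin.sum_univ_add] at h3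
        simp only [Fin.append_left, Fin.append_right, Finset.sum_const_zero, add_zero] at h3
        exact h3
    obtain ⟨ε, h2, hε⟩ := hdet
    have h3 := Ge.prod (P := P) Finset.univ (fun j => T j)
      (fun j => P.ord (T j)) (fun j _ => Pool.Agent.W602.GT.ge_ord P _)
    have h4 := (h3.mul (h2.pow m)).mul hge
    have e2 : (∏ j, T j) * (mixm x (fun _ => 1) z G).det ^ m *
        (((η E : M) : K) * Z.det ^ m) = (∏ j, T j) *
          (mixm x (fun _ => 1) (fun l => ((y l : M) : K)) G).det ^ m * ((η E : M) : K) := by
      rw [e1, Matrix.det_mul, hWdet]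
      ring
    rw [e2] at h4
    have h5 : Ge P 0 ((∏ j, T j) *
          (mixm x (fun _ => 1) (fun l => ((y l : M) : K)) G).det ^ m * ((η E : M) : K)) := by
      refine h4.mono ?_
      rw [Finset.sum_add_distrib, ← Finset.mul_sum] at hε
      rw [mul_sub, add_zero]
      linarith
    rcases h5 with h5 | h5
    · exact Or.inl h5
    · right
      have h6 : (0 : ℝ) ≤ (P.ord ((∏ j, T j) *
          (mixm x (fun _ => 1) (fun l => ((y l : M) : K)) G).det ^ m * ((η E : M) : K)) : ℝ) := by
        exact_mod_cast h5
      simpa using h6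

end loc

section data

variable {K : Type} [Field K] [Algebra ℂ K] {r : ℕ}

/-- Polynomials over the relative algebraic closure of `U` and a multiple double cover: every argument
occurs in the equation of a square root of a product of values. -/
def CoverData (U : IntermediateField ℂ K) (f : Fin r → Polynomial K) (x : Fin r → K) : Prop :=
  (∀ j, (∀ i, IsAlgebraic U ((f j).coeff i)) ∧ (f j).Monic ∧ (f j).Separable ∧
    3 ≤ (f j).natDegree) ∧
  ∀ j, ∃ S : Finset (Fin r), j ∈ S ∧ ∃ c w : K, IsAlgebraic U c ∧ c ≠ 0 ∧
    w ^ 2 = c * ∏ i ∈ S, (f i).eval (x i)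

/-- **The orders of the product of the columns.** -/
theorem cover_ord {U : IntermediateField ℂ K} {f : Fin r → Polynomial K} {x : Fin r → K}
    (hdat : CoverData U f x) (hxt : ∀ j, Transcendental U (x j)) {ν e : Fin r → ℕ}
    (hν : ∀ j, ν j + 4 = (f j).natDegree + (f j).natDegree % 2) (he : ∀ j, 0 < e j) {m : ℕ}
    (hm : 0 < m) (hae : ∀ j, 4 * (ν j + 4) * (ν j + 3) * (ν j + 2) * e j = m) {T : Fin r → K}
    (hT : ∀ j, T j = colA (f j) (ν j) (e j) (x j) ∨ T j = colB (f j) (ν j) (e j) (x j))
    (P : Place ℂ K) : ∃ b : Fin r → ℤ,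
      (∀ j, (∀ G : Derivation U K K, (∀ f, P.Reg f → P.Reg (G f)) → Ge P (b j) (G (x j))) ∨
        ∃ q z : K, z ≠ 0 ∧ Ge P (b j) q ∧ ∀ G : Derivation U K K, G (x j) = q * (G z / z)) ∧
      (((∀ j, ∀ G : Derivation U K K, (∀ f, P.Reg f → P.Reg (G f)) → Ge P (b j) (G (x j))) ∧
        0 ≤ ∑ j, (P.ord (T j) + m * b j)) ∨ (m : ℤ) ≤ ∑ j, (P.ord (T j) + m * b j)) := by
  classical
  have hcK : CharZero K := charZero_of_injective_algebraMap (algebraMap ℂ K).injective
  have hm' : (0 : ℤ) < m := by exact_mod_cast hm
  have hu : ∀ j, (f j).eval (x j) ≠ 0 := fun j =>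
    val_ne (hdat.1 j).1 (hdat.1 j).2.1.ne_zero (hxt j)
  by_cases hcst : ∃ a : K, IsAlgebraic U a ∧ P.ord a ≠ 0
  · -- the vertical places
    obtain ⟨a, ha, ha0⟩ := hcst
    have hT0 : ∀ j, T j ≠ 0 := by
      intro j
      rcases hT j with h | h
      · rw [h]
        exact pow_ne_zero _ (colE_ne (hdat.1 j).2.2.1 _ (hu j))
      · rw [h]
        exact colB_ne (hdat.1 j).1 (hdat.1 j).2.2.1 (by have := (hdat.1 j).2.2.2; omega) _ _
          (hxt j)
    have hA : ∀ j, ∀ G : Derivation U K K, (∀ f, P.Reg f → P.Reg (G f)) →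
        Ge P (-(P.ord (T j) / m)) (G (x j)) := by
      intro j G hG
      have hlog : ∀ f : K, f ≠ 0 → Ge P (P.ord f) ((G.restrictScalars ℂ) f) := by
        intro f hf
        have h1 := (Pool.Agent.W602.GT.ge_ord P f).mul
          (log_of_const (G := G.restrictScalars ℂ) (fun f hf => hG f hf) (der_alg G ha) ha0 hf)
        rwa [mul_div_cancel₀ _ hf, add_zero] at h1
      have h1 := col_log hlog (fun i => der_alg G ((hdat.1 j).1 i)) (hdat.1 j).2.1
        (by have := (hdat.1 j).2.2.2; omega) (hu j) (hν j) (he j)
      rw [hae] at h1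
      have h2 : Ge P 0 (T j * G (x j) ^ m) := by
        rcases hT j with h | h
        · rw [h]
          exact h1.1
        · rw [h]
          exact h1.2
      by_cases h0 : G (x j) = 0
      · exact Or.inl h0
      · rcases h2 with h2 | h2
        · exact absurd h2 (mul_ne_zero (hT0 j) (pow_ne_zero _ h0))
        · right
          rw [P.ord_mul (hT0 j) (pow_ne_zero _ h0), P.ord_pow] at h2
          have h4 : -(P.ord (G (x j))) ≤ P.ord (T j) / m := by
            rw [Int.le_ediv_iff_mul_le hm']
            nlinarith
          linarith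
    refine ⟨fun j => -(P.ord (T j) / m), fun j => Or.inl (hA j), Or.inl ⟨hA, ?_⟩⟩
    refine Finset.sum_nonneg fun j _ => ?_
    have h6 : (P.ord (T j) / m) * m ≤ P.ord (T j) := Int.ediv_mul_le _ hm'.ne'
    linarith
  · -- the horizontal places
    push Not at hcst
    have hcol := fun j => hor_col hcst (hdat.1 j).1 (hdat.1 j).2.1 (hdat.1 j).2.2.2
      (hdat.1 j).2.2.1 (hxt j) (hν j) (e j)
    have hb : ∀ j, ∃ b : ℤ, (ColA P U (f j) (ν j) (e j) (x j) →
          Even (P.ord ((f j).eval (x j))) ∧
          (∀ G : Derivation U K K, (∀ f, P.Reg f → P.Reg (G f)) → Ge P b (G (x j))) ∧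
          0 ≤ P.ord (T j) + m * b) ∧
        (¬ ColA P U (f j) (ν j) (e j) (x j) →
          (∃ q z : K, z ≠ 0 ∧ Ge P b q ∧ ∀ G : Derivation U K K, G (x j) = q * (G z / z)) ∧
          ∃ k : ℤ, 1 ≤ k ∧ (Even (P.ord ((f j).eval (x j))) → Even k) ∧
            m * k ≤ 2 * (P.ord (T j) + m * b)) := by
      intro j
      by_cases h : ColA P U (f j) (ν j) (e j) (x j)
      · obtain ⟨h1, b, h2, h3, h4⟩ := h
        rw [hae] at h3 h4
        refine ⟨b, fun _ => ⟨h1, h2, ?_⟩, fun h5 => absurd ?_ h5⟩
        · rcases hT j with h | h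
          · rw [h]
            exact h3
          · rw [h]
            exact h4
        · refine ⟨h1, b, h2, ?_, ?_⟩
          · rw [hae]
            exact h3
          · rw [hae]
            exact h4
      · rcases hcol j with h1 | ⟨q, z, hq, hz, h1, k, h2, h3, h4, h5⟩
        · exact absurd h1 h
        rw [hae] at h4 h5
        refine ⟨P.ord q, fun h5 => absurd h5 h, fun _ => ⟨⟨q, z, hz, Or.inr le_rfl, h1⟩, k, h2, h3,
          ?_⟩⟩
        rcases hT j with h | h
        · rw [h]
          exact h4
        · rw [h]
          exact h5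
    choose b hbA hbB using hb
    have hnn : ∀ j, 0 ≤ P.ord (T j) + m * b j := by
      intro j
      by_cases h : ColA P U (f j) (ν j) (e j) (x j)
      · exact (hbA j h).2.2
      · obtain ⟨-, k, h1, -, h2⟩ := hbB j h
        have := mul_nonneg hm'.le (by linarith : 0 ≤ k)
        linarith
    refine ⟨b, fun j => ?_, ?_⟩
    · by_cases h : ColA P U (f j) (ν j) (e j) (x j)
      · exact Or.inl (hbA j h).2.1
      · exact Or.inr (hbB j h).1
    by_cases hall : ∀ j, ColA P U (f j) (ν j) (e j) (x j)
    · exact Or.inl ⟨fun j => (hbA j (hall j)).2.1, Finset.sum_nonneg fun j _ => hnn j⟩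
    right
    push Not at hall
    obtain ⟨j0, hj0⟩ := hall
    obtain ⟨-, k0, h1, h2, h3⟩ := hbB j0 hj0
    by_cases hex : ∃ j1, j1 ≠ j0 ∧ ¬ ColA P U (f j1) (ν j1) (e j1) (x j1)
    · obtain ⟨j1, hne, hj1⟩ := hex
      obtain ⟨-, k1, h4, -, h5⟩ := hbB j1 hj1
      have h6 : ∑ j ∈ {j0, j1}, (P.ord (T j) + m * b j) ≤ ∑ j, (P.ord (T j) + m * b j) :=
        Finset.sum_le_sum_of_subset_of_nonneg (Finset.subset_univ _) fun j _ _ => hnn j
      rw [Finset.sum_pair (Ne.symm hne)] at h6
      have h7 := mul_le_mul_of_nonneg_left h1 hm'.le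
      have h8 := mul_le_mul_of_nonneg_left h4 hm'.le
      linarith
    · push Not at hex
      have hev : Even (P.ord ((f j0).eval (x j0))) := by
        obtain ⟨S, hS, c, w, hc, hc0, hw⟩ := hdat.2 j0
        have hp0 : ∏ i ∈ S, (f i).eval (x i) ≠ 0 := Finset.prod_ne_zero_iff.2 fun i _ => hu i
        have h4 := congrArg P.ord hw
        rw [P.ord_pow, P.ord_mul hc0 hp0, hcst c hc, zero_add,
          ← Finset.mul_prod_erase S _ hS,
          P.ord_mul (hu j0) (Finset.prod_ne_zero_iff.2 fun i _ => hu i)] at h4
        have h5 : Even (P.ord (∏ i ∈ S.erase j0, (f i).eval (x i))) := by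
          have h6 : ∀ S' : Finset (Fin r), (∀ i ∈ S', i ≠ j0) →
              Even (P.ord (∏ i ∈ S', (f i).eval (x i))) := by
            intro S'
            induction S' using Finset.induction_on with
            | empty =>
              intro _
              rw [Finset.prod_empty, P.ord_one]
              exact Even.zero
            | insert i S' hi ih =>
              intro h7
              rw [Finset.prod_insert hi, P.ord_mul (hu i)
                (Finset.prod_ne_zero_iff.2 fun i _ => hu i)]
              exact (hbA i (hex i (h7 i (Finset.mem_insert_self _ _)))).1.add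
                (ih fun i hi => h7 i (Finset.mem_insert_of_mem hi))
          exact h6 _ fun i hi => (Finset.mem_erase.1 hi).1
        have h6 : Even (P.ord ((f j0).eval (x j0)) +
            P.ord (∏ i ∈ S.erase j0, (f i).eval (x i))) := by
          rw [← h4]
          exact ⟨P.ord w, by push_cast; ring⟩
        exact (Int.even_add.1 h6).2 h5
      have h4 := h2 hev
      have h5 : 2 ≤ k0 := by
        obtain ⟨a, ha⟩ := h4
        omega
      have h6 : P.ord (T j0) + m * b j0 ≤ ∑ j, (P.ord (T j) + m * b j) :=
        Finset.single_le_sum (f := fun j => P.ord (T j) + m * b j) (fun j _ => hnn j)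
          (Finset.mem_univ j0)
      have h7 := mul_le_mul_of_nonneg_left h5 hm'.le
      linarith

end data

end Pool.Agent.X140.EF
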