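import Pool.Agent.X140.EF.Mix

/-!
Forms along the fibres of a variety whose fibres, after a base change, dominate the product of a
variety over the constants and some elliptic curves.
-/

set_option autoImplicit false
set_option linter.overlappingInstances false

open FF Pool.Agent.W602.GT Pool.Agent.W603.LV Pool.Agent.W619.PQ Pool.Agent.W619.Y
open Pool.Agent.TH585.SV Pool.Agent.Y172 Pool.Agent.Y191 Pool.Agent.X180.Iso

namespace Pool.Agent.X140.EF

variable {K K' : Type} [Field K] [Field K'] [Algebra ℂ K] [Algebra ℂ K'] [Algebra K K']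
  [IsScalarTower ℂ K K'] [FiniteDimensional K K'] {L : IntermediateField ℂ K} {r s : ℕ}

/-- the square roots of the values of the cubic polynomials are not zero -/
theorem root_ne {U : IntermediateField ℂ K} {A B x w : Fin r → K} (hA : ∀ j, IsAlgebraic U (A j))
    (hB : ∀ j, IsAlgebraic U (B j)) (hxy : ∀ j, w j ^ 2 = x j ^ 3 + A j * x j + B j) (j : Fin r)
    {G : Derivation U K K} (h3 : G (x j) = 1) : w j ≠ 0 := by
  have : CharZero K := charZero_of_injective_algebraMap (algebraMap ℂ K).injective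
  intro h0
  have h2 := congrArg G (hxy j)
  rw [h0, map_add, map_add, G.leibniz, G.leibniz_pow, G.leibniz_pow,
    der_alg G (hA j), der_alg G (hB j), h3] at h2
  simp only [nsmul_eq_mul, smul_eq_mul, Nat.cast_ofNat, mul_zero, add_zero, map_zero,
    mul_one] at h2
  have h4 := congrArg G h2
  rw [map_zero, map_add, der_alg G (hA j)] at h4
  have h5 : G (3 * x j ^ (3 - 1)) = 6 * x j := by
    have h6 : (3 : K) * x j ^ (3 - 1) = x j ^ 2 + x j ^ 2 + x j ^ 2 := by ring
    rw [h6, map_add, map_add, G.leibniz_pow, h3]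
    simp only [nsmul_eq_mul, smul_eq_mul, Nat.cast_ofNat, mul_one]
    ring
  rw [h5, add_zero] at h4
  have h7 : x j = 0 := by
    rcases mul_eq_zero.1 h4.symm with h8 | h8
    · norm_num at h8
    · exact h8
  rw [h7, map_zero] at h3
  exact zero_ne_one h3

/-- **Forms along the fibres.** -/
theorem mix_forms {N lam : ℕ} (hN : Algebra.trdeg ℂ K = N)
    (hL : Algebra.trdeg L K = (r + s : ℕ))
    {α : K'} (hα : IsAlgebraic L α) (htop : IntermediateField.adjoin K {α} = ⊤)
    (M : IntermediateField ℂ K') [Algebra.EssFiniteType ℂ M] (hM : Algebra.trdeg ℂ M = s)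
    {A B x w : Fin r → K'} (hA : ∀ j, IsAlgebraic (upF K' L) (A j))
    (hB : ∀ j, IsAlgebraic (upF K' L) (B j))
    (hxw : ∀ j, w j ^ 2 = x j ^ 3 + A j * x j + B j)
    (hΔ : ∀ j, 4 * A j ^ 3 + 27 * B j ^ 2 ≠ 0)
    (hdom : ∀ z : K', IsAlgebraic (IntermediateField.adjoin ℂ
      ((upF K' L : Set K') ∪ ((M : Set K') ∪ Set.range x))) z)
    (hk : Pool.Agent.W602.GT.KodGe ℂ M s (fun _ => False) lam) (X : Set (Place ℂ K)) :
    ∃ m : ℕ, 0 < m ∧ ∃ θ : Fin (lam + 1) → (Fin (r + s) → Derivation L K K) → K,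
      (∀ b, FibSec N m X (fun _ => 0) L (θ b)) ∧ ∃ G, θ 0 G ≠ 0 ∧
        AlgebraicIndependent L (fun i : Fin lam => θ i.succ G / θ 0 G) := by
  classical
  have hcL : CharZero L := charZero_of_injective_algebraMap (algebraMap ℂ L).injective
  have hcU : CharZero (upF K' L) :=
    charZero_of_injective_algebraMap (algebraMap ℂ (upF K' L)).injective
  have hN' : Algebra.trdeg ℂ K' = N := by
    have h1 : Algebra.trdeg K K' = 0 := trdeg_eq_zero_iff.2 inferInstance
    rw [← hN, ← _root_.trdeg_add_eq ℂ K (A := K'), h1, add_zero]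
  obtain ⟨y0, E0, hy0, -⟩ := exists_crd hL
  have hU : Algebra.trdeg (upF K' L) K' = (r + s : ℕ) := by
    have h1 := (tb_up (K' := K') (hy0.algebraMap_comp (A := K'))).cardinalMk_eq_trdeg
    rw [← h1]
    simp
  obtain ⟨m, hm, ω, hω, D, hD0, hDi⟩ := hk
  obtain ⟨y, E, hy, hE⟩ := exists_crd (k := ℂ) (K := M) hM
  have hyU : IsTranscendenceBasis (upF K' L) (Fin.append x (fun j => ((y j : M) : K'))) :=
    basis_mix (upF K' L) M hU hy x hdom
  choose E' hE1 using fun i => exists_dual (k := upF K' L) _ hyU i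
  have hEx : ∀ i j, E' i (x j) = if i = Fin.castAdd s j then 1 else 0 := by
    intro i j
    have h1 := hE1 i (Fin.castAdd s j)
    rw [Fin.append_left] at h1
    rw [h1]
    by_cases h : i = Fin.castAdd s j
    · rw [if_pos h, if_pos h.symm]
    · rw [if_neg h, if_neg (Ne.symm h)]
  have hEy : ∀ i l, E' i ((y l : M) : K') = if i = Fin.natAdd r l then 1 else 0 := by
    intro i l
    have h1 := hE1 i (Fin.natAdd r l)
    rw [Fin.append_right] at h1
    rw [h1]
    by_cases h : i = Fin.natAdd r l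
    · rw [if_pos h, if_pos h.symm]
    · rw [if_neg h, if_neg (Ne.symm h)]
  have hval : ∀ b, ω b D = (Matrix.of fun i j => D i (y j)).det ^ m * ω b E := fun b =>
    pluri_coord hy hE (hω b).1 D
  have hd0 : (Matrix.of fun i j => D i (y j)).det ^ m ≠ 0 := by
    intro h0
    apply hD0
    rw [hval, h0, zero_mul]
  have hW0 : ω 0 E ≠ 0 := by
    intro h0
    apply hD0
    rw [hval, h0, mul_zero]
  have hind : AlgebraicIndependent ℂ (fun i : Fin lam => ω i.succ E / ω 0 E) := by
    have e1 : (fun i : Fin lam => ω i.succ E / ω 0 E) = fun i : Fin lam => ω i.succ D / ω 0 D := by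
      funext i
      rw [hval i.succ, hval 0, mul_div_mul_left _ _ hd0]
    rw [e1]
    exact hDi
  have hw0 : ∀ j, w j ≠ 0 := fun j => root_ne hA hB hxw j (G := E' (Fin.castAdd s j)) (by
    rw [hEx, if_pos rfl])
  have hdet : (mixm x w (fun l => ((y l : M) : K')) E').det ≠ 0 := by
    have h1 : mixm x w (fun l => ((y l : M) : K')) E' =
        Matrix.diagonal (Fin.append (fun j => (w j)⁻¹) (fun _ : Fin s => (1 : K'))) := by
      ext i c
      unfold mixm
      rw [Matrix.diagonal_apply]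
      refine Fin.addCases (fun j => ?_) (fun l => ?_) c
      · rw [Matrix.of_apply, Fin.append_left, hEx]
        by_cases h : i = Fin.castAdd s j
        · rw [if_pos h, if_pos h, h, Fin.append_left, one_div]
        · rw [if_neg h, if_neg h, zero_div]
      · rw [Matrix.of_apply, Fin.append_right, hEy]
        by_cases h : i = Fin.natAdd r l
        · rw [if_pos h, if_pos h, h, Fin.append_right]
        · rw [if_neg h, if_neg h]
    rw [h1, Matrix.det_diagonal, Fin.prod_univ_add]
    refine mul_ne_zero (Finset.prod_ne_zero_iff.2 fun j _ => ?_)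
      (Finset.prod_ne_zero_iff.2 fun l _ => ?_)
    · rw [Fin.append_left]
      exact inv_ne_zero (hw0 j)
    · rw [Fin.append_right]
      exact one_ne_zero
  have hα' : IsAlgebraic (upF K' L) α := alg_up hα
  have htop' : ∀ z : K', ∃ p : Polynomial K, z = Polynomial.aeval α p := by
    intro z
    have h1 : z ∈ IntermediateField.adjoin K {α} := by
      rw [htop]
      trivial
    have h2 : z ∈ (IntermediateField.adjoin K {α}).toSubalgebra := h1
    rw [IntermediateField.adjoin_simple_toSubalgebra_of_isAlgebraic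
      (Algebra.IsAlgebraic.isAlgebraic α), Algebra.adjoin_singleton_eq_range_aeval] at h2
    obtain ⟨p, hp⟩ := h2
    exact ⟨p, hp.symm⟩
  -- the forms of degree `12 m`
  have hΔ0 : (∏ j, (4 * A j ^ 3 + 27 * B j ^ 2)) ^ m ≠ 0 :=
    pow_ne_zero _ (Finset.prod_ne_zero_iff.2 fun j _ => hΔ j)
  have hη : ∀ b, IsPluriForm ℂ M s (12 * m) (fun D => ω b D * ω 0 D ^ 11) := by
    intro b A' D'
    change ω b _ * ω 0 _ ^ 11 = _
    rw [(hω b).1 A' D', (hω 0).1 A' D']
    ring
  have hreg : ∀ b, ∀ u : Place ℂ M, IsDivisorial u s →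
      RegularAt u s (fun D => ω b D * ω 0 D ^ 11) := by
    intro b u hu D' hD'
    have h1 : u.Reg (ω b D') := (hω b).2.2 u hu id D' hD'
    have h2 : u.Reg (ω 0 D') := (hω 0).2.2 u hu id D' hD'
    have h3 : Ge u 0 (ω 0 D' ^ 11) := by
      have h4 : Ge u 0 (ω 0 D') := h2
      simpa using h4.pow 11
    have h5 : Ge u 0 (ω b D') := h1
    have h6 : Ge u 0 (ω b D' * ω 0 D' ^ 11) := by simpa using h5.mul h3
    exact h6
  refine push (M := 12 * m) (Nat.mul_pos (by norm_num) hm) hL hα' htop'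
    (θ' := fun b G => (∏ j, (4 * A j ^ 3 + 27 * B j ^ 2)) ^ m *
      (mixm x w (fun l => ((y l : M) : K')) G).det ^ (12 * m) *
        (((ω b E * ω 0 E ^ 11 : M)) : K'))
    (fun b => fib_of_mix hN' (upF K' L) M hM (hη b) (hreg b) hy hE hA hB hxw hΔ _) ⟨E', ?_, ?_⟩
  · refine mul_ne_zero (mul_ne_zero hΔ0 (pow_ne_zero _ hdet)) ?_
    intro h0
    have h1 : (ω 0 E * ω 0 E ^ 11 : M) = 0 := Subtype.ext h0
    exact mul_ne_zero hW0 (pow_ne_zero _ hW0) h1
  · have h1 := ind_mix (upF K' L) M hU hM hind x hdom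
    convert h1 using 1
    funext i
    have h2 : (∏ j, (4 * A j ^ 3 + 27 * B j ^ 2)) ^ m *
      (mixm x w (fun l => ((y l : M) : K')) E').det ^ (12 * m) ≠ 0 :=
      mul_ne_zero hΔ0 (pow_ne_zero _ hdet)
    rw [mul_div_mul_left _ _ h2]
    have h3 : ((ω 0 E : M) : K') ≠ 0 := fun h0 => hW0 (Subtype.ext h0)
    push_cast
    rw [mul_div_mul_right _ _ (pow_ne_zero 11 h3)]

end Pool.Agent.X140.EF
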