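import Pool.Agent.X140.EF.Prod

/-!
Forms along the fibres of a variety whose fibres, after a base change, dominate the product of a
variety over the constants and some elliptic and hyperelliptic curves.
-/

set_option autoImplicit false
set_option linter.overlappingInstances false

open FF Pool.Agent.W602.GT Pool.Agent.W603.LV Pool.Agent.W619.PQ Pool.Agent.W619.Y
open Pool.Agent.TH585.SV Pool.Agent.Y172 Pool.Agent.Y191 Pool.Agent.X180.Iso

namespace Pool.Agent.X140.EF

variable {K K' : Type} [Field K] [Field K'] [Algebra ℂ K] [Algebra ℂ K'] [Algebra K K']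
  [IsScalarTower ℂ K K'] [FiniteDimensional K K'] {L : IntermediateField ℂ K} {r s u : ℕ}

/-- curves over the relative algebraic closure of `U` -/
def CurveData (U : IntermediateField ℂ K) (f : Fin r → Polynomial K) (c x w : Fin r → K) : Prop :=
  ∀ j, (∀ i, IsAlgebraic U ((f j).coeff i)) ∧ (f j).Monic ∧ (f j).Separable ∧
    3 ≤ (f j).natDegree ∧ IsAlgebraic U (c j) ∧ c j ≠ 0 ∧ w j ^ 2 = c j * (f j).eval (x j)

/-- **Forms along the fibres.** -/
theorem hyp_mix_forms {N lam : ℕ} (hN : Algebra.trdeg ℂ K = N)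
    (hL : Algebra.trdeg L K = (r + s : ℕ))
    {α : K'} (hα : IsAlgebraic L α) (htop : IntermediateField.adjoin K {α} = ⊤)
    (M : IntermediateField ℂ K') [Algebra.EssFiniteType ℂ M] (hM : Algebra.trdeg ℂ M = s)
    {f : Fin r → Polynomial K'} {c x w : Fin r → K'} (hdat : CurveData (upF K' L) f c x w)
    {ι : Fin u → Fin r} (hι : Function.Injective ι) (hι5 : ∀ i, 5 ≤ (f (ι i)).natDegree)
    (hdom : ∀ z : K', IsAlgebraic (IntermediateField.adjoin ℂ
      ((upF K' L : Set K') ∪ ((M : Set K') ∪ Set.range x))) z)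
    (hk : Pool.Agent.W602.GT.KodGe ℂ M s (fun _ => False) lam) (X : Set (Place ℂ K)) :
    ∃ m : ℕ, 0 < m ∧ ∃ θ : Fin (lam + u + 1) → (Fin (r + s) → Derivation L K K) → K,
      (∀ b, FibSec N m X (fun _ => 0) L (θ b)) ∧ ∃ G, θ 0 G ≠ 0 ∧
        AlgebraicIndependent L (fun i : Fin (lam + u) => θ i.succ G / θ 0 G) := by
  classical
  have hcL : CharZero L := charZero_of_injective_algebraMap (algebraMap ℂ L).injective
  have hcU : CharZero (upF K' L) :=
    charZero_of_injective_algebraMap (algebraMap ℂ (upF K' L)).injective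
  have hcK : CharZero K' := charZero_of_injective_algebraMap (algebraMap ℂ K').injective
  have hN' : Algebra.trdeg ℂ K' = N := by
    have h1 : Algebra.trdeg K K' = 0 := trdeg_eq_zero_iff.2 inferInstance
    rw [← hN, ← _root_.trdeg_add_eq ℂ K (A := K'), h1, add_zero]
  obtain ⟨y0, E0, hy0, -⟩ := exists_crd hL
  have hU : Algebra.trdeg (upF K' L) K' = (r + s : ℕ) := by
    have h1 := (tb_up (K' := K') (hy0.algebraMap_comp (A := K'))).cardinalMk_eq_trdeg
    rw [← h1]
    simp
  obtain ⟨m, hm, ω, hω, D, hD0, hDi⟩ := hk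
  obtain ⟨y, E, hy, hE⟩ := exists_crd (k := ℂ) (K := M) hM
  have hyU : IsTranscendenceBasis (upF K' L) (Fin.append x (fun j => ((y j : M) : K'))) :=
    basis_mix (upF K' L) M hU hy x hdom
  have hxt : ∀ j, Transcendental (upF K' L) (x j) := by
    intro j
    have h1 := hyU.1.transcendental (Fin.castAdd s j)
    rwa [Fin.append_left] at h1
  choose E' hE1 using fun i => exists_dual (k := upF K' L) _ hyU i
  have hEx : ∀ i j, E' i (x j) = if i = Fin.castAdd s j then 1 else 0 := by
    intro i j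
    have h1 := hE1 i (Fin.castAdd s j)
    rw [Fin.append_left] at h1
    rw [h1]
    by_cases h : i = Fin.castAdd s j
    · rw [if_pos h, if_pos h.symm]
    · rw [if_neg h, if_neg (Ne.symm h)]
  have hEy : ∀ i l, E' i ((y l : M) : K') = if i = Fin.natAdd r l then 1 else 0 := by
    intro i l
    have h1 := hE1 i (Fin.natAdd r l)
    rw [Fin.append_right] at h1
    rw [h1]
    by_cases h : i = Fin.natAdd r l
    · rw [if_pos h, if_pos h.symm]
    · rw [if_neg h, if_neg (Ne.symm h)]
  have hval : ∀ b, ω b D = (Matrix.of fun i j => D i (y j)).det ^ m * ω b E := fun b =>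
    pluri_coord hy hE (hω b).1 D
  have hd0 : (Matrix.of fun i j => D i (y j)).det ^ m ≠ 0 := by
    intro h0
    apply hD0
    rw [hval, h0, zero_mul]
  have hW0 : ω 0 E ≠ 0 := by
    intro h0
    apply hD0
    rw [hval, h0, mul_zero]
  have hind : AlgebraicIndependent ℂ (fun i : Fin lam => ω i.succ E / ω 0 E) := by
    have e1 : (fun i : Fin lam => ω i.succ E / ω 0 E) = fun i : Fin lam => ω i.succ D / ω 0 D := by
      funext i
      rw [hval i.succ, hval 0, mul_div_mul_left _ _ hd0]
    rw [e1]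
    exact hDi
  have hdet : (mixm x (fun _ => 1) (fun l => ((y l : M) : K')) E').det ≠ 0 := by
    have h1 : mixm x (fun _ => 1) (fun l => ((y l : M) : K')) E' = 1 := by
      ext i c
      unfold mixm
      rw [Matrix.one_apply]
      refine Fin.addCases (fun j => ?_) (fun l => ?_) c
      · rw [Matrix.of_apply, Fin.append_left, hEx, div_one]
      · rw [Matrix.of_apply, Fin.append_right, hEy]
    rw [h1, Matrix.det_one]
    exact one_ne_zero
  have hα' : IsAlgebraic (upF K' L) α := alg_up hα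
  have htop' : ∀ z : K', ∃ p : Polynomial K, z = Polynomial.aeval α p := by
    intro z
    have h1 : z ∈ IntermediateField.adjoin K {α} := by
      rw [htop]
      trivial
    have h2 : z ∈ (IntermediateField.adjoin K {α}).toSubalgebra := h1
    rw [IntermediateField.adjoin_simple_toSubalgebra_of_isAlgebraic
      (Algebra.IsAlgebraic.isAlgebraic α), Algebra.adjoin_singleton_eq_range_aeval] at h2
    obtain ⟨p, hp⟩ := h2
    exact ⟨p, hp.symm⟩
  -- the degrees
  obtain ⟨ν, hν⟩ : ∃ ν : Fin r → ℕ, ∀ j, ν j + 4 = (f j).natDegree + (f j).natDegree % 2 := by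
    refine ⟨fun j => (f j).natDegree + (f j).natDegree % 2 - 4, fun j => ?_⟩
    have := (hdat j).2.2.2.1
    change (f j).natDegree + (f j).natDegree % 2 - 4 + 4 = _
    omega
  obtain ⟨a, ha⟩ : ∃ a : Fin r → ℕ, ∀ j, a j = 4 * (ν j + 4) * (ν j + 3) * (ν j + 2) :=
    ⟨_, fun _ => rfl⟩
  have ha0 : ∀ j, 0 < a j := by
    intro j
    rw [ha]
    positivity
  obtain ⟨B, hB⟩ : ∃ B, ∏ i, a i = B + 1 := by
    have : 0 < ∏ i, a i := Finset.prod_pos fun i _ => ha0 i
    exact ⟨∏ i, a i - 1, by omega⟩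
  obtain ⟨e, he⟩ : ∃ e : Fin r → ℕ, ∀ j, e j = (∏ i ∈ Finset.univ.erase j, a i) * m :=
    ⟨_, fun _ => rfl⟩
  have he0 : ∀ j, 0 < e j := by
    intro j
    rw [he]
    exact Nat.mul_pos (Finset.prod_pos fun i _ => ha0 i) hm
  have hae : ∀ j, 4 * (ν j + 4) * (ν j + 3) * (ν j + 2) * e j = (B + 1) * m := by
    intro j
    rw [← ha, he, ← mul_assoc, Finset.mul_prod_erase _ _ (Finset.mem_univ j), hB]
  have hu : ∀ j, (f j).eval (x j) ≠ 0 := fun j =>
    val_ne (hdat j).1 (hdat j).2.1.ne_zero (hxt j)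
  -- the columns
  obtain ⟨TA, hTA⟩ : ∃ TA : Fin r → K', ∀ j, TA j = colA (f j) (ν j) (e j) (x j) :=
    ⟨_, fun _ => rfl⟩
  obtain ⟨TB, hTB⟩ : ∃ TB : Fin r → K', ∀ j, TB j = colB (f j) (ν j) (e j) (x j) :=
    ⟨_, fun _ => rfl⟩
  have hTA0 : ∀ j, TA j ≠ 0 := by
    intro j
    rw [hTA]
    exact pow_ne_zero _ (colE_ne (hdat j).2.2.1 _ (hu j))
  have hTB0 : ∀ j, TB j ≠ 0 := by
    intro j
    rw [hTB]
    exact colB_ne (hdat j).1 (hdat j).2.2.1 (by have := (hdat j).2.2.2.1; omega) _ _ (hxt j)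
  have hge : ∀ j, ∀ P : Place ℂ K', ∀ G : Derivation (upF K' L) K' K',
      (∀ f, P.Reg f → P.Reg (G f)) → Ge P 0 (TA j * G (x j) ^ ((B + 1) * m)) ∧
        Ge P 0 (TB j * G (x j) ^ ((B + 1) * m)) := by
    intro j P G hG
    have h1 := col_ge (P := P) (G := G.restrictScalars ℂ) (fun f hf => hG f hf)
      (fun i => der_alg G ((hdat j).1 i)) (hdat j).2.1 (hdat j).2.2.2.1 (hdat j).2.2.1
      (der_alg G (hdat j).2.2.2.2.1) (hdat j).2.2.2.2.2.1 (hdat j).2.2.2.2.2.2 (hu j) (hν j)
      (he0 j)
    rw [hae, ← hTA, ← hTB] at h1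
    exact h1
  -- the data of the forms
  obtain ⟨T, hT⟩ : ∃ T : Fin (lam + u + 1) → Fin r → K', T = Fin.cons TA
      (Fin.append (fun _ => TA) (fun i => Function.update TA (ι i) (TB (ι i)))) := ⟨_, rfl⟩
  obtain ⟨η, hη'⟩ : ∃ η : Fin (lam + u + 1) → (Fin s → Derivation ℂ M M) → M, η = Fin.cons (ω 0)
      (Fin.append (fun i => ω i.succ) (fun _ => ω 0)) := ⟨_, rfl⟩
  have hTcase : ∀ b j, T b j = TA j ∨ T b j = TB j := by
    intro b j
    rw [hT]
    refine Fin.cases ?_ (fun b => ?_) b
    · rw [Fin.cons_zero]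
      exact Or.inl rfl
    · rw [Fin.cons_succ]
      refine Fin.addCases (fun i => ?_) (fun i => ?_) b
      · rw [Fin.append_left]
        exact Or.inl rfl
      · rw [Fin.append_right]
        by_cases h : j = ι i
        · rw [h, Function.update_self]
          exact Or.inr rfl
        · rw [Function.update_of_ne h]
          exact Or.inl rfl
  have hηcase : ∀ b, ∃ b', η b = ω b' := by
    intro b
    rw [hη']
    refine Fin.cases ?_ (fun b => ?_) b
    · exact ⟨0, by rw [Fin.cons_zero]⟩
    · rw [Fin.cons_succ]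
      refine Fin.addCases (fun i => ?_) (fun i => ?_) b
      · exact ⟨i.succ, by rw [Fin.append_left]⟩
      · exact ⟨0, by rw [Fin.append_right]⟩
  have hη : ∀ b, IsPluriForm ℂ M s ((B + 1) * m) (fun D => η b D * ω 0 D ^ B) := by
    intro b A' D'
    obtain ⟨b', hb'⟩ := hηcase b
    change η b _ * ω 0 _ ^ B = _
    rw [hb', (hω b').1 A' D', (hω 0).1 A' D']
    ring
  have hreg : ∀ b, ∀ u : Place ℂ M, IsDivisorial u s →
      RegularAt u s (fun D => η b D * ω 0 D ^ B) := by
    intro b u hu D' hD'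
    obtain ⟨b', hb'⟩ := hηcase b
    have h1 : u.Reg (ω b' D') := (hω b').2.2 u hu id D' hD'
    have h2 : u.Reg (ω 0 D') := (hω 0).2.2 u hu id D' hD'
    have h3 : Ge u 0 (ω 0 D' ^ B) := by
      have h4 : Ge u 0 (ω 0 D') := h2
      simpa using h4.pow B
    have h5 : Ge u 0 (ω b' D') := h1
    have h6 : Ge u 0 (η b D' * ω 0 D' ^ B) := by
      rw [hb']
      simpa using h5.mul h3
    exact h6
  refine push (M := (B + 1) * m) (Nat.mul_pos (by omega) hm) hL hα' htop'
    (θ' := fun b G => (∏ j, T b j) *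
      (mixm x (fun _ => 1) (fun l => ((y l : M) : K')) G).det ^ ((B + 1) * m) *
        (((η b E * ω 0 E ^ B : M)) : K'))
    (fun b => fib_of_prod (Nat.mul_pos (by omega) hm) hN' (upF K' L) M hM (hη b) (hreg b) hy hE
      (fun j => by
        rcases hTcase b j with h | h
        · rw [h]
          exact hTA0 j
        · rw [h]
          exact hTB0 j)
      (fun j P G hG => by
        rcases hTcase b j with h | h
        · rw [h]
          exact (hge j P G hG).1
        · rw [h]
          exact (hge j P G hG).2) _) ⟨E', ?_, ?_⟩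
  · have h0 : T 0 = TA := by rw [hT, Fin.cons_zero]
    have h1 : η 0 = ω 0 := by rw [hη', Fin.cons_zero]
    rw [h0, h1]
    refine mul_ne_zero (mul_ne_zero (Finset.prod_ne_zero_iff.2 fun j _ => hTA0 j)
      (pow_ne_zero _ hdet)) ?_
    intro h0
    have h1 : (ω 0 E * ω 0 E ^ B : M) = 0 := Subtype.ext h0
    exact mul_ne_zero hW0 (pow_ne_zero _ hW0) h1
  · -- the ratios
    obtain ⟨x', hx'⟩ : ∃ x' : Fin r → K', ∀ j, x' j = if 5 ≤ (f j).natDegree then TB j / TA j
      else x j := ⟨_, fun _ => rfl⟩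
    have hdom' : ∀ z : K', IsAlgebraic (IntermediateField.adjoin ℂ
        ((upF K' L : Set K') ∪ ((M : Set K') ∪ Set.range x'))) z := by
      obtain ⟨A, hA⟩ : ∃ A : IntermediateField ℂ K', A = IntermediateField.adjoin ℂ
        ((upF K' L : Set K') ∪ ((M : Set K') ∪ Set.range x')) := ⟨_, rfl⟩
      rw [← hA]
      have hUA : upF K' L ≤ A := by
        rw [hA]
        exact fun z hz => IntermediateField.subset_adjoin _ _ (Or.inl hz)
      refine top_of_gen (fun z hz => ?_) hdom
      rw [← Pool.Agent.X180.Iso.mem_acl]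
      have h1 : IntermediateField.adjoin ℂ
          ((upF K' L : Set K') ∪ ((M : Set K') ∪ Set.range x)) ≤ Acl A := by
        rw [IntermediateField.adjoin_le_iff]
        refine Set.union_subset ?_ (Set.union_subset ?_ ?_)
        · intro z hz
          exact le_acl A (hUA hz)
        · intro z hz
          refine le_acl A ?_
          rw [hA]
          exact IntermediateField.subset_adjoin _ _ (Or.inr (Or.inl hz))
        · rintro _ ⟨j, rfl⟩
          have h2 : x' j ∈ A := by
            rw [hA]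
            exact IntermediateField.subset_adjoin _ _ (Or.inr (Or.inr ⟨j, rfl⟩))
          rw [hx'] at h2
          by_cases h5 : 5 ≤ (f j).natDegree
          · rw [if_pos h5, hTA, hTB] at h2
            refine acl_acl (col_alg (A := Acl A) (fun i => ?_) (hdat j).2.2.1 (by omega)
              (N := ν j) (by have := hν j; omega) (he0 j) (hu j) (le_acl A h2))
            exact Pool.Agent.X180.Iso.mem_acl.2 (alg_mono hUA ((hdat j).1 i))
          · rw [if_neg h5] at h2
            exact le_acl A h2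
      exact h1 hz
    have h1 := ind_mix2 (upF K' L) M hU hM hind x' hdom' hι
    convert h1 using 1
    funext i
    have hP0 : (∏ j, T 0 j) = ∏ j, TA j := by rw [hT, Fin.cons_zero]
    have hη0 : η 0 = ω 0 := by rw [hη', Fin.cons_zero]
    have h3 : ((ω 0 E : M) : K') ≠ 0 := fun h0 => hW0 (Subtype.ext h0)
    have hdet' := pow_ne_zero ((B + 1) * m) hdet
    have hPA : (∏ j, TA j) ≠ 0 := Finset.prod_ne_zero_iff.2 fun j _ => hTA0 j
    rw [hP0, hη0]
    refine Fin.addCases (fun b => ?_) (fun b => ?_) i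
    · have h4 : T (Fin.castAdd u b).succ = TA := by rw [hT, Fin.cons_succ, Fin.append_left]
      have h5 : η (Fin.castAdd u b).succ = ω b.succ := by
        rw [hη', Fin.cons_succ, Fin.append_left]
      rw [h4, h5, Fin.append_left, mul_div_mul_left _ _ (mul_ne_zero hPA hdet')]
      push_cast
      rw [mul_div_mul_right _ _ (pow_ne_zero B h3)]
    · have h4 : T (Fin.natAdd lam b).succ = Function.update TA (ι b) (TB (ι b)) := by
        rw [hT, Fin.cons_succ, Fin.append_right]
      have h5 : η (Fin.natAdd lam b).succ = ω 0 := by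
        rw [hη', Fin.cons_succ, Fin.append_right]
      rw [h4, h5, Fin.append_right, hx', if_pos (hι5 b)]
      have h6 : (((ω 0 E * ω 0 E ^ B : M)) : K') ≠ 0 := by
        push_cast
        exact mul_ne_zero h3 (pow_ne_zero _ h3)
      rw [mul_div_mul_right _ _ h6, mul_div_mul_right _ _ hdet',
        Finset.prod_update_of_mem (Finset.mem_univ _),
        Finset.prod_eq_mul_prod_sdiff_singleton_of_mem (Finset.mem_univ (ι b)) TA]
      have h7 : (∏ j ∈ Finset.univ \ {ι b}, TA j) ≠ 0 :=
        Finset.prod_ne_zero_iff.2 fun j _ => hTA0 j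
      rw [mul_div_mul_right _ _ h7]

end Pool.Agent.X140.EF
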