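import Pool.Agent.X140.EF.Fib2

/-!
Forms along the fibres if the geometric generic fibre dominates the product of a variety over the
constants and some elliptic and hyperelliptic curves.
-/

set_option autoImplicit false
set_option linter.overlappingInstances false

open FF Pool.Agent.W602.GT Pool.Agent.Y191 Pool.Agent.TH585.SV Pool.Agent.X180.Iso
open Pool.Agent.X180.Abn

namespace Pool.Agent.X140.EF

variable {K Λ F : Type} [Field K] [Field Λ] [Field F] [Algebra ℂ K] [Algebra ℂ Λ] [Algebra ℂ F]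
  [Algebra Λ F] [Algebra K F] [IsScalarTower ℂ Λ F] [IsScalarTower ℂ K F]

omit [Algebra ℂ Λ] [IsScalarTower ℂ Λ F] in
/-- **Forms along the fibres.** -/
theorem geo_hyp {N r t lam u : ℕ} (hN : Algebra.trdeg ℂ K = N) {L U : IntermediateField ℂ K}
    (hU : Algebra.trdeg U K = (r + t : ℕ)) (hLU : ∀ x ∈ L, IsAlgebraic U x)
    (hgen : IntermediateField.adjoin Λ (Set.range (algebraMap K F)) = ⊤)
    (hΛ : ∀ z : Λ, IsAlgebraic L (algebraMap Λ F z))
    (M : IntermediateField ℂ F) [Algebra.EssFiniteType ℂ M] (hM : Algebra.trdeg ℂ M = t)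
    {f : Fin r → Polynomial Λ} {c : Fin r → Λ} {x w : Fin r → F}
    (hdat : ∀ j, (f j).Monic ∧ (f j).Separable ∧ 3 ≤ (f j).natDegree ∧ c j ≠ 0 ∧
      w j ^ 2 = algebraMap Λ F (c j) * Polynomial.aeval (x j) (f j))
    {ι : Fin u → Fin r} (hι : Function.Injective ι) (hι5 : ∀ i, 5 ≤ (f (ι i)).natDegree)
    (hdom : ∀ z : F, IsAlgebraic (IntermediateField.adjoin Λ ((M : Set F) ∪ Set.range x)) z)
    (hk : Pool.Agent.W602.GT.KodGe ℂ M t (fun _ => False) lam) (X : Set (Place ℂ K)) :
    ∃ m : ℕ, 0 < m ∧ ∃ θ : Fin (lam + u + 1) → (Fin (r + t) → Derivation U K K) → K,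
      (∀ b, FibSec N m X (fun _ => 0) U (θ b)) ∧ ∃ G, θ 0 G ≠ 0 ∧
        AlgebraicIndependent U (fun i : Fin (lam + u) => θ i.succ G / θ 0 G) := by
  classical
  -- algebraic over `L` implies algebraic over `U`
  have hLA : ∀ z : F, IsAlgebraic L z → z ∈ Acl (upF F U) := by
    intro z hz
    have h1 : upF F L ≤ Acl (upF F U) := by
      intro w hw
      obtain ⟨a, ha, rfl⟩ := mem_upF.1 hw
      rw [mem_acl]
      have h2 : IsAlgebraic U (algebraMap K F a) :=
        (hLU a ha).algHom (IsScalarTower.toAlgHom U K F)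
      exact alg_up h2
    exact acl_acl (alg_mono h1 (alg_up hz))
  obtain ⟨s, hs⟩ := IntermediateField.essFiniteType_iff.1 ‹Algebra.EssFiniteType ℂ M›
  obtain ⟨α, hα, hsα⟩ := exists_prim hgen hΛ (s ∪ (Finset.univ.image x ∪ (Finset.univ.image w ∪
    (Finset.univ.image (fun j => algebraMap Λ F (c j)) ∪
      Finset.univ.biUnion (fun j => (Finset.range ((f j).natDegree + 1)).image
        (fun i => algebraMap Λ F ((f j).coeff i)))))))
  have hαU : IsAlgebraic U α := by
    have h1 := mem_acl.1 (hLA α hα)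
    refine h1.of_ringHom_of_comp_eq (upE F U) (RingHom.id F) (upE F U).surjective
      Function.injective_id upE_comp
  obtain ⟨K', hK'⟩ : ∃ K' : IntermediateField K F, K' = IntermediateField.adjoin K {α} := ⟨_, rfl⟩
  have hαK' : α ∈ K' := by
    rw [hK']
    exact IntermediateField.subset_adjoin _ _ (Set.mem_singleton _)
  rw [← hK'] at hsα
  have hxK : ∀ j, x j ∈ K' := fun j => hsα _ (by simp)
  have hwK : ∀ j, w j ∈ K' := fun j => hsα _ (by simp)
  have hcK : ∀ j, algebraMap Λ F (c j) ∈ K' := fun j => hsα _ (by simp)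
  have hfK : ∀ j i, algebraMap Λ F ((f j).coeff i) ∈ K' := by
    intro j i
    rcases lt_or_ge (f j).natDegree i with h1 | h1
    · rw [Polynomial.coeff_eq_zero_of_natDegree_lt h1, map_zero]
      exact zero_mem _
    · refine hsα _ ?_
      refine Finset.mem_union_right _ (Finset.mem_union_right _ (Finset.mem_union_right _
        (Finset.mem_union_right _ ?_)))
      rw [Finset.mem_biUnion]
      refine ⟨j, Finset.mem_univ _, Finset.mem_image.2 ⟨i, ?_, rfl⟩⟩
      rw [Finset.mem_range]
      omega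
  have hMK' : ∀ z ∈ M, z ∈ K' := by
    have h1 : M ≤ K'.restrictScalars ℂ := by
      rw [← hs, IntermediateField.adjoin_le_iff]
      intro z hz
      exact hsα z (Finset.mem_union_left _ hz)
    exact h1
  let v : K' →ₐ[ℂ] F := K'.val.restrictScalars ℂ
  obtain ⟨M', hM'⟩ : ∃ M' : IntermediateField ℂ K', M' = M.comap v := ⟨_, rfl⟩
  have hmem : ∀ z : K', z ∈ M' ↔ (z : F) ∈ M := by
    intro z
    rw [hM']
    rfl
  let ε : M ≃ₐ[ℂ] M' :=
    { toFun := fun z => ⟨⟨z, hMK' z z.2⟩, (hmem _).2 z.2⟩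
      invFun := fun z => ⟨((z : K') : F), (hmem _).1 z.2⟩
      left_inv := fun z => rfl
      right_inv := fun z => rfl
      map_mul' := fun x y => rfl
      map_add' := fun x y => rfl
      commutes' := fun r => rfl }
  have hess : Algebra.EssFiniteType ℂ M' := (Algebra.EssFiniteType.iff_of_algEquiv ε).1 ‹_›
  have htrM' : Algebra.trdeg ℂ M' = t := by
    rw [← hM]
    exact ε.symm.trdeg_eq
  have hk' := kodGe_of_equiv ε hk
  obtain ⟨β, hβ⟩ : ∃ β : K', (β : F) = α := ⟨⟨α, hαK'⟩, rfl⟩
  -- algebraic elements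
  have hdown : ∀ b : K', IsAlgebraic U (b : F) → IsAlgebraic U b := by
    intro b hb
    refine IsAlgebraic.of_ringHom_of_comp_eq (R := U) (S := U) (A := K') (B := F) (a := b)
      hb (f := RingHom.id U) (g := K'.val.toRingHom)
      Function.surjective_id K'.val.injective rfl
  have hβU : IsAlgebraic U β := hdown β (by rw [hβ]; exact hαU)
  have hLam : ∀ z : Λ, IsAlgebraic U (algebraMap Λ F z) := by
    intro z
    have h1 := mem_acl.1 (hLA _ (hΛ z))
    refine h1.of_ringHom_of_comp_eq (upE F U) (RingHom.id F) (upE F U).surjective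
      Function.injective_id upE_comp
  have htop : IntermediateField.adjoin K {β} = ⊤ := by
    apply IntermediateField.lift_injective K'
    rw [IntermediateField.lift_adjoin_simple, IntermediateField.lift_top, hβ, hK']
  have hfin : FiniteDimensional K K' := fin_of_top hβU htop
  -- the polynomials
  have hg : ∀ j, ∃ g : Polynomial K', g.map (algebraMap K' F) = (f j).map (algebraMap Λ F) := by
    intro j
    refine (Polynomial.mem_lifts _).1 ((Polynomial.lifts_iff_coeff_lifts _).2 fun i => ?_)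
    refine ⟨⟨(((f j).map (algebraMap Λ F)).coeff i : F), ?_⟩, rfl⟩
    rw [Polynomial.coeff_map]
    exact hfK j i
  choose g hg using hg
  have hgi : Function.Injective (algebraMap K' F) := (algebraMap K' F).injective
  have hgd : ∀ j, (g j).natDegree = (f j).natDegree := by
    intro j
    rw [← Polynomial.natDegree_map (algebraMap K' F), hg, Polynomial.natDegree_map]
  refine hyp_mix_forms hN hU hβU htop M' htrM'
    (f := g) (c := fun j => ⟨algebraMap Λ F (c j), hcK j⟩)
    (x := fun j => ⟨x j, hxK j⟩) (w := fun j => ⟨w j, hwK j⟩)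
    (fun j => ⟨fun i => ?_, ?_, ?_, ?_, ?_, ?_, ?_⟩) hι (fun i => ?_) (fun z => ?_) hk' X
  · refine alg_up (hdown _ ?_)
    have h1 : (((g j).coeff i : K') : F) = algebraMap Λ F ((f j).coeff i) := by
      rw [← Polynomial.coeff_map, ← hg, Polynomial.coeff_map]
      rfl
    rw [h1]
    exact hLam _
  · have h1 := (hdat j).1.map (algebraMap Λ F)
    rw [← hg] at h1
    exact Polynomial.monic_of_injective hgi h1
  · have h1 := (hdat j).2.1.map (f := algebraMap Λ F)
    rw [← hg] at h1
    exact (Polynomial.separable_map _).1 h1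
  · rw [hgd]
    exact (hdat j).2.2.1
  · exact alg_up (hdown _ (hLam (c j)))
  · intro h0
    have h1 : algebraMap Λ F (c j) = 0 := congrArg (fun z : K' => (z : F)) h0
    exact (hdat j).2.2.2.1 ((map_eq_zero_iff _ (algebraMap Λ F).injective).1 h1)
  · refine Subtype.ext ?_
    have h1 := (hdat j).2.2.2.2
    rw [Polynomial.aeval_def, ← Polynomial.eval_map, ← hg, Polynomial.eval_map] at h1
    have h2 := Polynomial.eval₂_at_apply (algebraMap K' F) (p := g j) (⟨x j, hxK j⟩ : K')
    have h3 : algebraMap K' F (⟨x j, hxK j⟩ : K') = x j := rfl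
    rw [h3] at h2
    rw [h2] at h1
    exact h1
  · rw [hgd]
    exact hι5 i
  -- the domination
  obtain ⟨T, hT⟩ : ∃ T : IntermediateField ℂ K',
    T = IntermediateField.adjoin ℂ ((upF K' U : Set K') ∪ ((M' : Set K') ∪
      Set.range (fun j => (⟨x j, hxK j⟩ : K')))) := ⟨_, rfl⟩
  rw [← hT]
  have hUT : upF F U ≤ T.map v := by
    intro w hw
    obtain ⟨a, ha, rfl⟩ := mem_upF.1 hw
    refine ⟨algebraMap K K' a, ?_, rfl⟩
    rw [hT]
    exact IntermediateField.subset_adjoin _ _ (Or.inl (mem_upF.2 ⟨a, ha, rfl⟩))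
  have hMT : M ≤ T.map v := by
    intro w hw
    refine ⟨⟨w, hMK' w hw⟩, ?_, rfl⟩
    rw [hT]
    exact IntermediateField.subset_adjoin _ _ (Or.inr (Or.inl ((hmem _).2 hw)))
  have hxT : ∀ j, x j ∈ T.map v := by
    intro j
    refine ⟨⟨x j, hxK j⟩, ?_, rfl⟩
    rw [hT]
    exact IntermediateField.subset_adjoin _ _ (Or.inr (Or.inr ⟨j, rfl⟩))
  have hall : ∀ w ∈ IntermediateField.adjoin Λ ((M : Set F) ∪ Set.range x),
      w ∈ Acl (T.map v) := by
    intro w hw
    induction hw using IntermediateField.adjoin_induction with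
    | mem z hz =>
      rcases hz with hz | hz
      · exact le_acl _ (hMT hz)
      · obtain ⟨j, hj⟩ := hz
        rw [← hj]
        exact le_acl _ (hxT j)
    | algebraMap x =>
      have h1 : algebraMap Λ F x ∈ Acl (upF F U) := hLA _ (hΛ x)
      exact mem_acl.2 (alg_mono hUT (mem_acl.1 h1))
    | add x y _ _ h1 h2 => exact add_mem h1 h2
    | inv x _ h1 => exact inv_mem h1
    | mul x y _ _ h1 h2 => exact mul_mem h1 h2
  have hz : IsAlgebraic (T.map v) (z : F) := by
    refine mem_acl.1 (acl_acl ?_)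
    have h1 := hdom (z : F)
    let i : IntermediateField.adjoin Λ ((M : Set F) ∪ Set.range x) →+* Acl (T.map v) :=
      ((IntermediateField.adjoin Λ ((M : Set F) ∪ Set.range x)).val.toRingHom).codRestrict
        (Acl (T.map v)).toSubfield fun w => hall w w.2
    exact h1.ringHom_of_comp_eq i (RingHom.id F) i.injective rfl
  exact IsAlgebraic.of_ringHom_of_comp_eq (R := T) (S := T.map v) (A := K') (B := F) (a := z)
    hz (f := (T.equivMap v).toRingEquiv.toRingHom) (g := K'.val.toRingHom)
    (T.equivMap v).surjective K'.val.injective rfl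

end Pool.Agent.X140.EF
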