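import Pool.Agent.TH585.SV.Hyp2

/-!
The discriminant and the Hessian form of a hyperelliptic curve along the fibres.
-/

set_option autoImplicit false

open FF Module Pool.Agent.W603.LV Pool.Agent.W602.GT Pool.Agent.W602.Cov Pool.Agent.W602.Cov.G
open Pool.Agent.W168.CG.PGR Pool.Agent.TH152.AC Pool.Agent.TH152.HY Pool.Agent.TH766.MC
open Polynomial Pool.Agent.TH585.SV

namespace Pool.Agent.X140.EF

variable {K : Type} [Field K] [Algebra ℂ K]

/-- the Hessian of the binary form of degree `m` with the dehomogenisation `f` -/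
noncomputable def hessp (m : ℕ) (f : K[X]) : K[X] :=
  C (m : K) * f * derivative (derivative f) - C (m - 1 : K) * derivative f ^ 2

theorem ge_nat {P : Place ℂ K} (m : ℕ) : Ge P 0 (m : K) := by
  have := Ge.intCast (P := P) (m : ℤ)
  simpa using this

theorem der_coeff_const {G : Derivation ℂ K K} {f : K[X]} (hf : ∀ i, G (f.coeff i) = 0) (i : ℕ) :
    G ((derivative f).coeff i) = 0 := by
  rw [coeff_derivative, G.leibniz, hf]
  have : G ((i : K) + 1) = 0 := by
    have h1 : ((i : K) + 1) = algebraMap ℂ K ((i : ℂ) + 1) := by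
      rw [map_add, map_natCast, map_one]
    rw [h1, G.map_algebraMap]
  rw [this]
  simp

/-- values of polynomials with integral coefficients at a pole -/
theorem pole_ge {P : Place ℂ K} {x : K} (hx : P.ord x ≤ 0) {r : K[X]} (hr : ∀ i, Ge P 0 (r.coeff i))
    {D : ℤ} (hD : r = 0 ∨ (r.natDegree : ℤ) ≤ D) : Ge P (D * P.ord x) (r.eval x) := by
  rcases hD with hD | hD
  · left
    rw [hD, eval_zero]
  rw [eval_eq_sum_range]
  refine Ge.sum _ _ fun i hi => ?_
  have h1 := (hr i).mul ((Pool.Agent.W602.GT.ge_ord P x).pow i)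
  refine h1.mono ?_
  have h2 : (i : ℤ) ≤ D := by
    have := Finset.mem_range.1 hi
    omega
  nlinarith

/-- the Hessian at a pole of `x`, even degree -/
theorem hess_pole_even {P : Place ℂ K} {x : K} (hx : P.ord x ≤ 0) {f : K[X]}
    (hf : ∀ i, Ge P 0 (f.coeff i)) (hm : f.Monic) {N : ℕ} (hn : f.natDegree = N + 4) :
    Ge P ((2 * N + 4 : ℤ) * P.ord x) ((hessp (N + 4) f).eval x) := by
  obtain ⟨a, ha⟩ : ∃ a, a = f.coeff (N + 3) := ⟨_, rfl⟩
  obtain ⟨g, hg⟩ : ∃ g, g = f - X ^ (N + 4) - C a * X ^ (N + 3) := ⟨_, rfl⟩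
  have hga : Ge P 0 a := by
    rw [ha]
    exact hf _
  have hgc : ∀ i, i < N + 3 → g.coeff i = f.coeff i := by
    intro i hi
    rw [hg, coeff_sub, coeff_sub, coeff_X_pow, coeff_C_mul_X_pow, if_neg (by omega),
      if_neg (by omega), sub_zero, sub_zero]
  have hgc0 : ∀ i, N + 3 ≤ i → g.coeff i = 0 := by
    intro i hi
    rw [hg, coeff_sub, coeff_sub, coeff_X_pow, coeff_C_mul_X_pow]
    rcases Nat.lt_trichotomy i (N + 4) with h | h | h
    · have h1 : i = N + 3 := by omega
      rw [if_neg (by omega), if_pos h1, h1, ← ha]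
      ring
    · rw [if_pos h, if_neg (by omega), h, ← hn, coeff_natDegree, hm.leadingCoeff]
      ring
    · rw [if_neg (by omega), if_neg (by omega), coeff_eq_zero_of_natDegree_lt (by omega)]
      ring
  have hgge : ∀ i, Ge P 0 (g.coeff i) := by
    intro i
    rcases lt_or_ge i (N + 3) with h | h
    · rw [hgc i h]
      exact hf i
    · rw [hgc0 i h]
      exact Or.inl rfl
  have hgd : g.natDegree ≤ N + 2 := by
    rw [natDegree_le_iff_coeff_eq_zero]
    intro i hi
    exact hgc0 i (by omega)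
  have hdge : ∀ r : K[X], (∀ i, Ge P 0 (r.coeff i)) → ∀ i, Ge P 0 ((derivative r).coeff i) := by
    intro r hr i
    rw [coeff_derivative]
    have h1 := (hr (i + 1)).mul (ge_nat (P := P) (K := K) (i + 1))
    simpa using h1
  have hf0 : f = X ^ (N + 4) + C a * X ^ (N + 3) + g := by
    rw [hg]
    ring
  have hf1 : derivative f = C ((N : K) + 4) * X ^ (N + 3) + C (a * ((N : K) + 3)) * X ^ (N + 2) +
      derivative g := by
    rw [hf0]
    simp only [derivative_add, derivative_X_pow, derivative_C_mul_X_pow]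
    push_cast
    rfl
  have hf2 : derivative (derivative f) = C (((N : K) + 4) * ((N : K) + 3)) * X ^ (N + 2) +
      C (a * ((N : K) + 3) * ((N : K) + 2)) * X ^ (N + 1) + derivative (derivative g) := by
    rw [hf1]
    simp only [derivative_add, derivative_C_mul_X_pow]
    push_cast
    rfl
  have e0 : f.eval x = x ^ (N + 4) + a * x ^ (N + 3) + g.eval x := by
    conv_lhs => rw [hf0]
    simp
  have e1 : (derivative f).eval x = ((N : K) + 4) * x ^ (N + 3) + a * ((N : K) + 3) * x ^ (N + 2) +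
      (derivative g).eval x := by
    rw [hf1]
    simp
  have e2 : (derivative (derivative f)).eval x = ((N : K) + 4) * ((N : K) + 3) * x ^ (N + 2) +
      a * ((N : K) + 3) * ((N : K) + 2) * x ^ (N + 1) + (derivative (derivative g)).eval x := by
    rw [hf2]
    simp
  obtain ⟨g0, hg0⟩ : ∃ g0, g0 = g.eval x := ⟨_, rfl⟩
  obtain ⟨g1, hg1⟩ : ∃ g1, g1 = (derivative g).eval x := ⟨_, rfl⟩
  obtain ⟨g2, hg2⟩ : ∃ g2, g2 = (derivative (derivative g)).eval x := ⟨_, rfl⟩
  have o0 : Ge P ((N + 2 : ℤ) * P.ord x) g0 := by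
    rw [hg0]
    exact pole_ge hx hgge (Or.inr (by exact_mod_cast hgd))
  have o1 : Ge P ((N + 1 : ℤ) * P.ord x) g1 := by
    rw [hg1]
    refine pole_ge hx (hdge _ hgge) (Or.inr ?_)
    have := natDegree_derivative_le g
    have h2 : (derivative g).natDegree ≤ N + 1 := by omega
    exact_mod_cast h2
  have o2 : Ge P ((N : ℤ) * P.ord x) g2 := by
    rw [hg2]
    refine pole_ge hx (hdge _ (hdge _ hgge)) (Or.inr ?_)
    have := natDegree_derivative_le g
    have := natDegree_derivative_le (derivative g)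
    have h2 : (derivative (derivative g)).natDegree ≤ N := by omega
    exact_mod_cast h2
  have ox : ∀ i : ℕ, Ge P ((i : ℤ) * P.ord x) (x ^ i) := fun i =>
    (Pool.Agent.W602.GT.ge_ord P x).pow i
  have hN : ∀ c : ℤ, Ge P 0 (c : K) := fun c => Ge.intCast c
  have key : (hessp (N + 4) f).eval x =
      (((N + 4) * (N + 3) * (N + 2) - (N + 3) ^ 3 : ℤ) : K) * (a * (a * x ^ (2 * N + 4))) +
      (((N + 4) : ℤ) : K) * (x ^ (N + 4) * g2) +
      (((N + 4) : ℤ) : K) * (a * (x ^ (N + 3) * g2)) +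
      (((N + 4) * (N + 4) * (N + 3) : ℤ) : K) * (x ^ (N + 2) * g0) +
      (((N + 4) * (N + 3) * (N + 2) : ℤ) : K) * (a * (x ^ (N + 1) * g0)) +
      (((N + 4) : ℤ) : K) * (g0 * g2) +
      ((-(2 * (N + 3) * (N + 4)) : ℤ) : K) * (x ^ (N + 3) * g1) +
      ((-(2 * (N + 3) * (N + 3)) : ℤ) : K) * (a * (x ^ (N + 2) * g1)) +
      ((-(N + 3) : ℤ) : K) * (g1 * g1) := by
    unfold hessp
    simp only [eval_sub, eval_mul, eval_C, eval_pow]
    rw [e0, e1, e2, ← hg0, ← hg1, ← hg2]
    push_cast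
    ring
  rw [key]
  have ho : P.ord x ≤ 0 := hx
  have hNn : (0 : ℤ) ≤ N := by positivity
  refine Ge.add (Ge.add (Ge.add (Ge.add (Ge.add (Ge.add (Ge.add (Ge.add ?_ ?_) ?_) ?_) ?_) ?_) ?_)
    ?_) ?_
  · exact ((hN _).mul (hga.mul (hga.mul (ox _)))).mono (by push_cast; nlinarith)
  · exact ((hN _).mul ((ox _).mul o2)).mono (by push_cast; nlinarith)
  · exact ((hN _).mul (hga.mul ((ox _).mul o2))).mono (by push_cast; nlinarith)
  · exact ((hN _).mul ((ox _).mul o0)).mono (by push_cast; nlinarith)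
  · exact ((hN _).mul (hga.mul ((ox _).mul o0))).mono (by push_cast; nlinarith)
  · exact ((hN _).mul (o0.mul o2)).mono (by push_cast; nlinarith)
  · exact ((hN _).mul ((ox _).mul o1)).mono (by push_cast; nlinarith)
  · exact ((hN _).mul (hga.mul ((ox _).mul o1))).mono (by push_cast; nlinarith)
  · exact ((hN _).mul (o1.mul o1)).mono (by push_cast; nlinarith)

/-- the Hessian at a pole of `x`, odd degree -/
theorem hess_pole_odd {P : Place ℂ K} {x : K} (hx : P.ord x ≤ 0) {f : K[X]}
    (hf : ∀ i, Ge P 0 (f.coeff i)) {n m : ℕ} (hn : f.natDegree = n + 2) :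
    Ge P ((2 * n + 2 : ℤ) * P.ord x) ((hessp m f).eval x) := by
  have hdge : ∀ r : K[X], (∀ i, Ge P 0 (r.coeff i)) → ∀ i, Ge P 0 ((derivative r).coeff i) := by
    intro r hr i
    rw [coeff_derivative]
    have h1 := (hr (i + 1)).mul (ge_nat (P := P) (K := K) (i + 1))
    simpa using h1
  have h1 := natDegree_derivative_le f
  have h2 := natDegree_derivative_le (derivative f)
  have o0 : Ge P ((n + 2 : ℤ) * P.ord x) (f.eval x) :=
    pole_ge hx hf (Or.inr (by rw [hn]; push_cast; exact le_rfl))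
  have o1 : Ge P ((n + 1 : ℤ) * P.ord x) ((derivative f).eval x) :=
    pole_ge hx (hdge _ hf) (Or.inr (by
      have h3 : (derivative f).natDegree ≤ n + 1 := by omega
      exact_mod_cast h3))
  have o2 : Ge P ((n : ℤ) * P.ord x) ((derivative (derivative f)).eval x) :=
    pole_ge hx (hdge _ (hdge _ hf)) (Or.inr (by
      have h3 : (derivative (derivative f)).natDegree ≤ n := by omega
      exact_mod_cast h3))
  unfold hessp
  simp only [eval_sub, eval_mul, eval_C, eval_pow]
  have hm1 : Ge P 0 (-((m : K) - 1)) := by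
    have := Ge.intCast (P := P) (-((m : ℤ) - 1))
    simpa using this
  rw [sub_eq_add_neg, ← neg_mul]
  refine Ge.add ?_ ?_
  · exact (((ge_nat m).mul o0).mul o2).mono (by nlinarith)
  · exact (hm1.mul (o1.pow 2)).mono (by push_cast; nlinarith)

end Pool.Agent.X140.EF
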