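import Pool.Agent.X140.EF.Hess

/-!
The discriminant and the Hessian form of a hyperelliptic curve along the fibres: the dichotomy.
-/

set_option autoImplicit false

open FF Module Pool.Agent.W603.LV Pool.Agent.W602.GT Pool.Agent.W602.Cov Pool.Agent.W602.Cov.G
open Pool.Agent.W168.CG.PGR Pool.Agent.TH152.AC Pool.Agent.TH152.HY Pool.Agent.TH766.MC
open Polynomial Pool.Agent.TH585.SV

namespace Pool.Agent.X140.EF

variable {K : Type} [Field K] [Algebra ℂ K]

theorem hasse_two (f : K[X]) (x : K) :
    (derivative (derivative f)).eval x = 2 * (hasseDeriv 2 f).eval x := by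
  have h1 := der_hasse f 1
  rw [hasseDeriv_one] at h1
  rw [h1]
  simp
  norm_num

/-- the Hessian form at the places with logarithmic derivations -/
theorem hess_log {P : Place ℂ K} {G : Derivation ℂ K K}
    (hlog : ∀ f : K, f ≠ 0 → Ge P (P.ord f) (G f)) {f : K[X]} (hf : ∀ i, G (f.coeff i) = 0)
    {x : K} (hu : f.eval x ≠ 0) (m : ℕ) :
    Ge P 0 ((hessp m f).eval x * G x ^ 2 / f.eval x ^ 2) := by
  by_cases hGx : G x = 0
  · left
    rw [hGx]
    simp
  have h1 := taylor_ge hlog hf hGx 1
  have h2 := taylor_ge hlog hf hGx 2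
  have hm1 : Ge P 0 (-((m : K) - 1)) := by
    have := Ge.intCast (P := P) (-((m : ℤ) - 1))
    simpa using this
  have h3 : (hessp m f).eval x * G x ^ 2 / f.eval x ^ 2 =
      (m : K) * (2 : ℕ) * ((f.eval x * (hasseDeriv 2 f).eval x) * (G x ^ 2 / f.eval x ^ 2)) +
      -((m : K) - 1) * (((hasseDeriv 1 f).eval x) ^ 2 * (G x ^ 2 / f.eval x ^ 2)) := by
    unfold hessp
    simp only [eval_sub, eval_mul, eval_C, eval_pow]
    rw [hasse_two, hasseDeriv_one]
    push_cast
    ring
  have h4 : Ge P (2 * P.ord (G x) - 2 * P.ord (f.eval x)) (G x ^ 2 / f.eval x ^ 2) := by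
    right
    rw [P.ord_div (pow_ne_zero _ hGx) (pow_ne_zero _ hu), P.ord_pow, P.ord_pow]
    push_cast
    linarith
  rw [h3]
  refine Ge.add ?_ ?_
  · exact (((ge_nat m).mul (ge_nat 2)).mul
      (((Pool.Agent.W602.GT.ge_ord P _).mul h2).mul h4)).mono (by push_cast; linarith)
  · exact (hm1.mul ((h1.pow 2).mul h4)).mono (by push_cast; linarith)

/-- **The discriminant form and the Hessian form.** -/
theorem hess_ge {P : Place ℂ K} {G : Derivation ℂ K K} (hG : DerReg P G) {f : K[X]}
    (hf : ∀ i, G (f.coeff i) = 0) (hm : f.Monic) (hn : 3 ≤ f.natDegree)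
    (hres : resultant f (derivative f) f.natDegree (f.natDegree - 1) ≠ 0) {c x y : K}
    (hc : G c = 0) (hc0 : c ≠ 0) (hxy : y ^ 2 = c * f.eval x) (hu : f.eval x ≠ 0)
    (hGx : G x ≠ 0) {n' : ℕ} (hn' : n' = f.natDegree + f.natDegree % 2) :
    (Ge P 0 (resultant f (derivative f) f.natDegree (f.natDegree - 1) *
        G x ^ (n' * (n' - 1)) / f.eval x ^ (2 * (n' - 1))) ∧
      Ge P 0 ((hessp n' f).eval x * G x ^ 2 / f.eval x ^ 2)) ∨
    (Ge P ((n' - 1) * (n' - 4) : ℤ) (resultant f (derivative f) f.natDegree (f.natDegree - 1) *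
        G x ^ (n' * (n' - 1)) / f.eval x ^ (2 * (n' - 1))) ∧
      Ge P (-2) ((hessp n' f).eval x * G x ^ 2 / f.eval x ^ 2)) := by
  have : CharZero K := charZero_of_injective_algebraMap (algebraMap ℂ K).injective
  have hge := hyp_ge hG hf hm hn hres hc hc0 hxy hu hn'
  have hn4 : 4 ≤ n' := by omega
  obtain ⟨m, rfl⟩ : ∃ m, n' = m + 1 := ⟨n' - 1, by omega⟩
  simp only [Nat.add_sub_cancel] at hge ⊢
  obtain ⟨R, hR⟩ : ∃ R, R = resultant f (derivative f) f.natDegree (f.natDegree - 1) := ⟨_, rfl⟩
  rw [← hR] at hres hge ⊢
  obtain ⟨hGR, p, q, hpq⟩ := bezout_const hf (by omega : 0 < f.natDegree)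
  rw [← hR] at hGR hpq
  have hx : x ≠ 0 := by
    rintro rfl
    exact hGx (map_zero _)
  have hy : y ≠ 0 := by
    rintro rfl
    have := mul_ne_zero hc0 hu
    rw [← hxy] at this
    exact this (by norm_num)
  by_cases hcst : ∃ a, G a = 0 ∧ P.ord a ≠ 0
  · obtain ⟨a, ha, ha0⟩ := hcst
    have hlog : ∀ f : K, f ≠ 0 → Ge P (P.ord f) (G f) := by
      intro f hf
      have h1 := (Pool.Agent.W602.GT.ge_ord P f).mul (log_of_const hG ha ha0 hf)
      rwa [mul_div_cancel₀ _ hf, add_zero] at h1
    exact Or.inl ⟨hge, hess_log hlog hf hu _⟩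
  · push Not at hcst
    have oR : P.ord R = 0 := hcst R hGR
    have oc : P.ord c = 0 := hcst c hc
    have hcv : ∀ a, G a = 0 → Ge P 0 a := fun a ha => Or.inr (hcst a ha).ge
    have hfi : ∀ i, Ge P 0 (f.coeff i) := fun i => hcv _ (hf i)
    have oy : 2 * P.ord y = P.ord (f.eval x) := by
      have h1 := congrArg P.ord hxy
      rw [P.ord_pow, P.ord_mul hc0 hu, oc, zero_add] at h1
      exact_mod_cast h1
    have hm3 : (3 : ℤ) ≤ m := by omega
    -- the two forms
    have hD : ∀ l : ℤ, (2 * m : ℤ) * P.ord (f.eval x) + l ≤ ((m + 1) * m : ℤ) * P.ord (G x) →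
        Ge P l (R * G x ^ ((m + 1) * m) / f.eval x ^ (2 * m)) := by
      intro l hl
      right
      rw [P.ord_div (mul_ne_zero hres (pow_ne_zero _ hGx)) (pow_ne_zero _ hu),
        P.ord_mul hres (pow_ne_zero _ hGx), P.ord_pow, P.ord_pow, oR]
      push_cast
      linarith
    have hH : ∀ l e : ℤ, Ge P e ((hessp (m + 1) f).eval x) →
        l + 2 * P.ord (f.eval x) ≤ e + 2 * P.ord (G x) →
        Ge P l ((hessp (m + 1) f).eval x * G x ^ 2 / f.eval x ^ 2) := by
      intro l e he hl
      have h4 : Ge P (2 * P.ord (G x) - 2 * P.ord (f.eval x)) (G x ^ 2 / f.eval x ^ 2) := by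
        right
        rw [P.ord_div (pow_ne_zero _ hGx) (pow_ne_zero _ hu), P.ord_pow, P.ord_pow]
        push_cast
        linarith
      have h5 := he.mul h4
      rw [← mul_div_assoc] at h5
      exact h5.mono (by linarith)
    have hN : (m + 1 : ℤ) = f.natDegree + f.natDegree % 2 := by
      have := congrArg (Nat.cast : ℕ → ℤ) hn'
      push_cast at this
      exact this
    have hN3 : (3 : ℤ) ≤ f.natDegree := by exact_mod_cast hn
    rcases lt_or_ge (P.ord x) 0 with hx1 | hx1
    · -- a pole
      have hfn : P.ord (f.eval x) = f.natDegree * P.ord x := by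
        have h1 : f.eval x = (∑ i ∈ Finset.range f.natDegree, f.coeff i * x ^ i) +
            x ^ f.natDegree := by
          rw [eval_eq_sum_range, Finset.sum_range_succ]
          congr 1
          rw [coeff_natDegree, hm.leadingCoeff, one_mul]
        have h2 : Ge P ((f.natDegree - 1 : ℤ) * P.ord x)
            (∑ i ∈ Finset.range f.natDegree, f.coeff i * x ^ i) := by
          refine Ge.sum _ _ fun i hi => ?_
          have h3 := (hcv _ (hf i)).mul ((Pool.Agent.W602.GT.ge_ord P x).pow i)
          refine h3.mono ?_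
          have h4 : (i : ℤ) ≤ f.natDegree - 1 := by
            have := Finset.mem_range.1 hi
            omega
          nlinarith
        rw [h1]
        rcases h2 with h2 | h2
        · rw [h2, zero_add, P.ord_pow]
        · by_cases h3 : ∑ i ∈ Finset.range f.natDegree, f.coeff i * x ^ i = 0
          · rw [h3, zero_add, P.ord_pow]
          · rw [add_comm, (P.ord_add_eq (pow_ne_zero _ hx) h3 (by
              rw [P.ord_pow]
              nlinarith)).2, P.ord_pow]
      have h1 : P.ord x - 1 ≤ P.ord (G x) := by
        rcases reg_ord hG hx with h1 | h1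
        · exact absurd h1 hGx
        · exact h1
      rw [hfn] at oy hD hH
      rcases Nat.even_or_odd f.natDegree with h2 | h2
      · have h3 : (f.natDegree : ℤ) % 2 = 0 := by
          have := Nat.even_iff.1 h2
          exact_mod_cast this
        rw [h3, add_zero] at hN
        left
        refine ⟨hge, ?_⟩
        obtain ⟨N, hN4⟩ : ∃ N, f.natDegree = N + 4 := ⟨f.natDegree - 4, by
          have := Nat.even_iff.1 h2
          omega⟩
        have hmN : m + 1 = N + 4 := by omega
        have h4 := hess_pole_even hx1.le hfi hm hN4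
        rw [← hmN] at h4
        refine hH 0 _ h4 ?_
        rw [hN4]
        push_cast
        nlinarith
      · have h3 : (f.natDegree : ℤ) % 2 = 1 := by
          have := Nat.odd_iff.1 h2
          exact_mod_cast this
        rw [h3] at hN
        have h2' : Odd (f.natDegree : ℤ) := by exact_mod_cast h2
        have h4 : Even (P.ord x) := by
          have h5 : Even ((f.natDegree : ℤ) * P.ord x) := ⟨P.ord y, by linarith⟩
          rcases Int.even_mul.1 h5 with h6 | h6
          · exact absurd h2' (Int.not_odd_iff_even.2 h6)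
          · exact h6
        have h5 : P.ord x ≤ -2 := by
          obtain ⟨r, hr⟩ := h4
          omega
        right
        obtain ⟨n0, hn0⟩ : ∃ n0, f.natDegree = n0 + 2 := ⟨f.natDegree - 2, by omega⟩
        have hmn : (m : ℤ) = f.natDegree := by linarith
        refine ⟨hD _ ?_, hH _ _ (hess_pole_odd hx1.le hfi (m := m + 1) hn0) ?_⟩
        · push_cast
          rw [← hmn]
          have k1 := mul_nonneg (mul_nonneg (by linarith : (0 : ℤ) ≤ (m : ℤ) + 1)
            (by linarith : (0 : ℤ) ≤ (m : ℤ)))
            (by linarith : (0 : ℤ) ≤ P.ord (G x) - (P.ord x - 1))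
          have k2 := mul_nonneg (mul_nonneg (by linarith : (0 : ℤ) ≤ (m : ℤ))
            (by linarith : (0 : ℤ) ≤ (m : ℤ) - 1)) (by linarith : (0 : ℤ) ≤ -2 - P.ord x)
          linarith
        · rw [hn0]
          push_cast
          nlinarith
    · have gx : x ∈ vring P := Or.inr hx1
      have hpv : ∀ r : (cring G)[X], (r.map (cring G).subtype).eval x ∈ vring P := by
        intro r
        rw [eval_map, eval₂_eq_sum_range]
        exact (vring P).sum_mem fun i _ => (vring P).mul_mem (hcv _ (Subtype.coe_prop (r.coeff i)))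
          ((vring P).pow_mem gx i)
      have gGx : 0 ≤ P.ord (G x) := by
        rcases hG x (Or.inr hx1) with h1 | h1
        · exact absurd h1 hGx
        · exact h1
      have gfx : ∀ r : K[X], (∀ i, G (r.coeff i) = 0) → Ge P 0 (r.eval x) := by
        intro r hr
        have h1 : r.eval x ∈ vring P := by
          rw [eval_eq_sum_range]
          exact (vring P).sum_mem fun i _ => (vring P).mul_mem (hcv _ (hr i))
            ((vring P).pow_mem gx i)
        exact h1
      have hf1 := der_coeff_const hf
      have hf2 := der_coeff_const hf1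
      have hhess : Ge P 0 ((hessp (m + 1) f).eval x) := by
        unfold hessp
        simp only [eval_sub, eval_mul, eval_C, eval_pow]
        have hm1 : Ge P 0 (-(((m + 1 : ℕ) : K) - 1)) := by
          have := Ge.intCast (P := P) (-((((m + 1 : ℕ)) : ℤ) - 1))
          simpa using this
        rw [sub_eq_add_neg, ← neg_mul]
        refine Ge.add ?_ ?_
        · exact (((ge_nat _).mul (gfx _ hf)).mul (gfx _ hf2)).mono (by simp)
        · exact (hm1.mul ((gfx _ hf1).pow 2)).mono (by simp)
      rcases le_or_gt (P.ord (f.eval x)) 0 with hu0 | hu0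
      · left
        exact ⟨hge, hH 0 0 hhess (by linarith)⟩
      · right
        have h1 := congrArg (eval x) hpq
        rw [eval_add, eval_mul, eval_mul, eval_C] at h1
        have hf'0 : (derivative f).eval x ≠ 0 := by
          intro h0
          rw [h0, zero_mul, add_zero] at h1
          have h2 : Ge P (P.ord (f.eval x)) (f.eval x * (p.map (cring G).subtype).eval x) := by
            have := (Pool.Agent.W602.GT.ge_ord P (f.eval x)).mul (mem_vring.1 (hpv p))
            rwa [add_zero] at this
          rw [h1] at h2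
          rcases h2 with h2 | h2
          · exact hres h2
          · omega
        have of' : P.ord ((derivative f).eval x) ≤ 0 := by
          by_contra hcon
          push Not at hcon
          have h2 : Ge P 1 (f.eval x * (p.map (cring G).subtype).eval x +
              (derivative f).eval x * (q.map (cring G).subtype).eval x) := by
            refine Ge.add ?_ ?_
            · have := (Pool.Agent.W602.GT.ge_ord P (f.eval x)).mul (mem_vring.1 (hpv p))
              exact this.mono (by omega)
            · have := (Pool.Agent.W602.GT.ge_ord P ((derivative f).eval x)).mul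
                (mem_vring.1 (hpv q))
              exact this.mono (by omega)
          rw [h1] at h2
          rcases h2 with h2 | h2
          · exact hres h2
          · omega
        have h2 : G (f.eval x) = (derivative f).eval x * G x := der_eval hf x
        have hne : G (f.eval x) ≠ 0 := by
          rw [h2]
          exact mul_ne_zero hf'0 hGx
        have h3 : P.ord (f.eval x) - 1 ≤ P.ord (G (f.eval x)) := by
          rcases reg_ord hG hu with h4 | h4
          · exact absurd h4 hne
          · exact h4
        rw [h2, P.ord_mul hf'0 hGx] at h3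
        have h4 : P.ord (f.eval x) - 1 ≤ P.ord (G x) := by linarith
        have h5 : 1 ≤ P.ord y := by omega
        rw [← oy] at h4 hD hH
        refine ⟨hD _ ?_, hH _ 0 hhess (by linarith)⟩
        push_cast
        nlinarith [mul_nonneg (by linarith : (0 : ℤ) ≤ m) (by linarith : (0 : ℤ) ≤ P.ord y - 1),
          mul_nonneg (mul_nonneg (by linarith : (0 : ℤ) ≤ m) (by linarith : (0 : ℤ) ≤ (m : ℤ) - 1))
            (by linarith : (0 : ℤ) ≤ P.ord y - 1),
          mul_nonneg (mul_nonneg (by linarith : (0 : ℤ) ≤ (m : ℤ) + 1) (by linarith : (0 : ℤ) ≤ m))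
            (by linarith : (0 : ℤ) ≤ P.ord (G x) - (2 * P.ord y - 1))]

end Pool.Agent.X140.EF
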