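import Pool.Agent.X180.Abn.Sys1
import Pool.Agent.X140.EF.Base
import Pool.Agent.TH585.SV.Ell2

/-!
Forms along the fibres of a variety whose fibres dominate the product of a variety over the constants
and some elliptic curves.
-/

set_option autoImplicit false
set_option linter.overlappingInstances false

open FF Pool.Agent.W602.GT Pool.Agent.W603.LV Pool.Agent.W619.PQ Pool.Agent.W619.Y
open Pool.Agent.TH585.SV Pool.Agent.Y172 Pool.Agent.Y191 Pool.Agent.X180.Iso

namespace Pool.Agent.X140.EF



section mat

variable {K : Type} [Field K] [Algebra ℂ K] {r s : ℕ}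

/-- the matrix of the values -/
noncomputable def mixm {U : IntermediateField ℂ K} (x w : Fin r → K) (y : Fin s → K)
    (G : Fin (r + s) → Derivation U K K) : Matrix (Fin (r + s)) (Fin (r + s)) K :=
  Matrix.of fun i => Fin.append (fun j => G i (x j) / w j) (fun l => G i (y l))

theorem mixm_mul {U : IntermediateField ℂ K} (x w : Fin r → K) (y : Fin s → K)
    (A : Matrix (Fin (r + s)) (Fin (r + s)) K) (G : Fin (r + s) → Derivation U K K) :
    mixm x w y (fun i => ∑ l, A i l • G l) = A * mixm x w y G := by
  ext i c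
  rw [Matrix.mul_apply]
  unfold mixm
  refine Fin.addCases (fun j => ?_) (fun l => ?_) c
  · simp only [Matrix.of_apply, Fin.append_left]
    rw [sum_smul_apply, Finset.sum_div]
    refine Finset.sum_congr rfl fun l _ => ?_
    rw [mul_div_assoc]
  · simp only [Matrix.of_apply, Fin.append_right]
    rw [sum_smul_apply]

end mat

section loc

variable {K : Type} [Field K] [Algebra ℂ K] {r s : ℕ}

/-- **The product of the discriminant form and a form of a subfield.** -/
theorem fib_of_mix {N m : ℕ} (hN : Algebra.trdeg ℂ K = N) (U M : IntermediateField ℂ K)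
    [Algebra.EssFiniteType ℂ M] (hM : Algebra.trdeg ℂ M = s)
    {η : (Fin s → Derivation ℂ M M) → M} (hη : IsPluriForm ℂ M s (12 * m) η)
    (hreg : ∀ u : Place ℂ M, IsDivisorial u s → RegularAt u s η)
    {y : Fin s → M} {E : Fin s → Derivation ℂ M M} (hy : IsTranscendenceBasis ℂ y)
    (hE : ∀ i j, E i (y j) = if i = j then 1 else 0)
    {A B x w : Fin r → K} (hA : ∀ j, IsAlgebraic U (A j)) (hB : ∀ j, IsAlgebraic U (B j))
    (hxw : ∀ j, w j ^ 2 = x j ^ 3 + A j * x j + B j)
    (hΔ : ∀ j, 4 * A j ^ 3 + 27 * B j ^ 2 ≠ 0) (X : Set (Place ℂ K)) :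
    FibSec N (12 * m) X (fun _ => 0) U (fun G => (∏ j, (4 * A j ^ 3 + 27 * B j ^ 2)) ^ m *
      (mixm x w (fun l => ((y l : M) : K)) G).det ^ (12 * m) * ((η E : M) : K)) := by
  classical
  refine ⟨fun A' D => ?_, fun P _ hP G hG => ?_⟩
  · change _ * (mixm x w (fun l => ((y l : M) : K)) (fun i => ∑ l, A' i l • D l)).det ^ (12 * m) *
      _ = _
    rw [mixm_mul, Matrix.det_mul, mul_pow]
    ring
  · obtain ⟨Z, z, hz, hZ, hge⟩ := pYLOC ℂ K M s N (12 * m) hM hN (fun y hy => fin_over y hy) η hη
      hreg y E hy hE P hP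
    -- the change of the columns
    obtain ⟨T, hT⟩ : ∃ T : Matrix (Fin (r + s)) (Fin (r + s)) K,
        T = Matrix.reindex finSumFinEquiv finSumFinEquiv (Matrix.fromBlocks 1 0 0 Z.transpose) :=
      ⟨_, rfl⟩
    have hTdet : T.det = Z.det := by
      rw [hT, Matrix.det_reindex_self, Matrix.det_fromBlocks_zero₂₁, Matrix.det_one, one_mul,
        Matrix.det_transpose]
    have e1 : mixm x w (fun l => ((y l : M) : K)) G = mixm x w z G * T := by
      ext i c
      rw [Matrix.mul_apply, Fin.sum_univ_add]
      refine Fin.addCases (fun j => ?_) (fun l => ?_) c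
      · have h1 : ∀ a : Fin r, T (Fin.castAdd s a) (Fin.castAdd s j) = if a = j then 1 else 0 := by
          intro a
          rw [hT, Matrix.reindex_apply, Matrix.submatrix_apply, finSumFinEquiv_symm_apply_castAdd,
            finSumFinEquiv_symm_apply_castAdd, Matrix.fromBlocks_apply₁₁, Matrix.one_apply]
        have h2 : ∀ b : Fin s, T (Fin.natAdd r b) (Fin.castAdd s j) = 0 := by
          intro b
          rw [hT, Matrix.reindex_apply, Matrix.submatrix_apply, finSumFinEquiv_symm_apply_castAdd,
            finSumFinEquiv_symm_apply_natAdd, Matrix.fromBlocks_apply₂₁, Matrix.zero_apply]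
        simp only [h1, h2, mul_zero, Finset.sum_const_zero, add_zero, mul_ite, mul_one,
          Finset.sum_ite_eq', Finset.mem_univ, if_true]
        unfold mixm
        simp only [Matrix.of_apply, Fin.append_left]
      · have h1 : ∀ a : Fin r, T (Fin.castAdd s a) (Fin.natAdd r l) = 0 := by
          intro a
          rw [hT, Matrix.reindex_apply, Matrix.submatrix_apply, finSumFinEquiv_symm_apply_castAdd,
            finSumFinEquiv_symm_apply_natAdd, Matrix.fromBlocks_apply₁₂, Matrix.zero_apply]
        have h2 : ∀ b : Fin s, T (Fin.natAdd r b) (Fin.natAdd r l) = Z l b := by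
          intro b
          rw [hT, Matrix.reindex_apply, Matrix.submatrix_apply, finSumFinEquiv_symm_apply_natAdd,
            finSumFinEquiv_symm_apply_natAdd, Matrix.fromBlocks_apply₂₂, Matrix.transpose_apply]
        simp only [h1, h2, mul_zero, Finset.sum_const_zero, zero_add]
        unfold mixm
        simp only [Matrix.of_apply, Fin.append_right]
        have h3 := hZ ((G i).restrictScalars ℂ) l
        refine h3.trans (Finset.sum_congr rfl fun c _ => ?_)
        rw [mul_comm]
        rfl
    -- the orders of the columns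
    have h1 : ∀ i j, Ge P (-(P.ord (4 * A j ^ 3 + 27 * B j ^ 2) / 12)) (G i (x j) / w j) := by
      intro i j
      have h2 := ell_ge (P := P) (G := (G i).restrictScalars ℂ) (fun f hf => hG i f hf)
        (der_alg (G i) (hA j)) (der_alg (G i) (hB j)) (hxw j) (hΔ j)
      change Ge P 0 ((4 * A j ^ 3 + 27 * B j ^ 2) * (G i (x j) / w j) ^ 12) at h2
      by_cases h0 : G i (x j) / w j = 0
      · exact Or.inl h0
      · rcases h2 with h2 | h2
        · exact absurd h2 (mul_ne_zero (hΔ j) (pow_ne_zero _ h0))
        · right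
          rw [P.ord_mul (hΔ j) (pow_ne_zero _ h0), P.ord_pow] at h2
          push_cast at h2
          omega
    have h2 := ge_det' P (mixm x w z G) (∑ j, -(P.ord (4 * A j ^ 3 + 27 * B j ^ 2) / 12))
      (fun _ c => Fin.append (fun j => -(P.ord (4 * A j ^ 3 + 27 * B j ^ 2) / 12))
        (fun _ : Fin s => (0 : ℤ)) c) (fun i c => by
        unfold mixm
        refine Fin.addCases (fun j => ?_) (fun l => ?_) c
        · simp only [Matrix.of_apply, Fin.append_left]
          exact h1 i j
        · simp only [Matrix.of_apply, Fin.append_right]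
          exact hG i _ (hz l))
      (fun σ => by
        rw [Fin.sum_univ_add]
        simp only [Fin.append_left, Fin.append_right, Finset.sum_const_zero, add_zero]
        exact le_rfl)
    have h3 := Ge.prod (P := P) Finset.univ (fun j => 4 * A j ^ 3 + 27 * B j ^ 2)
      (fun j => P.ord (4 * A j ^ 3 + 27 * B j ^ 2)) (fun j _ => Pool.Agent.W602.GT.ge_ord P _)
    have h4 := ((h3.pow m).mul (h2.pow (12 * m))).mul hge
    have e2 : (∏ j, (4 * A j ^ 3 + 27 * B j ^ 2)) ^ m * (mixm x w z G).det ^ (12 * m) *
        (((η E : M) : K) * Z.det ^ (12 * m)) = (∏ j, (4 * A j ^ 3 + 27 * B j ^ 2)) ^ m *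
          (mixm x w (fun l => ((y l : M) : K)) G).det ^ (12 * m) * ((η E : M) : K) := by
      rw [e1, Matrix.det_mul, hTdet]
      ring
    rw [e2] at h4
    have h5 : Ge P 0 ((∏ j, (4 * A j ^ 3 + 27 * B j ^ 2)) ^ m *
          (mixm x w (fun l => ((y l : M) : K)) G).det ^ (12 * m) * ((η E : M) : K)) := by
      refine h4.mono ?_
      have h6 : (0 : ℤ) ≤ ∑ j, (P.ord (4 * A j ^ 3 + 27 * B j ^ 2) +
          12 * -(P.ord (4 * A j ^ 3 + 27 * B j ^ 2) / 12)) :=
        Finset.sum_nonneg fun j _ => by omega
      rw [Finset.sum_add_distrib, ← Finset.mul_sum] at h6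
      have h7 := mul_nonneg (Nat.cast_nonneg (α := ℤ) m) h6
      push_cast
      nlinarith [h7]
    rcases h5 with h5 | h5
    · exact Or.inl h5
    · right
      have h6 : (0 : ℝ) ≤ (P.ord ((∏ j, (4 * A j ^ 3 + 27 * B j ^ 2)) ^ m *
          (mixm x w (fun l => ((y l : M) : K)) G).det ^ (12 * m) * ((η E : M) : K)) : ℝ) := by
        exact_mod_cast h5
      simpa using h6

end loc

end Pool.Agent.X140.EF
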