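import Pool.Agent.X140.EF.Cov3

/-!
The discriminant forms and the moduli: the forms along the fibres multiplied with the cross ratios of
the branch points.
-/

set_option autoImplicit false
set_option linter.overlappingInstances false

open FF Pool.Agent.W602.GT Pool.Agent.W603.LV Pool.Agent.TH585.SV Pool.Agent.X180.Iso
open Pool.Agent.W602.Cov Pool.Agent.W602.Cov.G
open Pool.Agent.W168.CG.PGR Pool.Agent.TH152.AC Pool.Agent.TH152.HY Pool.Agent.TH766.MC
open Polynomial

namespace Pool.Agent.X140.EF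

section alg

variable {K : Type} [Field K]

/-- the polynomial with the given roots -/
noncomputable def rp (R : Finset K) : K[X] := ∏ a ∈ R, (X - C a)

theorem rp_monic (R : Finset K) : (rp R).Monic := monic_prod_of_monic _ _ fun a _ => monic_X_sub_C a

theorem rp_natDegree (R : Finset K) : (rp R).natDegree = R.card := by
  unfold rp
  rw [natDegree_prod_of_monic _ _ fun a _ => monic_X_sub_C a]
  simp

theorem rp_separable (R : Finset K) : (rp R).Separable := by
  unfold rp
  exact separable_prod_X_sub_C_iff'.2 fun x _ y _ h => h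

theorem rp_eval (R : Finset K) (x : K) : (rp R).eval x = ∏ a ∈ R, (x - a) := by
  unfold rp
  rw [eval_prod]
  simp

theorem rp_roots (R : Finset K) : (rp R).roots = R.val := by
  unfold rp
  exact roots_prod_X_sub_C R

theorem rp_splits (R : Finset K) : (rp R).Splits := by
  rw [splits_iff_card_roots, rp_roots, rp_natDegree]
  rfl

theorem rp_map {A : Type} [Field A] (φ : A →+* K) (R : Finset A) :
    (rp R).map φ = rp (R.map ⟨φ, φ.injective⟩) := by
  unfold rp
  rw [Polynomial.map_prod, Finset.prod_map]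
  simp

/-- the discriminant as a product of differences -/
theorem disc_rp [DecidableEq K] (R : Finset K) :
    disc (rp R) = ∏ p ∈ R.offDiag, (p.1 - p.2) := by
  have h1 : disc (rp R) = ∏ a ∈ R, (derivative (rp R)).eval a := by
    unfold disc
    rw [resultant_eq_prod_eval _ _ _ (natDegree_derivative_le _) (rp_splits R),
      (rp_monic R).leadingCoeff, one_pow, one_mul, rp_roots]
    rfl
  have h2 : ∀ a ∈ R, (derivative (rp R)).eval a = ∏ b ∈ R.erase a, (a - b) := by
    intro a ha
    have h3 : rp R = (X - C a) * ∏ b ∈ R.erase a, (X - C b) := by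
      unfold rp
      rw [Finset.mul_prod_erase R (fun b => X - C b) ha]
    rw [h3, derivative_mul]
    simp [eval_prod]
  rw [h1, Finset.prod_congr rfl h2]
  symm
  rw [Finset.prod_sigma']
  refine Finset.prod_bij (fun p _ => ⟨p.1, p.2⟩) ?_ ?_ ?_ ?_
  · intro p hp
    rw [Finset.mem_offDiag] at hp
    rw [Finset.mem_sigma, Finset.mem_erase]
    exact ⟨hp.1, Ne.symm hp.2.2, hp.2.1⟩
  · intro p _ q _ h
    simp only [Sigma.mk.injEq, heq_eq_eq] at h
    exact Prod.ext h.1 h.2
  · rintro ⟨a, b⟩ h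
    rw [Finset.mem_sigma, Finset.mem_erase] at h
    exact ⟨(a, b), Finset.mem_offDiag.2 ⟨h.1, h.2.2, Ne.symm h.2.1⟩, rfl⟩
  · intro p _
    rfl

/-- **The moduli** of a finite set of points of the line: the cross ratios of four points, and, if the
number of the points is odd, the ratios of the differences of three points (the cross ratios of these
points and the point at infinity). -/
def Moduli (R : Finset K) : Set K :=
  {z | ∃ a ∈ R, ∃ b ∈ R, ∃ c ∈ R, ∃ d ∈ R, a ≠ b ∧ c ≠ d ∧
    z = (a - d) * (c - b) / ((a - b) * (c - d))} ∪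
  {z | Odd R.card ∧ ∃ a ∈ R, ∃ b ∈ R, ∃ c ∈ R, a ≠ b ∧ z = (c - b) / (a - b)}

end alg

variable {K : Type} [Field K] [Algebra ℂ K]

/-- the edges are regular at the places with logarithmic derivations -/
theorem edge_inf {P : Place ℂ K} {G : Derivation ℂ K K}
    (hlog : ∀ f : K, f ≠ 0 → Ge P (P.ord f) (G f)) {a x : K} (ha : G a = 0) :
    Ge P 0 (G x / (x - a)) := by
  by_cases h0 : x - a = 0
  · left
    rw [h0, div_zero]
  have h1 : G x = G (x - a) := by rw [map_sub, ha, sub_zero]
  rw [h1]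
  have h2 := hlog (x - a) h0
  rcases h2 with h2 | h2
  · left
    rw [h2, zero_div]
  · by_cases h3 : G (x - a) = 0
    · left
      rw [h3, zero_div]
    · right
      rw [P.ord_div h3 h0]
      linarith

theorem edge_ge {P : Place ℂ K} {G : Derivation ℂ K K}
    (hlog : ∀ f : K, f ≠ 0 → Ge P (P.ord f) (G f)) {a b x : K} (ha : G a = 0) (hb : G b = 0)
    (hxa : x - a ≠ 0) (hxb : x - b ≠ 0) : Ge P 0 ((a - b) * G x / ((x - a) * (x - b))) := by
  have h1 : (a - b) * G x / ((x - a) * (x - b)) = G x / (x - a) + -(G x / (x - b)) := by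
    field_simp
    ring
  rw [h1]
  exact Ge.add (edge_inf hlog ha) (edge_inf hlog hb).neg

/-- **The discriminant form multiplied with the moduli.** -/
theorem mod_log {P : Place ℂ K} {G : Derivation ℂ K K}
    (hlog : ∀ f : K, f ≠ 0 → Ge P (P.ord f) (G f)) {R : Finset K} (hR : ∀ a ∈ R, G a = 0)
    {x : K} (hx : ∀ a ∈ R, x - a ≠ 0) {N : ℕ} (hN : N + 4 = R.card + R.card % 2) {z : K}
    (hz : z ∈ Moduli R) (hz1 : z ≠ 1) (hz0 : z ≠ 0) :
    Ge P 0 (z * (colE (rp R) N x * G x ^ ((N + 4) * (N + 3)))) := by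
  classical
  have hE : ∀ p ∈ R.offDiag, Ge P 0 ((p.1 - p.2) * G x / ((x - p.1) * (x - p.2))) := by
    intro p hp
    rw [Finset.mem_offDiag] at hp
    exact edge_ge hlog (hR _ hp.1) (hR _ hp.2.1) (hx _ hp.1) (hx _ hp.2.1)
  have hprod : ∀ T : Finset (K × K), T ⊆ R.offDiag →
      Ge P 0 (∏ p ∈ T, (p.1 - p.2) * G x / ((x - p.1) * (x - p.2))) := by
    intro T hT
    have h1 := Ge.prod (P := P) T (fun p => (p.1 - p.2) * G x / ((x - p.1) * (x - p.2)))
      (fun _ => 0) (fun p hp => hE p (hT hp))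
    simpa using h1
  have hinf : ∀ T : Finset K, T ⊆ R → Ge P 0 (∏ a ∈ T, G x / (x - a)) := by
    intro T hT
    have h1 := Ge.prod (P := P) T (fun a => G x / (x - a)) (fun _ => 0)
      (fun a ha => edge_inf hlog (hR a (hT ha)))
    simpa using h1
  -- the products
  have hden : ∏ p ∈ R.offDiag, ((x - p.1) * (x - p.2)) = (rp R).eval x ^ (2 * (R.card - 1)) := by
    rw [Finset.prod_mul_distrib]
    have h1 : ∏ p ∈ R.offDiag, (x - p.1) = (rp R).eval x ^ (R.card - 1) := by
      rw [rp_eval, ← Finset.prod_pow]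
      have h2 : ∏ p ∈ R.offDiag, (x - p.1) = ∏ a ∈ R, ∏ b ∈ R.erase a, (x - a) := by
        rw [Finset.prod_sigma']
        refine Finset.prod_bij (fun p _ => ⟨p.1, p.2⟩) ?_ ?_ ?_ ?_
        · intro p hp
          rw [Finset.mem_offDiag] at hp
          rw [Finset.mem_sigma, Finset.mem_erase]
          exact ⟨hp.1, Ne.symm hp.2.2, hp.2.1⟩
        · intro p _ q _ h
          simp only [Sigma.mk.injEq, heq_eq_eq] at h
          exact Prod.ext h.1 h.2
        · rintro ⟨a, b⟩ h
          rw [Finset.mem_sigma, Finset.mem_erase] at h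
          exact ⟨(a, b), Finset.mem_offDiag.2 ⟨h.1, h.2.2, Ne.symm h.2.1⟩, rfl⟩
        · intro p _
          rfl
      rw [h2]
      refine Finset.prod_congr rfl fun a ha => ?_
      rw [Finset.prod_const, Finset.card_erase_of_mem ha]
    have h3 : ∏ p ∈ R.offDiag, (x - p.2) = ∏ p ∈ R.offDiag, (x - p.1) := by
      refine Finset.prod_bij (fun p _ => (p.2, p.1)) ?_ ?_ ?_ ?_
      · intro p hp
        rw [Finset.mem_offDiag] at hp ⊢
        exact ⟨hp.2.1, hp.1, Ne.symm hp.2.2⟩
      · intro p _ q _ h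
        simp only [Prod.mk.injEq] at h
        exact Prod.ext h.2 h.1
      · rintro ⟨a, b⟩ h
        rw [Finset.mem_offDiag] at h
        exact ⟨(b, a), Finset.mem_offDiag.2 ⟨h.2.1, h.1, Ne.symm h.2.2⟩, rfl⟩
      · intro p _
        rfl
    rw [h3, h1, ← pow_add]
    congr 1
    omega
  have hcard : R.offDiag.card = R.card * (R.card - 1) := by
    rw [Finset.offDiag_card, Nat.mul_sub, mul_one]
  have hall : ∏ p ∈ R.offDiag, (p.1 - p.2) * G x / ((x - p.1) * (x - p.2)) =
      disc (rp R) * G x ^ (R.card * (R.card - 1)) / (rp R).eval x ^ (2 * (R.card - 1)) := by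
    rw [Finset.prod_div_distrib, Finset.prod_mul_distrib, hden, Finset.prod_const, hcard, disc_rp]
  have hfx : (rp R).eval x ≠ 0 := by
    rw [rp_eval]
    exact Finset.prod_ne_zero_iff.2 hx
  have hinfp : ∏ a ∈ R, G x / (x - a) = G x ^ R.card / (rp R).eval x := by
    rw [Finset.prod_div_distrib, Finset.prod_const, rp_eval]
  -- the edge products
  have key : ∀ a ∈ R, ∀ b ∈ R, ∀ c ∈ R, ∀ d ∈ R, a ≠ b → c ≠ d →
      z = (a - d) * (c - b) / ((a - b) * (c - d)) →
      Ge P 0 (z * ∏ p ∈ R.offDiag, (p.1 - p.2) * G x / ((x - p.1) * (x - p.2))) := by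
    intro a ha b hb c hc d hd hab hcd hzz
    have hne : ((a, b) : K × K) ≠ (c, d) := by
      intro h
      simp only [Prod.mk.injEq] at h
      apply hz1
      have h1 : a - b ≠ 0 := sub_ne_zero.2 hab
      rw [hzz, ← h.1, ← h.2]
      field_simp
    have hm1 : ((a, b) : K × K) ∈ R.offDiag := Finset.mem_offDiag.2 ⟨ha, hb, hab⟩
    have hm2 : ((c, d) : K × K) ∈ R.offDiag.erase (a, b) :=
      Finset.mem_erase.2 ⟨Ne.symm hne, Finset.mem_offDiag.2 ⟨hc, hd, hcd⟩⟩
    rw [← Finset.mul_prod_erase _ _ hm1, ← Finset.mul_prod_erase _ _ hm2]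
    have h1 := ((edge_ge (P := P) (x := x) hlog (hR a ha) (hR d hd) (hx a ha) (hx d hd)).mul
      (edge_ge (P := P) (x := x) hlog (hR c hc) (hR b hb) (hx c hc) (hx b hb))).mul
      (hprod ((R.offDiag.erase (a, b)).erase (c, d)) ((Finset.erase_subset _ _).trans
        (Finset.erase_subset _ _)))
    have h2 : z * ((a - b) * G x / ((x - a) * (x - b)) * ((c - d) * G x / ((x - c) * (x - d)) *
        ∏ p ∈ (R.offDiag.erase (a, b)).erase (c, d),
          (p.1 - p.2) * G x / ((x - p.1) * (x - p.2)))) =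
        (a - d) * G x / ((x - a) * (x - d)) * ((c - b) * G x / ((x - c) * (x - b))) *
        ∏ p ∈ (R.offDiag.erase (a, b)).erase (c, d),
          (p.1 - p.2) * G x / ((x - p.1) * (x - p.2)) := by
      have h3 : a - b ≠ 0 := sub_ne_zero.2 hab
      have h4 : c - d ≠ 0 := sub_ne_zero.2 hcd
      have h5 := hx a ha
      have h6 := hx b hb
      have h7 := hx c hc
      have h8 := hx d hd
      rw [hzz]
      field_simp
    rw [h2]
    simpa using h1
  rcases Nat.mod_two_eq_zero_or_one R.card with h2 | h2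
  · -- an even number of points
    have h4 : R.card = N + 4 := by omega
    have e1 : colE (rp R) N x * G x ^ ((N + 4) * (N + 3)) =
        ∏ p ∈ R.offDiag, (p.1 - p.2) * G x / ((x - p.1) * (x - p.2)) := by
      rw [hall, h4]
      unfold colE
      have e0 : N + 4 - 1 = N + 3 := rfl
      rw [e0]
      ring
    rw [e1]
    rcases hz with ⟨a, ha, b, hb, c, hc, d, hd, hab, hcd, hzz⟩ | ⟨hodd, -⟩
    · exact key a ha b hb c hc d hd hab hcd hzz
    · rw [Nat.odd_iff] at hodd
      omega
  · -- an odd number of points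
    have h4 : R.card = N + 3 := by omega
    have e1 : colE (rp R) N x * G x ^ ((N + 4) * (N + 3)) =
        (∏ p ∈ R.offDiag, (p.1 - p.2) * G x / ((x - p.1) * (x - p.2))) *
          (∏ a ∈ R, G x / (x - a)) ^ 2 := by
      rw [hall, hinfp, h4]
      unfold colE
      have e0 : N + 3 - 1 = N + 2 := rfl
      rw [e0]
      field_simp
      ring
    rw [e1]
    rcases hz with ⟨a, ha, b, hb, c, hc, d, hd, hab, hcd, hzz⟩ | ⟨-, a, ha, b, hb, c, hc, hab, hzz⟩
    · have h5 := (key a ha b hb c hc d hd hab hcd hzz).mul ((hinf R subset_rfl).pow 2)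
      rw [← mul_assoc]
      simpa using h5
    · have hm1 : ((a, b) : K × K) ∈ R.offDiag := Finset.mem_offDiag.2 ⟨ha, hb, hab⟩
      rw [← Finset.mul_prod_erase _ _ hm1]
      have h5 := ((((edge_ge (P := P) (x := x) hlog (hR c hc) (hR b hb) (hx c hc) (hx b hb)).mul
        (edge_inf (P := P) (x := x) hlog (hR a ha))).mul
        (hprod (R.offDiag.erase (a, b)) (Finset.erase_subset _ _))).mul
        (hinf (R.erase c) (Finset.erase_subset _ _))).mul (hinf R subset_rfl)
      have h6 : z * ((a - b) * G x / ((x - a) * (x - b)) *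
          (∏ p ∈ R.offDiag.erase (a, b), (p.1 - p.2) * G x / ((x - p.1) * (x - p.2))) *
          (∏ a ∈ R, G x / (x - a)) ^ 2) =
          (c - b) * G x / ((x - c) * (x - b)) * (G x / (x - a)) *
          (∏ p ∈ R.offDiag.erase (a, b), (p.1 - p.2) * G x / ((x - p.1) * (x - p.2))) *
          (∏ a ∈ R.erase c, G x / (x - a)) * ∏ a ∈ R, G x / (x - a) := by
        have h7 : ∏ a ∈ R, G x / (x - a) = G x / (x - c) * ∏ a ∈ R.erase c, G x / (x - a) :=
          (Finset.mul_prod_erase R (fun a => G x / (x - a)) hc).symm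
        have h3 : a - b ≠ 0 := sub_ne_zero.2 hab
        have h8 := hx a ha
        have h9 := hx b hb
        have h10 := hx c hc
        rw [sq, h7, hzz]
        field_simp
      rw [h6]
      simpa using h5

end Pool.Agent.X140.EF
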