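import Pool.Agent.X140.EF.Mod1

/-!
The orders of the products of the columns, with factors from the moduli.
-/

set_option autoImplicit false
set_option linter.overlappingInstances false

open FF Pool.Agent.W602.GT Pool.Agent.W603.LV Pool.Agent.W619.PQ Pool.Agent.W619.Y
open Pool.Agent.TH585.SV Pool.Agent.Y172 Pool.Agent.Y191 Pool.Agent.X180.Iso
open Polynomial (derivative C X eval resultant)

namespace Pool.Agent.X140.EF

variable {K : Type} [Field K] [Algebra ℂ K] {r : ℕ}

/-- **The orders of the product of the columns.** -/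
theorem cover_ord2 {U : IntermediateField ℂ K} {f : Fin r → Polynomial K} {x : Fin r → K}
    (hdat : CoverData U f x) (hxt : ∀ j, Transcendental U (x j)) {ν e : Fin r → ℕ}
    (hν : ∀ j, ν j + 4 = (f j).natDegree + (f j).natDegree % 2) (he : ∀ j, 0 < e j) {m : ℕ}
    (hm : 0 < m) (hae : ∀ j, 4 * (ν j + 4) * (ν j + 3) * (ν j + 2) * e j = m) {T : Fin r → K}
    (hT : ∀ j, ∃ ζ : K, IsAlgebraic U ζ ∧ ζ ≠ 0 ∧
      (T j = ζ * colA (f j) (ν j) (e j) (x j) ∨ T j = ζ * colB (f j) (ν j) (e j) (x j)))
    (hlogT : ∀ (P : Place ℂ K) (G : Derivation U K K),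
      (∀ g : K, g ≠ 0 → Ge P (P.ord g) (G g)) → ∀ j, Ge P 0 (T j * G (x j) ^ m))
    (P : Place ℂ K) : ∃ b : Fin r → ℤ,
      (∀ j, (∀ G : Derivation U K K, (∀ f, P.Reg f → P.Reg (G f)) → Ge P (b j) (G (x j))) ∨
        ∃ q z : K, z ≠ 0 ∧ Ge P (b j) q ∧ ∀ G : Derivation U K K, G (x j) = q * (G z / z)) ∧
      (((∀ j, ∀ G : Derivation U K K, (∀ f, P.Reg f → P.Reg (G f)) → Ge P (b j) (G (x j))) ∧
        0 ≤ ∑ j, (P.ord (T j) + m * b j)) ∨ (m : ℤ) ≤ ∑ j, (P.ord (T j) + m * b j)) := by
  classical
  have hcK : CharZero K := charZero_of_injective_algebraMap (algebraMap ℂ K).injective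
  have hm' : (0 : ℤ) < m := by exact_mod_cast hm
  have hu : ∀ j, (f j).eval (x j) ≠ 0 := fun j =>
    val_ne (hdat.1 j).1 (hdat.1 j).2.1.ne_zero (hxt j)
  by_cases hcst : ∃ a : K, IsAlgebraic U a ∧ P.ord a ≠ 0
  · -- the vertical places
    obtain ⟨a, ha, ha0⟩ := hcst
    have hT0 : ∀ j, T j ≠ 0 := by
      intro j
      obtain ⟨ζ, -, hζ0, h | h⟩ := hT j
      · rw [h]
        exact mul_ne_zero hζ0 (pow_ne_zero _ (colE_ne (hdat.1 j).2.2.1 _ (hu j)))
      · rw [h]
        exact mul_ne_zero hζ0 (colB_ne (hdat.1 j).1 (hdat.1 j).2.2.1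
          (by have := (hdat.1 j).2.2.2; omega) _ _ (hxt j))
    have hA : ∀ j, ∀ G : Derivation U K K, (∀ f, P.Reg f → P.Reg (G f)) →
        Ge P (-(P.ord (T j) / m)) (G (x j)) := by
      intro j G hG
      have hlog : ∀ f : K, f ≠ 0 → Ge P (P.ord f) ((G.restrictScalars ℂ) f) := by
        intro f hf
        have h1 := (Pool.Agent.W602.GT.ge_ord P f).mul
          (log_of_const (G := G.restrictScalars ℂ) (fun f hf => hG f hf) (der_alg G ha) ha0 hf)
        rwa [mul_div_cancel₀ _ hf, add_zero] at h1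
      have h2 : Ge P 0 (T j * G (x j) ^ m) := hlogT P G hlog j
      by_cases h0 : G (x j) = 0
      · exact Or.inl h0
      · rcases h2 with h2 | h2
        · exact absurd h2 (mul_ne_zero (hT0 j) (pow_ne_zero _ h0))
        · right
          rw [P.ord_mul (hT0 j) (pow_ne_zero _ h0), P.ord_pow] at h2
          have h4 : -(P.ord (G (x j))) ≤ P.ord (T j) / m := by
            rw [Int.le_ediv_iff_mul_le hm']
            nlinarith
          linarith
    refine ⟨fun j => -(P.ord (T j) / m), fun j => Or.inl (hA j), Or.inl ⟨hA, ?_⟩⟩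
    refine Finset.sum_nonneg fun j _ => ?_
    have h6 : (P.ord (T j) / m) * m ≤ P.ord (T j) := Int.ediv_mul_le _ hm'.ne'
    linarith
  · -- the horizontal places
    push Not at hcst
    have hcol := fun j => hor_col hcst (hdat.1 j).1 (hdat.1 j).2.1 (hdat.1 j).2.2.2
      (hdat.1 j).2.2.1 (hxt j) (hν j) (e j)
    have hb : ∀ j, ∃ b : ℤ, (ColA P U (f j) (ν j) (e j) (x j) →
          Even (P.ord ((f j).eval (x j))) ∧
          (∀ G : Derivation U K K, (∀ f, P.Reg f → P.Reg (G f)) → Ge P b (G (x j))) ∧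
          0 ≤ P.ord (T j) + m * b) ∧
        (¬ ColA P U (f j) (ν j) (e j) (x j) →
          (∃ q z : K, z ≠ 0 ∧ Ge P b q ∧ ∀ G : Derivation U K K, G (x j) = q * (G z / z)) ∧
          ∃ k : ℤ, 1 ≤ k ∧ (Even (P.ord ((f j).eval (x j))) → Even k) ∧
            m * k ≤ 2 * (P.ord (T j) + m * b)) := by
      intro j
      have hordT : P.ord (T j) = P.ord (colA (f j) (ν j) (e j) (x j)) ∨
          P.ord (T j) = P.ord (colB (f j) (ν j) (e j) (x j)) := by
        obtain ⟨ζ, hζ, hζ0, h | h⟩ := hT j
        · left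
          have hA0 : colA (f j) (ν j) (e j) (x j) ≠ 0 :=
            pow_ne_zero _ (colE_ne (hdat.1 j).2.2.1 _ (hu j))
          rw [h, P.ord_mul hζ0 hA0, hcst ζ hζ, zero_add]
        · right
          rw [h, P.ord_mul hζ0 (colB_ne (hdat.1 j).1 (hdat.1 j).2.2.1
            (by have := (hdat.1 j).2.2.2; omega) _ _ (hxt j)), hcst ζ hζ, zero_add]
      by_cases h : ColA P U (f j) (ν j) (e j) (x j)
      · obtain ⟨h1, b, h2, h3, h4⟩ := h
        rw [hae] at h3 h4
        refine ⟨b, fun _ => ⟨h1, h2, ?_⟩, fun h5 => absurd ?_ h5⟩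
        · rcases hordT with h | h
          · rw [h]
            exact h3
          · rw [h]
            exact h4
        · refine ⟨h1, b, h2, ?_, ?_⟩
          · rw [hae]
            exact h3
          · rw [hae]
            exact h4
      · rcases hcol j with h1 | ⟨q, z, hq, hz, h1, k, h2, h3, h4, h5⟩
        · exact absurd h1 h
        rw [hae] at h4 h5
        refine ⟨P.ord q, fun h5 => absurd h5 h, fun _ => ⟨⟨q, z, hz, Or.inr le_rfl, h1⟩, k, h2, h3,
          ?_⟩⟩
        rcases hordT with h | h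
        · rw [h]
          exact h4
        · rw [h]
          exact h5
    choose b hbA hbB using hb
    have hnn : ∀ j, 0 ≤ P.ord (T j) + m * b j := by
      intro j
      by_cases h : ColA P U (f j) (ν j) (e j) (x j)
      · exact (hbA j h).2.2
      · obtain ⟨-, k, h1, -, h2⟩ := hbB j h
        have := mul_nonneg hm'.le (by linarith : 0 ≤ k)
        linarith
    refine ⟨b, fun j => ?_, ?_⟩
    · by_cases h : ColA P U (f j) (ν j) (e j) (x j)
      · exact Or.inl (hbA j h).2.1
      · exact Or.inr (hbB j h).1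
    by_cases hall : ∀ j, ColA P U (f j) (ν j) (e j) (x j)
    · exact Or.inl ⟨fun j => (hbA j (hall j)).2.1, Finset.sum_nonneg fun j _ => hnn j⟩
    right
    push Not at hall
    obtain ⟨j0, hj0⟩ := hall
    obtain ⟨-, k0, h1, h2, h3⟩ := hbB j0 hj0
    by_cases hex : ∃ j1, j1 ≠ j0 ∧ ¬ ColA P U (f j1) (ν j1) (e j1) (x j1)
    · obtain ⟨j1, hne, hj1⟩ := hex
      obtain ⟨-, k1, h4, -, h5⟩ := hbB j1 hj1
      have h6 : ∑ j ∈ {j0, j1}, (P.ord (T j) + m * b j) ≤ ∑ j, (P.ord (T j) + m * b j) :=
        Finset.sum_le_sum_of_subset_of_nonneg (Finset.subset_univ _) fun j _ _ => hnn j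
      rw [Finset.sum_pair (Ne.symm hne)] at h6
      have h7 := mul_le_mul_of_nonneg_left h1 hm'.le
      have h8 := mul_le_mul_of_nonneg_left h4 hm'.le
      linarith
    · push Not at hex
      have hev : Even (P.ord ((f j0).eval (x j0))) := by
        obtain ⟨S, hS, c, w, hc, hc0, hw⟩ := hdat.2 j0
        have hp0 : ∏ i ∈ S, (f i).eval (x i) ≠ 0 := Finset.prod_ne_zero_iff.2 fun i _ => hu i
        have h4 := congrArg P.ord hw
        rw [P.ord_pow, P.ord_mul hc0 hp0, hcst c hc, zero_add,
          ← Finset.mul_prod_erase S _ hS,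
          P.ord_mul (hu j0) (Finset.prod_ne_zero_iff.2 fun i _ => hu i)] at h4
        have h5 : Even (P.ord (∏ i ∈ S.erase j0, (f i).eval (x i))) := by
          have h6 : ∀ S' : Finset (Fin r), (∀ i ∈ S', i ≠ j0) →
              Even (P.ord (∏ i ∈ S', (f i).eval (x i))) := by
            intro S'
            induction S' using Finset.induction_on with
            | empty =>
              intro _
              rw [Finset.prod_empty, P.ord_one]
              exact Even.zero
            | insert i S' hi ih =>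
              intro h7
              rw [Finset.prod_insert hi, P.ord_mul (hu i)
                (Finset.prod_ne_zero_iff.2 fun i _ => hu i)]
              exact (hbA i (hex i (h7 i (Finset.mem_insert_self _ _)))).1.add
                (ih fun i hi => h7 i (Finset.mem_insert_of_mem hi))
          exact h6 _ fun i hi => (Finset.mem_erase.1 hi).1
        have h6 : Even (P.ord ((f j0).eval (x j0)) +
            P.ord (∏ i ∈ S.erase j0, (f i).eval (x i))) := by
          rw [← h4]
          exact ⟨P.ord w, by push_cast; ring⟩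
        exact (Int.even_add.1 h6).2 h5
      have h4 := h2 hev
      have h5 : 2 ≤ k0 := by
        obtain ⟨a, ha⟩ := h4
        omega
      have h6 : P.ord (T j0) + m * b j0 ≤ ∑ j, (P.ord (T j) + m * b j) :=
        Finset.single_le_sum (f := fun j => P.ord (T j) + m * b j) (fun j _ => hnn j)
          (Finset.mem_univ j0)
      have h7 := mul_le_mul_of_nonneg_left h5 hm'.le
      linarith

end Pool.Agent.X140.EF
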