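import Pool.Agent.X140.EF.Mod2
import Pool.Agent.X140.EF.Mod4

/-!
Forms along the fibres of a variety whose fibres, after a base change, dominate the product of a
variety over the constants and a multiple double cover of a product of lines, with the moduli.
-/

set_option autoImplicit false
set_option linter.overlappingInstances false

open FF Pool.Agent.W602.GT Pool.Agent.W603.LV Pool.Agent.W619.PQ Pool.Agent.W619.Y
open Pool.Agent.TH585.SV Pool.Agent.Y172 Pool.Agent.Y191 Pool.Agent.X180.Iso

namespace Pool.Agent.X140.EF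

variable {K K' : Type} [Field K] [Field K'] [Algebra ℂ K] [Algebra ℂ K'] [Algebra K K']
  [IsScalarTower ℂ K K'] [FiniteDimensional K K'] {L : IntermediateField ℂ K} {r s u : ℕ}

/-- **Forms along the fibres, with the moduli.** -/
theorem mod_mix_forms {N lam v : ℕ} (hN : Algebra.trdeg ℂ K = N)
    (hL : Algebra.trdeg L K = (r + s : ℕ))
    {α : K'} (hα : IsAlgebraic L α) (htop : IntermediateField.adjoin K {α} = ⊤)
    (M : IntermediateField ℂ K') [Algebra.EssFiniteType ℂ M] (hM : Algebra.trdeg ℂ M = s)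
    {R : Fin r → Finset K'} (hR : ∀ j, ∀ a ∈ R j, IsAlgebraic (upF K' L) a)
    {f : Fin r → Polynomial K'} (hf : ∀ j, f j = rp (R j)) {x : Fin r → K'}
    (hdat : CoverData (upF K' L) f x)
    {ι : Fin u → Fin r} (hι : Function.Injective ι) (hι5 : ∀ i, 5 ≤ (f (ι i)).natDegree)
    (hdom : ∀ z : K', IsAlgebraic (IntermediateField.adjoin ℂ
      ((upF K' L : Set K') ∪ ((M : Set K') ∪ Set.range x))) z)
    (hk : Pool.Agent.W602.GT.KodGe ℂ M s (fun _ => False) lam) {z : Fin v → K'}
    (hz : ∀ i, ∃ j, z i ∈ Moduli (R j)) (hzi : AlgebraicIndependent ℂ z) (X : Set (Place ℂ K)) :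
    ∃ m : ℕ, 0 < m ∧ ∃ θ : Fin (lam + u + v + 1) → (Fin (r + s) → Derivation L K K) → K,
      (∀ b, FibSec N m X (fun _ => 0) L (θ b)) ∧ ∃ G, θ 0 G ≠ 0 ∧
        AlgebraicIndependent ℂ (fun i : Fin (lam + u + v) => θ i.succ G / θ 0 G) := by
  classical
  have hcL : CharZero L := charZero_of_injective_algebraMap (algebraMap ℂ L).injective
  have hcU : CharZero (upF K' L) :=
    charZero_of_injective_algebraMap (algebraMap ℂ (upF K' L)).injective
  have hcK : CharZero K' := charZero_of_injective_algebraMap (algebraMap ℂ K').injective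
  have hN' : Algebra.trdeg ℂ K' = N := by
    have h1 : Algebra.trdeg K K' = 0 := trdeg_eq_zero_iff.2 inferInstance
    rw [← hN, ← _root_.trdeg_add_eq ℂ K (A := K'), h1, add_zero]
  obtain ⟨y0, E0, hy0, -⟩ := exists_crd hL
  have hU : Algebra.trdeg (upF K' L) K' = (r + s : ℕ) := by
    have h1 := (tb_up (K' := K') (hy0.algebraMap_comp (A := K'))).cardinalMk_eq_trdeg
    rw [← h1]
    simp
  obtain ⟨m, hm, ω, hω, D, hD0, hDi⟩ := hk
  obtain ⟨y, E, hy, hE⟩ := exists_crd (k := ℂ) (K := M) hM
  have hyU : IsTranscendenceBasis (upF K' L) (Fin.append x (fun j => ((y j : M) : K'))) :=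
    basis_mix (upF K' L) M hU hy x hdom
  have hxt : ∀ j, Transcendental (upF K' L) (x j) := by
    intro j
    have h1 := hyU.1.transcendental (Fin.castAdd s j)
    rwa [Fin.append_left] at h1
  choose E' hE1 using fun i => exists_dual (k := upF K' L) _ hyU i
  have hEx : ∀ i j, E' i (x j) = if i = Fin.castAdd s j then 1 else 0 := by
    intro i j
    have h1 := hE1 i (Fin.castAdd s j)
    rw [Fin.append_left] at h1
    rw [h1]
    by_cases h : i = Fin.castAdd s j
    · rw [if_pos h, if_pos h.symm]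
    · rw [if_neg h, if_neg (Ne.symm h)]
  have hEy : ∀ i l, E' i ((y l : M) : K') = if i = Fin.natAdd r l then 1 else 0 := by
    intro i l
    have h1 := hE1 i (Fin.natAdd r l)
    rw [Fin.append_right] at h1
    rw [h1]
    by_cases h : i = Fin.natAdd r l
    · rw [if_pos h, if_pos h.symm]
    · rw [if_neg h, if_neg (Ne.symm h)]
  have hval : ∀ b, ω b D = (Matrix.of fun i j => D i (y j)).det ^ m * ω b E := fun b =>
    pluri_coord hy hE (hω b).1 D
  have hd0 : (Matrix.of fun i j => D i (y j)).det ^ m ≠ 0 := by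
    intro h0
    apply hD0
    rw [hval, h0, zero_mul]
  have hW0 : ω 0 E ≠ 0 := by
    intro h0
    apply hD0
    rw [hval, h0, mul_zero]
  have hind : AlgebraicIndependent ℂ (fun i : Fin lam => ω i.succ E / ω 0 E) := by
    have e1 : (fun i : Fin lam => ω i.succ E / ω 0 E) = fun i : Fin lam => ω i.succ D / ω 0 D := by
      funext i
      rw [hval i.succ, hval 0, mul_div_mul_left _ _ hd0]
    rw [e1]
    exact hDi
  have hdet : (mixm x (fun _ => 1) (fun l => ((y l : M) : K')) E').det ≠ 0 := by
    have h1 : mixm x (fun _ => 1) (fun l => ((y l : M) : K')) E' = 1 := by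
      ext i c
      unfold mixm
      rw [Matrix.one_apply]
      refine Fin.addCases (fun j => ?_) (fun l => ?_) c
      · rw [Matrix.of_apply, Fin.append_left, hEx, div_one]
      · rw [Matrix.of_apply, Fin.append_right, hEy]
    rw [h1, Matrix.det_one]
    exact one_ne_zero
  have hα' : IsAlgebraic (upF K' L) α := alg_up hα
  have htop' : ∀ z : K', ∃ p : Polynomial K, z = Polynomial.aeval α p := by
    intro z
    have h1 : z ∈ IntermediateField.adjoin K {α} := by
      rw [htop]
      trivial
    have h2 : z ∈ (IntermediateField.adjoin K {α}).toSubalgebra := h1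
    rw [IntermediateField.adjoin_simple_toSubalgebra_of_isAlgebraic
      (Algebra.IsAlgebraic.isAlgebraic α), Algebra.adjoin_singleton_eq_range_aeval] at h2
    obtain ⟨p, hp⟩ := h2
    exact ⟨p, hp.symm⟩
  -- the degrees
  obtain ⟨ν, hν⟩ : ∃ ν : Fin r → ℕ, ∀ j, ν j + 4 = (f j).natDegree + (f j).natDegree % 2 := by
    refine ⟨fun j => (f j).natDegree + (f j).natDegree % 2 - 4, fun j => ?_⟩
    have := (hdat.1 j).2.2.2
    change (f j).natDegree + (f j).natDegree % 2 - 4 + 4 = _
    omega
  obtain ⟨a, ha⟩ : ∃ a : Fin r → ℕ, ∀ j, a j = 4 * (ν j + 4) * (ν j + 3) * (ν j + 2) :=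
    ⟨_, fun _ => rfl⟩
  have ha0 : ∀ j, 0 < a j := by
    intro j
    rw [ha]
    positivity
  obtain ⟨B, hB⟩ : ∃ B, ∏ i, a i = B + 1 := by
    have : 0 < ∏ i, a i := Finset.prod_pos fun i _ => ha0 i
    exact ⟨∏ i, a i - 1, by omega⟩
  obtain ⟨e, he⟩ : ∃ e : Fin r → ℕ, ∀ j, e j = (∏ i ∈ Finset.univ.erase j, a i) * m :=
    ⟨_, fun _ => rfl⟩
  have he0 : ∀ j, 0 < e j := by
    intro j
    rw [he]
    exact Nat.mul_pos (Finset.prod_pos fun i _ => ha0 i) hm
  have hae : ∀ j, 4 * (ν j + 4) * (ν j + 3) * (ν j + 2) * e j = (B + 1) * m := by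
    intro j
    rw [← ha, he, ← mul_assoc, Finset.mul_prod_erase _ _ (Finset.mem_univ j), hB]
  have hu : ∀ j, (f j).eval (x j) ≠ 0 := fun j =>
    val_ne (hdat.1 j).1 (hdat.1 j).2.1.ne_zero (hxt j)
  -- the moduli
  choose js hjs using hz
  have hzt : ∀ i, Transcendental ℂ (z i) := fun i => hzi.transcendental i
  have hz0 : ∀ i, z i ≠ 0 := fun i h0 => hzt i (by rw [h0]; exact isAlgebraic_zero)
  have hz1 : ∀ i, z i ≠ 1 := fun i h0 => hzt i (by rw [h0]; exact isAlgebraic_one)
  have hzU : ∀ i, IsAlgebraic (upF K' L) (z i) := by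
    intro i
    rw [← Pool.Agent.X180.Iso.mem_acl]
    have h1 : ∀ a ∈ R (js i), a ∈ Acl (upF K' L) := fun a ha =>
      Pool.Agent.X180.Iso.mem_acl.2 (hR _ a ha)
    rcases hjs i with ⟨a, ha, b, hb, c, hc, d, hd, -, -, hzz⟩ | ⟨-, a, ha, b, hb, c, hc, -, hzz⟩
    · rw [hzz]
      exact div_mem (mul_mem (sub_mem (h1 a ha) (h1 d hd)) (sub_mem (h1 c hc) (h1 b hb)))
        (mul_mem (sub_mem (h1 a ha) (h1 b hb)) (sub_mem (h1 c hc) (h1 d hd)))
    · rw [hzz]
      exact div_mem (sub_mem (h1 c hc) (h1 b hb)) (sub_mem (h1 a ha) (h1 b hb))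
  have hcard : ∀ j, (f j).natDegree = (R j).card := fun j => by rw [hf, rp_natDegree]
  have hxR : ∀ j, ∀ a ∈ R j, x j - a ≠ 0 := by
    intro j a ha h0
    apply hu j
    rw [hf, rp_eval]
    exact Finset.prod_eq_zero ha h0
  -- the columns
  obtain ⟨TA, hTA⟩ : ∃ TA : Fin r → K', ∀ j, TA j = colA (f j) (ν j) (e j) (x j) :=
    ⟨_, fun _ => rfl⟩
  obtain ⟨TB, hTB⟩ : ∃ TB : Fin r → K', ∀ j, TB j = colB (f j) (ν j) (e j) (x j) :=
    ⟨_, fun _ => rfl⟩
  have hTA0 : ∀ j, TA j ≠ 0 := by
    intro j
    rw [hTA]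
    exact pow_ne_zero _ (colE_ne (hdat.1 j).2.2.1 _ (hu j))
  have hTB0 : ∀ j, TB j ≠ 0 := by
    intro j
    rw [hTB]
    exact colB_ne (hdat.1 j).1 (hdat.1 j).2.2.1 (by have := (hdat.1 j).2.2.2; omega) _ _
      (hxt j)
  -- the data of the forms
  obtain ⟨T, hT⟩ : ∃ T : Fin (lam + u + v + 1) → Fin r → K', T = Fin.cons TA
      (Fin.append (Fin.append (fun _ => TA) (fun i => Function.update TA (ι i) (TB (ι i))))
        (fun i => Function.update TA (js i) (z i * TA (js i)))) := ⟨_, rfl⟩
  obtain ⟨η, hη'⟩ : ∃ η : Fin (lam + u + v + 1) → (Fin s → Derivation ℂ M M) → M,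
      η = Fin.cons (ω 0)
        (Fin.append (Fin.append (fun i => ω i.succ) (fun _ => ω 0)) (fun _ => ω 0)) := ⟨_, rfl⟩
  have hTcase : ∀ b j, T b j = TA j ∨ T b j = TB j ∨ ∃ i, j = js i ∧ T b j = z i * TA j := by
    intro b j
    rw [hT]
    refine Fin.cases ?_ (fun b => ?_) b
    · rw [Fin.cons_zero]
      exact Or.inl rfl
    · rw [Fin.cons_succ]
      refine Fin.addCases (fun b => ?_) (fun i => ?_) b
      · rw [Fin.append_left]
        refine Fin.addCases (fun i => ?_) (fun i => ?_) b
        · rw [Fin.append_left]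
          exact Or.inl rfl
        · rw [Fin.append_right]
          by_cases h : j = ι i
          · rw [h, Function.update_self]
            exact Or.inr (Or.inl rfl)
          · rw [Function.update_of_ne h]
            exact Or.inl rfl
      · rw [Fin.append_right]
        by_cases h : j = js i
        · right
          right
          exact ⟨i, h, by rw [h, Function.update_self]⟩
        · rw [Function.update_of_ne h]
          exact Or.inl rfl
  have hηcase : ∀ b, ∃ b', η b = ω b' := by
    intro b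
    rw [hη']
    refine Fin.cases ?_ (fun b => ?_) b
    · exact ⟨0, by rw [Fin.cons_zero]⟩
    · rw [Fin.cons_succ]
      refine Fin.addCases (fun b => ?_) (fun i => ?_) b
      · rw [Fin.append_left]
        refine Fin.addCases (fun i => ?_) (fun i => ?_) b
        · exact ⟨i.succ, by rw [Fin.append_left]⟩
        · exact ⟨0, by rw [Fin.append_right]⟩
      · exact ⟨0, by rw [Fin.append_right]⟩
  have hη : ∀ b, IsPluriForm ℂ M s ((B + 1) * m) (fun D => η b D * ω 0 D ^ B) := by
    intro b A' D'
    obtain ⟨b', hb'⟩ := hηcase b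
    change η b _ * ω 0 _ ^ B = _
    rw [hb', (hω b').1 A' D', (hω 0).1 A' D']
    ring
  have hreg : ∀ b, ∀ u : Place ℂ M, IsDivisorial u s →
      RegularAt u s (fun D => η b D * ω 0 D ^ B) := by
    intro b u hu D' hD'
    obtain ⟨b', hb'⟩ := hηcase b
    have h1 : u.Reg (ω b' D') := (hω b').2.2 u hu id D' hD'
    have h2 : u.Reg (ω 0 D') := (hω 0).2.2 u hu id D' hD'
    have h3 : Ge u 0 (ω 0 D' ^ B) := by
      have h4 : Ge u 0 (ω 0 D') := h2
      simpa using h4.pow B
    have h5 : Ge u 0 (ω b' D') := h1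
    have h6 : Ge u 0 (η b D' * ω 0 D' ^ B) := by
      rw [hb']
      simpa using h5.mul h3
    exact h6
  have hlogT : ∀ b (P : Place ℂ K') (G : Derivation (upF K' L) K' K'),
      (∀ g : K', g ≠ 0 → Ge P (P.ord g) (G g)) →
        ∀ j, Ge P 0 (T b j * G (x j) ^ ((B + 1) * m)) := by
    intro b P G hlog j
    have h1 := col_log (P := P) (G := G.restrictScalars ℂ) hlog
      (fun i => der_alg G ((hdat.1 j).1 i)) (hdat.1 j).2.1
      (by have := (hdat.1 j).2.2.2; omega) (hu j) (hν j) (he0 j)
    rw [hae, ← hTA, ← hTB] at h1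
    rcases hTcase b j with h | h | ⟨i, hj, h⟩
    · rw [h]
      exact h1.1
    · rw [h]
      exact h1.2
    · rw [h]
      by_cases h0 : G (x j) = 0
      · rw [h0, zero_pow (Nat.mul_pos (by omega) hm).ne', mul_zero]
        exact Or.inl rfl
      have h2 := disc_log (P := P) (G := G.restrictScalars ℂ) hlog
        (fun i => der_alg G ((hdat.1 j).1 i)) (hdat.1 j).2.1
        (by have := (hdat.1 j).2.2.2; omega) (hu j) h0 (hν j)
      have h3 : Ge P 0 (z i * (colE (f j) (ν j) (x j) * G (x j) ^ ((ν j + 4) * (ν j + 3)))) := by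
        rw [hf]
        refine mod_log (P := P) (G := G.restrictScalars ℂ) hlog (R := R j)
          (fun a ha => der_alg G (hR j a ha)) (hxR j) (by rw [hν, hcard]) (by rw [hj]; exact hjs i)
          (hz1 i) (hz0 i)
      obtain ⟨q, hq⟩ : ∃ q, 4 * (ν j + 2) * e j = q + 1 := by
        have h6 : 0 < 4 * (ν j + 2) * e j := by
          have := he0 j
          positivity
        exact ⟨4 * (ν j + 2) * e j - 1, by omega⟩
      have h4 : z i * TA j * G (x j) ^ ((B + 1) * m) =
          z i * (colE (f j) (ν j) (x j) * G (x j) ^ ((ν j + 4) * (ν j + 3))) *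
          (colE (f j) (ν j) (x j) * G (x j) ^ ((ν j + 4) * (ν j + 3))) ^ q := by
        have h5 : TA j * G (x j) ^ ((B + 1) * m) =
            (colE (f j) (ν j) (x j) * G (x j) ^ ((ν j + 4) * (ν j + 3))) ^
              (4 * (ν j + 2) * e j) := by
          rw [hTA, ← hae j]
          unfold colA
          ring
        rw [mul_assoc, h5, hq, pow_succ']
        ring
      rw [h4]
      exact (h3.mul (h2.pow _)).mono (by simp)
  refine pushC (M := (B + 1) * m) (Nat.mul_pos (by omega) hm) hL hα' htop'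
    (θ' := fun b G => (∏ j, T b j) *
      (mixm x (fun _ => 1) (fun l => ((y l : M) : K')) G).det ^ ((B + 1) * m) *
        (((η b E * ω 0 E ^ B : M)) : K'))
    (fun b => fib_of_cov hN' (upF K' L) M hM (hη b) (hreg b) hy hE
      (cover_ord2 hdat hxt hν he0 (Nat.mul_pos (by omega) hm) hae (fun j => by
        rcases hTcase b j with h | h | ⟨i, hj, h⟩
        · exact ⟨1, isAlgebraic_one, one_ne_zero, Or.inl (by rw [h, hTA, one_mul])⟩
        · exact ⟨1, isAlgebraic_one, one_ne_zero, Or.inr (by rw [h, hTB, one_mul])⟩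
        · exact ⟨z i, hzU i, hz0 i, Or.inl (by rw [h, hTA])⟩) (hlogT b)) _) ⟨E', ?_, ?_⟩
  · have h0 : T 0 = TA := by rw [hT, Fin.cons_zero]
    have h1 : η 0 = ω 0 := by rw [hη', Fin.cons_zero]
    rw [h0, h1]
    refine mul_ne_zero (mul_ne_zero (Finset.prod_ne_zero_iff.2 fun j _ => hTA0 j)
      (pow_ne_zero _ hdet)) ?_
    intro h0
    have h1 : (ω 0 E * ω 0 E ^ B : M) = 0 := Subtype.ext h0
    exact mul_ne_zero hW0 (pow_ne_zero _ hW0) h1
  · -- the ratios
    obtain ⟨x', hx'⟩ : ∃ x' : Fin r → K', ∀ j, x' j = if 5 ≤ (f j).natDegree then TB j / TA j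
      else x j := ⟨_, fun _ => rfl⟩
    have hdom' : ∀ z : K', IsAlgebraic (IntermediateField.adjoin ℂ
        ((upF K' L : Set K') ∪ ((M : Set K') ∪ Set.range x'))) z := by
      obtain ⟨A, hA⟩ : ∃ A : IntermediateField ℂ K', A = IntermediateField.adjoin ℂ
        ((upF K' L : Set K') ∪ ((M : Set K') ∪ Set.range x')) := ⟨_, rfl⟩
      rw [← hA]
      have hUA : upF K' L ≤ A := by
        rw [hA]
        exact fun z hz => IntermediateField.subset_adjoin _ _ (Or.inl hz)
      refine top_of_gen (fun z hz => ?_) hdom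
      rw [← Pool.Agent.X180.Iso.mem_acl]
      have h1 : IntermediateField.adjoin ℂ
          ((upF K' L : Set K') ∪ ((M : Set K') ∪ Set.range x)) ≤ Acl A := by
        rw [IntermediateField.adjoin_le_iff]
        refine Set.union_subset ?_ (Set.union_subset ?_ ?_)
        · intro z hz
          exact le_acl A (hUA hz)
        · intro z hz
          refine le_acl A ?_
          rw [hA]
          exact IntermediateField.subset_adjoin _ _ (Or.inr (Or.inl hz))
        · rintro _ ⟨j, rfl⟩
          have h2 : x' j ∈ A := by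
            rw [hA]
            exact IntermediateField.subset_adjoin _ _ (Or.inr (Or.inr ⟨j, rfl⟩))
          rw [hx'] at h2
          by_cases h5 : 5 ≤ (f j).natDegree
          · rw [if_pos h5, hTA, hTB] at h2
            refine acl_acl (col_alg (A := Acl A) (fun i => ?_) (hdat.1 j).2.2.1 (by omega)
              (N := ν j) (by have := hν j; omega) (he0 j) (hu j) (le_acl A h2))
            exact Pool.Agent.X180.Iso.mem_acl.2 (alg_mono hUA ((hdat.1 j).1 i))
          · rw [if_neg h5] at h2
            exact le_acl A h2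
      exact h1 hz
    have h1 := ind_mix2 (upF K' L) M hU hM hind x' hdom' hι
    -- all ratios
    obtain ⟨A, hA⟩ : ∃ A : IntermediateField (upF K' L) K',
      A = algebraicClosure (upF K' L) K' := ⟨_, rfl⟩
    have hAalg : Algebra.IsAlgebraic (upF K' L) A := by
      rw [hA]
      infer_instance
    have hAtow : IsScalarTower ℂ A K' := IsScalarTower.of_algebraMap_eq fun _ => rfl
    have h2 : AlgebraicIndependent A (Fin.append (fun j => (((ω j.succ E / ω 0 E : M)) : K'))
        (fun i => x' (ι i))) := h1.extendScalars A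
    obtain ⟨zA, hzA⟩ : ∃ zA : Fin v → A, ∀ i, (zA i : K') = z i :=
      ⟨fun i => ⟨z i, by rw [hA, mem_algebraicClosure_iff]; exact hzU i⟩, fun _ => rfl⟩
    have h3 : AlgebraicIndependent ℂ zA := by
      refine AlgebraicIndependent.of_comp (IsScalarTower.toAlgHom ℂ A K') ?_
      convert hzi using 1
      funext i
      exact hzA i
    have h4 := (h3.sumElim_comp h2).comp finSumFinEquiv.symm finSumFinEquiv.symm.injective
    convert h4 using 1
    funext i
    have hP0 : (∏ j, T 0 j) = ∏ j, TA j := by rw [hT, Fin.cons_zero]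
    have hη0 : η 0 = ω 0 := by rw [hη', Fin.cons_zero]
    have h3 : ((ω 0 E : M) : K') ≠ 0 := fun h0 => hW0 (Subtype.ext h0)
    have hdet' := pow_ne_zero ((B + 1) * m) hdet
    have hPA : (∏ j, TA j) ≠ 0 := Finset.prod_ne_zero_iff.2 fun j _ => hTA0 j
    have h6 : (((ω 0 E * ω 0 E ^ B : M)) : K') ≠ 0 := by
      push_cast
      exact mul_ne_zero h3 (pow_ne_zero _ h3)
    rw [hP0, hη0, Function.comp_apply]
    refine Fin.addCases (fun b => ?_) (fun b => ?_) i
    · rw [finSumFinEquiv_symm_apply_castAdd, Sum.elim_inl]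
      refine Fin.addCases (fun b => ?_) (fun b => ?_) b
      · have h4 : T (Fin.castAdd v (Fin.castAdd u b)).succ = TA := by
          rw [hT, Fin.cons_succ, Fin.append_left, Fin.append_left]
        have h5 : η (Fin.castAdd v (Fin.castAdd u b)).succ = ω b.succ := by
          rw [hη', Fin.cons_succ, Fin.append_left, Fin.append_left]
        rw [h4, h5, Fin.append_left, mul_div_mul_left _ _ (mul_ne_zero hPA hdet')]
        push_cast
        rw [mul_div_mul_right _ _ (pow_ne_zero B h3)]
      · have h4 : T (Fin.castAdd v (Fin.natAdd lam b)).succ =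
            Function.update TA (ι b) (TB (ι b)) := by
          rw [hT, Fin.cons_succ, Fin.append_left, Fin.append_right]
        have h5 : η (Fin.castAdd v (Fin.natAdd lam b)).succ = ω 0 := by
          rw [hη', Fin.cons_succ, Fin.append_left, Fin.append_right]
        rw [h4, h5, Fin.append_right, hx', if_pos (hι5 b)]
        rw [mul_div_mul_right _ _ h6, mul_div_mul_right _ _ hdet',
          Finset.prod_update_of_mem (Finset.mem_univ _),
          Finset.prod_eq_mul_prod_sdiff_singleton_of_mem (Finset.mem_univ (ι b)) TA]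
        have h7 : (∏ j ∈ Finset.univ \ {ι b}, TA j) ≠ 0 :=
          Finset.prod_ne_zero_iff.2 fun j _ => hTA0 j
        rw [mul_div_mul_right _ _ h7]
    · rw [finSumFinEquiv_symm_apply_natAdd, Sum.elim_inr, Function.comp_apply]
      have h4 : T (Fin.natAdd (lam + u) b).succ =
          Function.update TA (js b) (z b * TA (js b)) := by
        rw [hT, Fin.cons_succ, Fin.append_right]
      have h5 : η (Fin.natAdd (lam + u) b).succ = ω 0 := by
        rw [hη', Fin.cons_succ, Fin.append_right]
      rw [h4, h5]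
      rw [mul_div_mul_right _ _ h6, mul_div_mul_right _ _ hdet',
        Finset.prod_update_of_mem (Finset.mem_univ _),
        Finset.prod_eq_mul_prod_sdiff_singleton_of_mem (Finset.mem_univ (js b)) TA]
      have h7 : (∏ j ∈ Finset.univ \ {js b}, TA j) ≠ 0 :=
        Finset.prod_ne_zero_iff.2 fun j _ => hTA0 j
      rw [mul_div_mul_right _ _ h7, mul_div_cancel_right₀ _ (hTA0 _)]
      exact (hzA b).symm

end Pool.Agent.X140.EF
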