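import Pool.Agent.X140.EF.Mod3
import Pool.Agent.X140.EF.Geo3

/-!
Forms along the fibres if the geometric generic fibre dominates the product of a variety over the
constants and a multiple double cover of a product of lines, with the moduli.
-/

set_option autoImplicit false
set_option linter.overlappingInstances false

open FF Pool.Agent.W602.GT Pool.Agent.Y191 Pool.Agent.TH585.SV Pool.Agent.X180.Iso
open Pool.Agent.X180.Abn

namespace Pool.Agent.X140.EF

variable {K Λ F : Type} [Field K] [Field Λ] [Field F] [Algebra ℂ K] [Algebra ℂ Λ] [Algebra ℂ F]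
  [Algebra Λ F] [Algebra K F] [IsScalarTower ℂ Λ F] [IsScalarTower ℂ K F]

omit [Algebra ℂ Λ] [IsScalarTower ℂ Λ F] in
/-- **Forms along the fibres.** -/
theorem geo_mod {N r t lam u v p : ℕ} (hN : Algebra.trdeg ℂ K = N) {L U : IntermediateField ℂ K}
    (hU : Algebra.trdeg U K = (r + t : ℕ)) (hLU : ∀ x ∈ L, IsAlgebraic U x)
    (hgen : IntermediateField.adjoin Λ (Set.range (algebraMap K F)) = ⊤)
    (hΛ : ∀ z : Λ, IsAlgebraic L (algebraMap Λ F z))
    (M : IntermediateField ℂ F) [Algebra.EssFiniteType ℂ M] (hM : Algebra.trdeg ℂ M = t)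
    {R : Fin r → Finset Λ} (hR3 : ∀ j, 3 ≤ (R j).card) {x : Fin r → F}
    {S : Fin p → Finset (Fin r)} {c : Fin p → Λ} {w : Fin p → F} (hS : ∀ j, ∃ k, j ∈ S k)
    (hw : ∀ k, c k ≠ 0 ∧ w k ^ 2 = algebraMap Λ F (c k) *
      ∏ i ∈ S k, ∏ a ∈ R i, (x i - algebraMap Λ F a))
    {ι : Fin u → Fin r} (hι : Function.Injective ι) (hι5 : ∀ i, 5 ≤ (R (ι i)).card)
    (hdom : ∀ z : F, IsAlgebraic (IntermediateField.adjoin Λ ((M : Set F) ∪ Set.range x)) z)
    (hk : Pool.Agent.W602.GT.KodGe ℂ M t (fun _ => False) lam) {z : Fin v → Λ}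
    (hz : ∀ i, ∃ j, z i ∈ Moduli (R j))
    (hzi : AlgebraicIndependent ℂ (fun i => algebraMap Λ F (z i))) (X : Set (Place ℂ K)) :
    ∃ m : ℕ, 0 < m ∧ ∃ θ : Fin (lam + u + v + 1) → (Fin (r + t) → Derivation U K K) → K,
      (∀ b, FibSec N m X (fun _ => 0) U (θ b)) ∧ ∃ G, θ 0 G ≠ 0 ∧
        AlgebraicIndependent ℂ (fun i : Fin (lam + u + v) => θ i.succ G / θ 0 G) := by
  classical
  -- algebraic over `L` implies algebraic over `U`
  have hLA : ∀ z : F, IsAlgebraic L z → z ∈ Acl (upF F U) := by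
    intro z hz
    have h1 : upF F L ≤ Acl (upF F U) := by
      intro w hw
      obtain ⟨a, ha, rfl⟩ := mem_upF.1 hw
      rw [mem_acl]
      have h2 : IsAlgebraic U (algebraMap K F a) :=
        (hLU a ha).algHom (IsScalarTower.toAlgHom U K F)
      exact alg_up h2
    exact acl_acl (alg_mono h1 (alg_up hz))
  obtain ⟨s, hs⟩ := IntermediateField.essFiniteType_iff.1 ‹Algebra.EssFiniteType ℂ M›
  obtain ⟨α, hα, hsα⟩ := exists_prim hgen hΛ (s ∪ (Finset.univ.image x ∪ (Finset.univ.image w ∪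
    (Finset.univ.image (fun j => algebraMap Λ F (c j)) ∪
      (Finset.univ.image (fun j => algebraMap Λ F (z j)) ∪
      Finset.univ.biUnion (fun j => (R j).image (fun a => algebraMap Λ F a)))))))
  have hαU : IsAlgebraic U α := by
    have h1 := mem_acl.1 (hLA α hα)
    refine h1.of_ringHom_of_comp_eq (upE F U) (RingHom.id F) (upE F U).surjective
      Function.injective_id upE_comp
  obtain ⟨K', hK'⟩ : ∃ K' : IntermediateField K F, K' = IntermediateField.adjoin K {α} := ⟨_, rfl⟩
  have hαK' : α ∈ K' := by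
    rw [hK']
    exact IntermediateField.subset_adjoin _ _ (Set.mem_singleton _)
  rw [← hK'] at hsα
  have hxK : ∀ j, x j ∈ K' := fun j => hsα _ (by simp)
  have hwK : ∀ j, w j ∈ K' := fun j => hsα _ (by simp)
  have hcK : ∀ j, algebraMap Λ F (c j) ∈ K' := fun j => hsα _ (by simp)
  have hzK : ∀ j, algebraMap Λ F (z j) ∈ K' := fun j => hsα _ (by simp)
  have hRK : ∀ j, ∀ a ∈ R j, algebraMap Λ F a ∈ K' := by
    intro j a ha
    refine hsα _ ?_
    refine Finset.mem_union_right _ (Finset.mem_union_right _ (Finset.mem_union_right _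
      (Finset.mem_union_right _ (Finset.mem_union_right _ ?_))))
    rw [Finset.mem_biUnion]
    exact ⟨j, Finset.mem_univ _, Finset.mem_image.2 ⟨a, ha, rfl⟩⟩
  have hMK' : ∀ z ∈ M, z ∈ K' := by
    have h1 : M ≤ K'.restrictScalars ℂ := by
      rw [← hs, IntermediateField.adjoin_le_iff]
      intro z hz
      exact hsα z (Finset.mem_union_left _ hz)
    exact h1
  let vv : K' →ₐ[ℂ] F := K'.val.restrictScalars ℂ
  obtain ⟨M', hM'⟩ : ∃ M' : IntermediateField ℂ K', M' = M.comap vv := ⟨_, rfl⟩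
  have hmem : ∀ z : K', z ∈ M' ↔ (z : F) ∈ M := by
    intro z
    rw [hM']
    rfl
  let ε : M ≃ₐ[ℂ] M' :=
    { toFun := fun z => ⟨⟨z, hMK' z z.2⟩, (hmem _).2 z.2⟩
      invFun := fun z => ⟨((z : K') : F), (hmem _).1 z.2⟩
      left_inv := fun z => rfl
      right_inv := fun z => rfl
      map_mul' := fun x y => rfl
      map_add' := fun x y => rfl
      commutes' := fun r => rfl }
  have hess : Algebra.EssFiniteType ℂ M' := (Algebra.EssFiniteType.iff_of_algEquiv ε).1 ‹_›
  have htrM' : Algebra.trdeg ℂ M' = t := by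
    rw [← hM]
    exact ε.symm.trdeg_eq
  have hk' := kodGe_of_equiv ε hk
  obtain ⟨β, hβ⟩ : ∃ β : K', (β : F) = α := ⟨⟨α, hαK'⟩, rfl⟩
  -- algebraic elements
  have hdown : ∀ b : K', IsAlgebraic U (b : F) → IsAlgebraic U b := by
    intro b hb
    refine IsAlgebraic.of_ringHom_of_comp_eq (R := U) (S := U) (A := K') (B := F) (a := b)
      hb (f := RingHom.id U) (g := K'.val.toRingHom)
      Function.surjective_id K'.val.injective rfl
  have hβU : IsAlgebraic U β := hdown β (by rw [hβ]; exact hαU)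
  have hLam : ∀ z : Λ, IsAlgebraic U (algebraMap Λ F z) := by
    intro z
    have h1 := mem_acl.1 (hLA _ (hΛ z))
    refine h1.of_ringHom_of_comp_eq (upE F U) (RingHom.id F) (upE F U).surjective
      Function.injective_id upE_comp
  have htop : IntermediateField.adjoin K {β} = ⊤ := by
    apply IntermediateField.lift_injective K'
    rw [IntermediateField.lift_adjoin_simple, IntermediateField.lift_top, hβ, hK']
  have hfin : FiniteDimensional K K' := fin_of_top hβU htop
  -- the branch points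
  obtain ⟨g, hg⟩ : ∃ g : Λ → K', ∀ a, algebraMap Λ F a ∈ K' → ((g a : K') : F) =
      algebraMap Λ F a := by
    refine ⟨fun a => if h : algebraMap Λ F a ∈ K' then ⟨_, h⟩ else 0, fun a h => ?_⟩
    simp only [dif_pos h]
  have hgR : ∀ j, ∀ a ∈ R j, ((g a : K') : F) = algebraMap Λ F a := fun j a ha =>
    hg a (hRK j a ha)
  have hgi : ∀ j, Set.InjOn g (R j : Set Λ) := by
    intro j a ha b hb h
    have h1 := congrArg (fun z : K' => (z : F)) h
    have h2 : algebraMap Λ F a = algebraMap Λ F b := by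
      rw [← hgR j a ha, ← hgR j b hb]
      exact h1
    exact (algebraMap Λ F).injective h2
  obtain ⟨R', hR'⟩ : ∃ R' : Fin r → Finset K', ∀ j, R' j = (R j).image g := ⟨_, fun _ => rfl⟩
  have hcard : ∀ j, (R' j).card = (R j).card := fun j => by
    rw [hR', Finset.card_image_of_injOn (hgi j)]
  have hev : ∀ j (y : K'), (rp (R' j)).eval y = ∏ a ∈ R j, (y - g a) := fun j y => by
    rw [rp_eval, hR', Finset.prod_image (hgi j)]
  have halgR : ∀ j, ∀ a ∈ R' j, IsAlgebraic (upF K' U) a := by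
    intro j a ha
    rw [hR', Finset.mem_image] at ha
    obtain ⟨b, hb, rfl⟩ := ha
    refine alg_up (hdown _ ?_)
    rw [hgR j b hb]
    exact hLam b
  have hcoef : ∀ j i, IsAlgebraic (upF K' U) ((rp (R' j)).coeff i) := by
    intro j i
    have h1 : ∀ a ∈ R' j, a ∈ Acl (upF K' U) := fun a ha => mem_acl.2 (halgR j a ha)
    obtain ⟨q, hq⟩ : ∃ q : Polynomial (Acl (upF K' U)),
        q.map (algebraMap (Acl (upF K' U)) K') = rp (R' j) := by
      have h2 : rp (R' j) ∈ Polynomial.lifts (algebraMap (Acl (upF K' U)) K') := by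
        unfold rp
        refine Subsemiring.prod_mem _ fun a ha => ?_
        exact ⟨Polynomial.X - Polynomial.C ⟨a, h1 a ha⟩, by simp⟩
      exact (Polynomial.mem_lifts _).1 h2
    rw [← mem_acl, ← hq, Polynomial.coeff_map]
    exact (q.coeff i).2
  refine mod_mix_forms hN hU hβU htop M' htrM' (R := R') halgR
    (f := fun j => rp (R' j)) (fun _ => rfl) (x := fun j => ⟨x j, hxK j⟩)
    ⟨fun j => ⟨hcoef j, rp_monic _, rp_separable _, ?_⟩, fun j => ?_⟩ hι (fun i => ?_)
    (fun z => ?_) hk' (z := fun i => ⟨algebraMap Λ F (z i), hzK i⟩) (fun i => ?_) ?_ X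
  · rw [rp_natDegree, hcard]
    exact hR3 j
  · obtain ⟨k, hk⟩ := hS j
    refine ⟨S k, hk, ⟨algebraMap Λ F (c k), hcK k⟩, ⟨w k, hwK k⟩, alg_up (hdown _ (hLam (c k))),
      ?_, Subtype.ext ?_⟩
    · intro h0
      have h1 : algebraMap Λ F (c k) = 0 := congrArg (fun z : K' => (z : F)) h0
      exact (hw k).1 ((map_eq_zero_iff _ (algebraMap Λ F).injective).1 h1)
    · have h2 : ∀ i, ∏ a ∈ R i, (x i - algebraMap Λ F a) =
          algebraMap K' F (Polynomial.eval (⟨x i, hxK i⟩ : K') (rp (R' i))) := by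
        intro i
        rw [hev, map_prod]
        refine Finset.prod_congr rfl fun a ha => ?_
        rw [map_sub]
        change x i - algebraMap Λ F a = x i - ((g a : K') : F)
        rw [hgR i a ha]
      have h1 := (hw k).2
      simp only [h2] at h1
      rw [← map_prod] at h1
      exact h1
  · rw [rp_natDegree, hcard]
    exact hι5 i
  rotate_left
  · -- the moduli
    obtain ⟨j, hj⟩ := hz i
    refine ⟨j, ?_⟩
    have hgm : ∀ a ∈ R j, g a ∈ R' j := fun a ha => by
      rw [hR']
      exact Finset.mem_image_of_mem g ha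
    have hgn : ∀ a ∈ R j, ∀ b ∈ R j, a ≠ b → g a ≠ g b := fun a ha b hb hab h =>
      hab (hgi j ha hb h)
    rcases hj with ⟨a, ha, b, hb, c, hc, d, hd, hab, hcd, hzz⟩ | ⟨hodd, a, ha, b, hb, c, hc, hab,
      hzz⟩
    · left
      refine ⟨g a, hgm a ha, g b, hgm b hb, g c, hgm c hc, g d, hgm d hd, hgn a ha b hb hab,
        hgn c hc d hd hcd, Subtype.ext ?_⟩
      change algebraMap Λ F (z i) = (((g a : K') : F) - (g d : K')) * (((g c : K') : F) - (g b : K')) /
        ((((g a : K') : F) - (g b : K')) * (((g c : K') : F) - (g d : K')))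
      rw [hzz, hgR j a ha, hgR j b hb, hgR j c hc, hgR j d hd]
      simp only [map_div₀, map_mul, map_sub]
    · right
      refine ⟨by rw [hcard]; exact hodd, g a, hgm a ha, g b, hgm b hb, g c, hgm c hc,
        hgn a ha b hb hab, Subtype.ext ?_⟩
      change algebraMap Λ F (z i) = (((g c : K') : F) - (g b : K')) /
        (((g a : K') : F) - (g b : K'))
      rw [hzz, hgR j a ha, hgR j b hb, hgR j c hc]
      simp only [map_div₀, map_sub]
  · exact AlgebraicIndependent.of_comp vv hzi
  -- the domination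
  obtain ⟨T, hT⟩ : ∃ T : IntermediateField ℂ K',
    T = IntermediateField.adjoin ℂ ((upF K' U : Set K') ∪ ((M' : Set K') ∪
      Set.range (fun j => (⟨x j, hxK j⟩ : K')))) := ⟨_, rfl⟩
  rw [← hT]
  have hUT : upF F U ≤ T.map vv := by
    intro w hw
    obtain ⟨a, ha, rfl⟩ := mem_upF.1 hw
    refine ⟨algebraMap K K' a, ?_, rfl⟩
    rw [hT]
    exact IntermediateField.subset_adjoin _ _ (Or.inl (mem_upF.2 ⟨a, ha, rfl⟩))
  have hMT : M ≤ T.map vv := by
    intro w hw
    refine ⟨⟨w, hMK' w hw⟩, ?_, rfl⟩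
    rw [hT]
    exact IntermediateField.subset_adjoin _ _ (Or.inr (Or.inl ((hmem _).2 hw)))
  have hxT : ∀ j, x j ∈ T.map vv := by
    intro j
    refine ⟨⟨x j, hxK j⟩, ?_, rfl⟩
    rw [hT]
    exact IntermediateField.subset_adjoin _ _ (Or.inr (Or.inr ⟨j, rfl⟩))
  have hall : ∀ w ∈ IntermediateField.adjoin Λ ((M : Set F) ∪ Set.range x),
      w ∈ Acl (T.map vv) := by
    intro w hw
    induction hw using IntermediateField.adjoin_induction with
    | mem z hz =>
      rcases hz with hz | hz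
      · exact le_acl _ (hMT hz)
      · obtain ⟨j, hj⟩ := hz
        rw [← hj]
        exact le_acl _ (hxT j)
    | algebraMap x =>
      have h1 : algebraMap Λ F x ∈ Acl (upF F U) := hLA _ (hΛ x)
      exact mem_acl.2 (alg_mono hUT (mem_acl.1 h1))
    | add x y _ _ h1 h2 => exact add_mem h1 h2
    | inv x _ h1 => exact inv_mem h1
    | mul x y _ _ h1 h2 => exact mul_mem h1 h2
  have hz : IsAlgebraic (T.map vv) (z : F) := by
    refine mem_acl.1 (acl_acl ?_)
    have h1 := hdom (z : F)
    let i : IntermediateField.adjoin Λ ((M : Set F) ∪ Set.range x) →+* Acl (T.map vv) :=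
      ((IntermediateField.adjoin Λ ((M : Set F) ∪ Set.range x)).val.toRingHom).codRestrict
        (Acl (T.map vv)).toSubfield fun w => hall w w.2
    exact h1.ringHom_of_comp_eq i (RingHom.id F) i.injective rfl
  exact IsAlgebraic.of_ringHom_of_comp_eq (R := T) (S := T.map vv) (A := K') (B := F) (a := z)
    hz (f := (T.equivMap vv).toRingEquiv.toRingHom) (g := K'.val.toRingHom)
    (T.equivMap vv).surjective K'.val.injective rfl

end Pool.Agent.X140.EF
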