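import Pool.Agent.X140.EF.Col
import Pool.Agent.X140.EF.Fib

/-!
Forms along the fibres of a variety whose fibres, after a base change, dominate the product of a
variety over the constants and some elliptic and hyperelliptic curves.
-/

set_option autoImplicit false
set_option linter.overlappingInstances false

open FF Pool.Agent.W602.GT Pool.Agent.W603.LV Pool.Agent.W619.PQ Pool.Agent.W619.Y
open Pool.Agent.TH585.SV Pool.Agent.Y172 Pool.Agent.Y191 Pool.Agent.X180.Iso
open Polynomial (derivative C X eval resultant)

namespace Pool.Agent.X140.EF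

section loc

variable {K : Type} [Field K] [Algebra ℂ K] {r s : ℕ}

/-- **The product of forms of one variable and a form of a subfield.** -/
theorem fib_of_prod {N m : ℕ} (hm : 0 < m) (hN : Algebra.trdeg ℂ K = N)
    (U M : IntermediateField ℂ K) [Algebra.EssFiniteType ℂ M] (hM : Algebra.trdeg ℂ M = s)
    {η : (Fin s → Derivation ℂ M M) → M} (hη : IsPluriForm ℂ M s m η)
    (hreg : ∀ u : Place ℂ M, IsDivisorial u s → RegularAt u s η)
    {y : Fin s → M} {E : Fin s → Derivation ℂ M M} (hy : IsTranscendenceBasis ℂ y)
    (hE : ∀ i j, E i (y j) = if i = j then 1 else 0)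
    {T x : Fin r → K} (hT0 : ∀ j, T j ≠ 0)
    (hT : ∀ j, ∀ P : Place ℂ K, ∀ G : Derivation U K K, (∀ f, P.Reg f → P.Reg (G f)) →
      Ge P 0 (T j * G (x j) ^ m)) (X : Set (Place ℂ K)) :
    FibSec N m X (fun _ => 0) U (fun G => (∏ j, T j) *
      (mixm x (fun _ => 1) (fun l => ((y l : M) : K)) G).det ^ m * ((η E : M) : K)) := by
  classical
  refine ⟨fun A' D => ?_, fun P _ hP G hG => ?_⟩
  · change _ * (mixm x _ (fun l => ((y l : M) : K)) (fun i => ∑ l, A' i l • D l)).det ^ m *
      _ = _
    rw [mixm_mul, Matrix.det_mul, mul_pow]
    ring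
  · obtain ⟨Z, z, hz, hZ, hge⟩ := pYLOC ℂ K M s N m hM hN (fun y hy => fin_over y hy) η hη
      hreg y E hy hE P hP
    -- the change of the columns
    obtain ⟨W, hW⟩ : ∃ W : Matrix (Fin (r + s)) (Fin (r + s)) K,
        W = Matrix.reindex finSumFinEquiv finSumFinEquiv (Matrix.fromBlocks 1 0 0 Z.transpose) :=
      ⟨_, rfl⟩
    have hWdet : W.det = Z.det := by
      rw [hW, Matrix.det_reindex_self, Matrix.det_fromBlocks_zero₂₁, Matrix.det_one, one_mul,
        Matrix.det_transpose]
    have e1 : mixm x (fun _ => 1) (fun l => ((y l : M) : K)) G = mixm x (fun _ => 1) z G * W := by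
      ext i c
      rw [Matrix.mul_apply, Fin.sum_univ_add]
      refine Fin.addCases (fun j => ?_) (fun l => ?_) c
      · have h1 : ∀ a : Fin r, W (Fin.castAdd s a) (Fin.castAdd s j) = if a = j then 1 else 0 := by
          intro a
          rw [hW, Matrix.reindex_apply, Matrix.submatrix_apply, finSumFinEquiv_symm_apply_castAdd,
            finSumFinEquiv_symm_apply_castAdd, Matrix.fromBlocks_apply₁₁, Matrix.one_apply]
        have h2 : ∀ b : Fin s, W (Fin.natAdd r b) (Fin.castAdd s j) = 0 := by
          intro b
          rw [hW, Matrix.reindex_apply, Matrix.submatrix_apply, finSumFinEquiv_symm_apply_castAdd,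
            finSumFinEquiv_symm_apply_natAdd, Matrix.fromBlocks_apply₂₁, Matrix.zero_apply]
        simp only [h1, h2, mul_zero, Finset.sum_const_zero, add_zero, mul_ite, mul_one,
          Finset.sum_ite_eq', Finset.mem_univ, if_true]
        unfold mixm
        simp only [Matrix.of_apply, Fin.append_left]
      · have h1 : ∀ a : Fin r, W (Fin.castAdd s a) (Fin.natAdd r l) = 0 := by
          intro a
          rw [hW, Matrix.reindex_apply, Matrix.submatrix_apply, finSumFinEquiv_symm_apply_castAdd,
            finSumFinEquiv_symm_apply_natAdd, Matrix.fromBlocks_apply₁₂, Matrix.zero_apply]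
        have h2 : ∀ b : Fin s, W (Fin.natAdd r b) (Fin.natAdd r l) = Z l b := by
          intro b
          rw [hW, Matrix.reindex_apply, Matrix.submatrix_apply, finSumFinEquiv_symm_apply_natAdd,
            finSumFinEquiv_symm_apply_natAdd, Matrix.fromBlocks_apply₂₂, Matrix.transpose_apply]
        simp only [h1, h2, mul_zero, Finset.sum_const_zero, zero_add]
        unfold mixm
        simp only [Matrix.of_apply, Fin.append_right]
        have h3 := hZ ((G i).restrictScalars ℂ) l
        refine h3.trans (Finset.sum_congr rfl fun c _ => ?_)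
        rw [mul_comm]
        rfl
    -- the orders of the columns
    have hm' : (0 : ℤ) < m := by exact_mod_cast hm
    have h1 : ∀ i j, Ge P (-(P.ord (T j) / m)) (G i (x j) / 1) := by
      intro i j
      rw [div_one]
      by_cases h0 : G i (x j) = 0
      · exact Or.inl h0
      · rcases hT j P (G i) (hG i) with h2 | h2
        · exact absurd h2 (mul_ne_zero (hT0 j) (pow_ne_zero _ h0))
        · right
          rw [P.ord_mul (hT0 j) (pow_ne_zero _ h0), P.ord_pow] at h2
          have h4 : -(P.ord (G i (x j))) ≤ P.ord (T j) / m := by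
            rw [Int.le_ediv_iff_mul_le hm']
            nlinarith
          linarith
    have h2 := ge_det' P (mixm x (fun _ => 1) z G) (∑ j, -(P.ord (T j) / m))
      (fun _ c => Fin.append (fun j => -(P.ord (T j) / m))
        (fun _ : Fin s => (0 : ℤ)) c) (fun i c => by
        unfold mixm
        refine Fin.addCases (fun j => ?_) (fun l => ?_) c
        · simp only [Matrix.of_apply, Fin.append_left]
          exact h1 i j
        · simp only [Matrix.of_apply, Fin.append_right]
          exact hG i _ (hz l))
      (fun σ => by
        rw [Fin.sum_univ_add]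
        simp only [Fin.append_left, Fin.append_right, Finset.sum_const_zero, add_zero]
        exact le_rfl)
    have h3 := Ge.prod (P := P) Finset.univ (fun j => T j)
      (fun j => P.ord (T j)) (fun j _ => Pool.Agent.W602.GT.ge_ord P _)
    have h4 := (h3.mul (h2.pow m)).mul hge
    have e2 : (∏ j, T j) * (mixm x (fun _ => 1) z G).det ^ m *
        (((η E : M) : K) * Z.det ^ m) = (∏ j, T j) *
          (mixm x (fun _ => 1) (fun l => ((y l : M) : K)) G).det ^ m * ((η E : M) : K) := by
      rw [e1, Matrix.det_mul, hWdet]
      ring
    rw [e2] at h4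
    have h5 : Ge P 0 ((∏ j, T j) *
          (mixm x (fun _ => 1) (fun l => ((y l : M) : K)) G).det ^ m * ((η E : M) : K)) := by
      refine h4.mono ?_
      rw [Finset.mul_sum, ← Finset.sum_add_distrib, add_zero]
      refine Finset.sum_nonneg fun j _ => ?_
      have h6 : (P.ord (T j) / m) * m ≤ P.ord (T j) := Int.ediv_mul_le _ hm'.ne'
      linarith
    rcases h5 with h5 | h5
    · exact Or.inl h5
    · right
      have h6 : (0 : ℝ) ≤ (P.ord ((∏ j, T j) *
          (mixm x (fun _ => 1) (fun l => ((y l : M) : K)) G).det ^ m * ((η E : M) : K)) : ℝ) := by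
        exact_mod_cast h5
      simpa using h6

end loc

section basis

open IntermediateField

variable {k K : Type} [Field k] [Field K] [Algebra k K]

/-- Independent elements of `M` and some of the other elements are independent over `U`. -/
theorem ind_mix2 (U M : IntermediateField k K) {r s lam u : ℕ}
    (he : Algebra.trdeg U K = (r + s : ℕ)) (hM : Algebra.trdeg k M = s) {f : Fin lam → M}
    (hf : AlgebraicIndependent k f) (x : Fin r → K)
    (hdom : ∀ z : K, IsAlgebraic (adjoin k ((U : Set K) ∪ ((M : Set K) ∪ Set.range x))) z)
    {ι : Fin u → Fin r} (hι : Function.Injective ι) :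
    AlgebraicIndependent U (Fin.append (fun j => (f j : K)) (fun i => x (ι i))) := by
  classical
  obtain ⟨t, ht, htb⟩ := exists_isTranscendenceBasis_superset (R := k) (s := Set.range f)
    hf.coe_range
  have hcard := htb.cardinalMk_eq_trdeg
  rw [hM] at hcard
  obtain ⟨ε⟩ : Nonempty (Fin s ≃ t) := by
    rw [← Cardinal.eq, Cardinal.mk_fin]
    exact hcard.symm
  have hy : IsTranscendenceBasis k (fun j : Fin s => ((ε j : t) : M)) := htb.comp_equiv ε
  have h1 := (basis_mix U M he hy x hdom).1
  have h2 := h1.comp (Fin.append (fun j : Fin lam => Fin.natAdd r (ε.symm ⟨f j, ht ⟨j, rfl⟩⟩))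
    (fun i => Fin.castAdd s (ι i))) (by
    intro a b
    refine Fin.addCases (fun a => ?_) (fun a => ?_) a <;>
      refine Fin.addCases (fun b => ?_) (fun b => ?_) b
    · rw [Fin.append_left, Fin.append_left]
      intro hab
      have h3 := ε.symm.injective (Fin.natAdd_injective s r hab)
      rw [hf.injective (congrArg Subtype.val h3)]
    · rw [Fin.append_left, Fin.append_right]
      intro hab
      have h3 := congrArg Fin.val hab
      rw [Fin.val_natAdd, Fin.val_castAdd] at h3
      have := (ι b).2
      omega
    · rw [Fin.append_left, Fin.append_right]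
      intro hab
      have h3 := congrArg Fin.val hab
      rw [Fin.val_natAdd, Fin.val_castAdd] at h3
      have := (ι a).2
      omega
    · rw [Fin.append_right, Fin.append_right]
      intro hab
      rw [hι (Fin.castAdd_injective r s hab)])
  convert h2 using 1
  funext j
  rw [Function.comp_apply]
  refine Fin.addCases (fun a => ?_) (fun a => ?_) j
  · rw [Fin.append_left, Fin.append_left, Fin.append_right]
    simp
  · rw [Fin.append_right, Fin.append_right, Fin.append_left]

end basis

end Pool.Agent.X140.EF
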